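import Pool.Agent.Lib.Sieve.Selberg
import Pool.Agent.Lib.Sieve.PairSieve
import Mathlib

/-!
# PM-5a: a Brun-Titchmarsh bound (with some constant)

PROOF.  Selberg's sieve for the progression, as `pair_count_le` in Sieve/PairSieve: support `{m : 1 ≤ a₀ + m d ≤ X}` (or `m ∈ range (X/d + 1)`),
sifting primes `p ≤ Z`, `p ∤ d`, density `ν(p) = 1/p` (the condition `a₀ + m d ≡ 0 mod p` is one class for `m`), remainder `|rem(l)| ≤ 1`
(use as support an interval of `m`, so that multiples of `l` number `Y/l + O(1)`).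
`selS = ∑_{l ≤ Z, (l, d) = 1, l squarefree} 1/φ(l) ≥ (φ(d)/d) ∑_{n ≤ Z} 1/n ≥ (φ(d)/d) log Z`
(`∑_{n ≤ Z} 1/n ≤ (∑_{l | rad, l ≤ Z, (l,d) = 1} 1/φ(l)) ∏_{p ∣ d} (1 - 1/p)⁻¹`; see `sum_hfun_ge`, `harmonic_le_coprime`, `sum_smooth_le` in
Sieve/Pair, `sum_le_selS` in Sieve/Lower: it may be possible to use them with `a = d`).
Hence `#{p ≤ X : p ≡ a mod d} ≤ Z + (X/d + 1)/((φ(d)/d) log Z) + Z^4`-type terms; `Z = X^(1/20)` and `d ≤ X^(1/2)` give the claim
(`φ(d) ≤ X^(1/2)`, so `X/(φ(d) log X) ≥ X^(1/2)/log X` dominates `Z^4 + Z`).  Small `X` are absorbed in `C`.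
If another route is easier (any sieve upper bound of the right order), take it.
-/

set_option autoImplicit false

open Finset

namespace Pool.Agent.Lib.SW

open ArithmeticFunction in
/-- local densities of the sieve for a progression -/
noncomputable def btNu : ArithmeticFunction ℝ :=
  ArithmeticFunction.prodPrimeFactors (fun p => (1 : ℝ) / p)

theorem btNu_prime {p : ℕ} (hp : p.Prime) : btNu p = (1 : ℝ) / p := by
  unfold btNu
  rw [ArithmeticFunction.prodPrimeFactors_apply hp.ne_zero, hp.primeFactors, Finset.prod_singleton]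

theorem btNu_squarefree {l : ℕ} (hl : Squarefree l) : btNu l = (1 : ℝ) / l := by
  unfold btNu
  rw [ArithmeticFunction.prodPrimeFactors_apply hl.ne_zero]
  have h : (l : ℝ) = ∏ p ∈ l.primeFactors, (p : ℝ) := by
    conv_lhs => rw [← Nat.prod_primeFactors_of_squarefree hl]
    push_cast
    rfl
  rw [h, Finset.prod_div_distrib]
  simp

/-- the sieve for the progression `a + m d` -/
noncomputable def btSieve (d a Y Z : ℕ) : BoundingSieve where
  support := (Finset.range Y).image (fun m => a + m * d)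
  prodPrimes := ∏ p ∈ (Finset.Icc 1 Z).filter (fun p => p.Prime ∧ ¬ p ∣ d), p
  prodPrimes_squarefree := by
    apply Finset.squarefree_prod_of_pairwise_isCoprime
    · intro p hp q hq hpq
      have hp' := (Finset.mem_filter.mp (Finset.mem_coe.mp hp)).2.1
      have hq' := (Finset.mem_filter.mp (Finset.mem_coe.mp hq)).2.1
      exact Nat.coprime_iff_isRelPrime.mp ((Nat.coprime_primes hp' hq').mpr hpq)
    · intro p hp
      exact (Finset.mem_filter.mp hp).2.1.prime.squarefree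
  weights := fun _ => 1
  weights_nonneg := fun _ => zero_le_one
  totalMass := Y
  nu := btNu
  nu_mult := by
    unfold btNu
    exact ArithmeticFunction.IsMultiplicative.prodPrimeFactors _
  nu_pos_of_prime := by
    intro p hp _
    rw [btNu_prime hp]
    have := hp.pos
    positivity
  nu_lt_one_of_prime := by
    intro p hp _
    rw [btNu_prime hp]
    have hp0 : (0 : ℝ) < p := by exact_mod_cast hp.pos
    rw [div_lt_one hp0]
    exact_mod_cast hp.one_lt

theorem bt_dvd_prodPrimes {d a Y Z : ℕ} {p : ℕ} (hp : p.Prime) (hpZ : p ≤ Z) (hpd : ¬ p ∣ d) :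
    p ∣ (btSieve d a Y Z).prodPrimes := by
  have : p ∣ ∏ p ∈ (Finset.Icc 1 Z).filter (fun p => p.Prime ∧ ¬ p ∣ d), p :=
    Finset.dvd_prod_of_mem (fun p => p)
      (Finset.mem_filter.mpr ⟨Finset.mem_Icc.mpr ⟨hp.one_lt.le, hpZ⟩, hp, hpd⟩)
  exact this

theorem bt_prime_dvd_prodPrimes {d a Y Z : ℕ} {p : ℕ} (hp : p.Prime)
    (h : p ∣ (btSieve d a Y Z).prodPrimes) : p ≤ Z ∧ ¬ p ∣ d := by
  have h' : p ∣ ∏ p ∈ (Finset.Icc 1 Z).filter (fun p => p.Prime ∧ ¬ p ∣ d), p := h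
  obtain ⟨q, hq, hpq⟩ := (Prime.dvd_finsetProd_iff hp.prime _).mp h'
  have hq' := Finset.mem_filter.mp hq
  have : p = q := (Nat.prime_dvd_prime_iff_eq hp hq'.2.1).mp hpq
  rw [this]
  exact ⟨(Finset.mem_Icc.mp hq'.1).2, hq'.2.2⟩

theorem bt_coprime {d a Y Z : ℕ} {l : ℕ} (hl : l ∣ (btSieve d a Y Z).prodPrimes) :
    Nat.Coprime l d := by
  refine Nat.Coprime.symm ?_
  by_contra h
  obtain ⟨p, hp, h1, h2⟩ := Nat.Prime.not_coprime_iff_dvd.mp h
  exact (bt_prime_dvd_prodPrimes hp (h2.trans hl)).2 h1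

theorem bt_inj (d a : ℕ) (hd : 1 ≤ d) : Function.Injective (fun m : ℕ => a + m * d) := by
  intro x y hxy
  have hxy : a + x * d = a + y * d := hxy
  have h : x * d = y * d := by omega
  exact Nat.eq_of_mul_eq_mul_right hd h

theorem bt_siftedSum (d a Y Z : ℕ) (hd : 1 ≤ d) :
    (btSieve d a Y Z).siftedSum =
      (((Finset.range Y).filter (fun m =>
        (btSieve d a Y Z).prodPrimes.Coprime (a + m * d))).card : ℝ) := by
  unfold BoundingSieve.siftedSum
  change ∑ l ∈ (Finset.range Y).image (fun m => a + m * d),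
    (if (btSieve d a Y Z).prodPrimes.Coprime l then (1 : ℝ) else 0) = _
  rw [Finset.sum_image (fun x _ y _ h => bt_inj d a hd h), Finset.card_filter]
  push_cast
  rfl

theorem bt_multSum (d a Y Z : ℕ) (hd : 1 ≤ d) (l : ℕ) :
    (btSieve d a Y Z).multSum l =
      (((Finset.range Y).filter (fun m => l ∣ a + m * d)).card : ℝ) := by
  unfold BoundingSieve.multSum
  change ∑ n ∈ (Finset.range Y).image (fun m => a + m * d),
    (if l ∣ n then (1 : ℝ) else 0) = _
  rw [Finset.sum_image (fun x _ y _ h => bt_inj d a hd h), Finset.card_filter]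
  push_cast
  rfl

theorem bt_abs_rem_le (d a Y Z : ℕ) (hd : 1 ≤ d) {l : ℕ}
    (hl : l ∣ (btSieve d a Y Z).prodPrimes) : |(btSieve d a Y Z).rem l| ≤ 1 := by
  have hsq : Squarefree l := (btSieve d a Y Z).prodPrimes_squarefree.squarefree_of_dvd hl
  have hl0 : 0 < l := Nat.pos_of_ne_zero hsq.ne_zero
  have hcop := bt_coprime hl
  -- the class
  obtain ⟨v, hv⟩ : ∃ v : ℕ, ∀ m : ℕ, l ∣ a + m * d ↔ m ≡ v [MOD l] := by
    have : NeZero l := ⟨hl0.ne'⟩
    set u : (ZMod l)ˣ := ZMod.unitOfCoprime d hcop.symm with hu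
    have hud : ((u : (ZMod l)ˣ) : ZMod l) = (d : ZMod l) := by
      rw [hu]; exact ZMod.coe_unitOfCoprime d hcop.symm
    refine ⟨(-(a : ZMod l) * ((u⁻¹ : (ZMod l)ˣ) : ZMod l)).val, fun m => ?_⟩
    rw [← ZMod.natCast_eq_natCast_iff, ZMod.natCast_zmod_val,
      ← ZMod.natCast_eq_zero_iff]
    push_cast
    rw [← hud]
    constructor
    · intro h
      have h1 : (m : ZMod l) * (u : ZMod l) = -(a : ZMod l) := by
        linear_combination h
      rw [← h1, mul_assoc, Units.mul_inv, mul_one]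
    · intro h
      rw [h, mul_assoc, Units.inv_mul, mul_one]
      ring
  unfold BoundingSieve.rem
  rw [bt_multSum d a Y Z hd]
  change |_ - btNu l * (Y : ℝ)| ≤ _
  rw [btNu_squarefree hsq]
  have hc : ((Finset.range Y).filter (fun m => l ∣ a + m * d)).card =
      Y.count (fun m => m ≡ v [MOD l]) := by
    rw [Nat.count_eq_card_filter_range]
    congr 1
    refine Finset.filter_congr fun m _ => hv m
  rw [hc, Nat.count_modEq_card Y hl0 v]
  have hlr : (0 : ℝ) < l := by exact_mod_cast hl0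
  have h1 : (Y : ℝ) = (l : ℝ) * ((Y / l : ℕ) : ℝ) + ((Y % l : ℕ) : ℝ) := by
    exact_mod_cast (Nat.div_add_mod Y l).symm
  have h2 : (1 : ℝ) / l * Y = ((Y / l : ℕ) : ℝ) + ((Y % l : ℕ) : ℝ) / l := by
    rw [h1]
    field_simp
  have h3 : ((Y % l : ℕ) : ℝ) / l ≤ 1 := by
    rw [div_le_one hlr]
    exact_mod_cast (Nat.mod_lt Y hl0).le
  have h4 : 0 ≤ ((Y % l : ℕ) : ℝ) / l := by positivity
  rw [h2]
  split_ifs with hif
  · push_cast
    rw [abs_le]
    constructor <;> linarith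
  · push_cast
    rw [abs_le]
    constructor <;> linarith

open Pool.Agent.Lib.Sieve in
theorem bt_selS_ge (d a Y Z : ℕ) :
    ∑ m ∈ Finset.Icc 1 Z with m.Coprime d, (1 : ℝ) / m ≤ selS (btSieve d a Y Z) Z := by
  classical
  unfold selS
  set s := btSieve d a Y Z with hs
  have hPsq : Squarefree s.prodPrimes := s.prodPrimes_squarefree
  have hP0 : s.prodPrimes ≠ 0 := hPsq.ne_zero
  have hmaps : ∀ m ∈ (Finset.Icc 1 Z).filter (fun m => m.Coprime d),
      (∏ p ∈ m.primeFactors, p) ∈ s.prodPrimes.divisors.filter (fun l => l ≤ Z) := by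
    intro m hm
    have hm' := Finset.mem_filter.mp hm
    have hm1 := (Finset.mem_Icc.mp hm'.1).1
    have hm2 := (Finset.mem_Icc.mp hm'.1).2
    rw [Finset.mem_filter, Nat.mem_divisors]
    refine ⟨⟨?_, hP0⟩, (Nat.le_of_dvd hm1 (Nat.prod_primeFactors_dvd m)).trans hm2⟩
    apply Finset.prod_primes_dvd
    · intro p hp
      exact (Nat.prime_of_mem_primeFactors hp).prime
    · intro p hp
      have hpp := Nat.prime_of_mem_primeFactors hp
      refine bt_dvd_prodPrimes hpp ((Nat.le_of_mem_primeFactors hp).trans hm2) fun hpd => ?_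
      have : p ∣ Nat.gcd m d := Nat.dvd_gcd (Nat.dvd_of_mem_primeFactors hp) hpd
      rw [hm'.2] at this
      exact hpp.one_lt.ne' (Nat.dvd_one.mp this)
  rw [← Finset.sum_fiberwise_of_maps_to hmaps]
  refine Finset.sum_le_sum fun l hl => ?_
  have hl' := Finset.mem_filter.mp hl
  have hlP : l ∣ s.prodPrimes := Nat.dvd_of_mem_divisors hl'.1
  have hlsq : Squarefree l := hPsq.squarefree_of_dvd hlP
  rw [selbergTerms_eq_prod s hlP]
  have h1 : ∑ m ∈ ((Finset.Icc 1 Z).filter (fun m => m.Coprime d)) with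
        (∏ p ∈ m.primeFactors, p) = l, (1 : ℝ) / m
      ≤ ∑ m ∈ Finset.Icc 1 Z with m.primeFactors = l.primeFactors, (1 : ℝ) / m := by
    apply Finset.sum_le_sum_of_subset_of_nonneg
    · intro m hm
      have hm := Finset.mem_filter.mp hm
      refine Finset.mem_filter.mpr ⟨(Finset.mem_filter.mp hm.1).1, ?_⟩
      rw [← hm.2, Nat.primeFactors_prod]
      intro p hp; exact Nat.prime_of_mem_primeFactors hp
    · intro _ _ _; positivity
  refine h1.trans ?_
  refine (sum_primeFactors_eq_le (fun n : ℕ => (1 : ℝ) / n) (fun n => by positivity) (by simp)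
    (fun m n => by push_cast; rw [one_div_mul_one_div]) Z l.primeFactors
    (fun p hp => Nat.prime_of_mem_primeFactors hp) ?_).trans ?_
  · intro p hp
    have := (Nat.prime_of_mem_primeFactors hp).one_lt
    have h1 : (1 : ℝ) < p := by exact_mod_cast this
    rw [div_lt_one (by linarith)]
    exact h1
  · apply le_of_eq
    refine Finset.prod_congr rfl fun p hp => ?_
    change _ = btNu p / (1 - btNu p)
    rw [btNu_prime (Nat.prime_of_mem_primeFactors hp)]

open Pool.Agent.Lib.Sieve in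
theorem bt_count_le (X d a Z : ℕ) (hd : 1 ≤ d) (hZ : 1 ≤ Z) :
    (((Finset.Icc 1 X).filter (fun p => p.Prime ∧ p ≡ a [MOD d])).card : ℝ) ≤
      Z + ((d : ℝ) / (Nat.totient d : ℝ)) * ((X / d + 1 : ℕ) : ℝ) / Real.log (Z + 1) + (Z : ℝ) ^ 2 := by
  classical
  set s := btSieve d (a % d) (X / d + 1) Z with hs
  have hsel := selberg_bound s Z hZ
  have h1 : (((Finset.Icc 1 X).filter (fun p => p.Prime ∧ p ≡ a [MOD d])).card : ℝ)
      ≤ Z + s.siftedSum := by
    rw [bt_siftedSum _ _ _ _ hd]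
    have hsub : (Finset.Icc 1 X).filter (fun p => p.Prime ∧ p ≡ a [MOD d]) ⊆
        (Finset.Icc 1 Z) ∪ (((Finset.range (X / d + 1)).filter (fun m =>
          (btSieve d (a % d) (X / d + 1) Z).prodPrimes.Coprime (a % d + m * d))).image
            (fun m => a % d + m * d)) := by
      intro p hp
      have hp' := Finset.mem_filter.mp hp
      have hpI := Finset.mem_Icc.mp hp'.1
      rw [Finset.mem_union]
      by_cases hpZ : p ≤ Z
      · exact Or.inl (Finset.mem_Icc.mpr ⟨hpI.1, hpZ⟩)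
      · right
        have hpe : a % d + p / d * d = p := by
          have h1 := Nat.div_add_mod p d
          have h2 : p % d = a % d := hp'.2.2
          rw [← h2]
          have h3 : p / d * d = d * (p / d) := Nat.mul_comm _ _
          omega
        refine Finset.mem_image.mpr ⟨p / d, ?_, hpe⟩
        refine Finset.mem_filter.mpr ⟨?_, ?_⟩
        · rw [Finset.mem_range]
          have := Nat.div_le_div_right (c := d) hpI.2
          omega
        · rw [hpe]
          refine ((Nat.Prime.coprime_iff_not_dvd hp'.2.1).mpr fun h => hpZ ?_).symm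
          exact (bt_prime_dvd_prodPrimes hp'.2.1 h).1
    have h2 := (Finset.card_le_card hsub).trans ((Finset.card_union_le _ _).trans
      (Nat.add_le_add_left Finset.card_image_le _))
    rw [Nat.card_Icc, Nat.add_sub_cancel] at h2
    exact_mod_cast h2
  -- main term
  have hharm : Real.log ((Z : ℝ) + 1) ≤ ∑ w ∈ Finset.Icc 1 Z, (1 : ℝ) / w := by
    have h := log_add_one_le_harmonic Z
    rw [harmonic_eq_sum_Icc] at h
    push_cast at h
    simpa [one_div] using h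
  have hZr : (1 : ℝ) ≤ Z := by exact_mod_cast hZ
  have hlog : 0 < Real.log ((Z : ℝ) + 1) := Real.log_pos (by linarith)
  have hS := selS_pos s Z hZ
  have hSge := bt_selS_ge d (a % d) (X / d + 1) Z
  rw [← hs] at hSge
  have hcop := harmonic_le_coprime d Z (by omega)
  have hphi : 0 ≤ (d : ℝ) / (Nat.totient d : ℝ) := by positivity
  have hmain : s.totalMass / selS s Z
      ≤ ((d : ℝ) / (Nat.totient d : ℝ)) * ((X / d + 1 : ℕ) : ℝ) / Real.log (Z + 1) := by
    change ((X / d + 1 : ℕ) : ℝ) / selS s Z ≤ _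
    rw [div_le_div_iff₀ hS hlog]
    have h3 : Real.log ((Z : ℝ) + 1) ≤ ((d : ℝ) / (Nat.totient d : ℝ)) * selS s Z :=
      hharm.trans (hcop.trans (mul_le_mul_of_nonneg_left hSge hphi))
    calc ((X / d + 1 : ℕ) : ℝ) * Real.log ((Z : ℝ) + 1)
        ≤ ((X / d + 1 : ℕ) : ℝ) * (((d : ℝ) / (Nat.totient d : ℝ)) * selS s Z) := by gcongr
      _ = ((d : ℝ) / (Nat.totient d : ℝ)) * ((X / d + 1 : ℕ) : ℝ) * selS s Z := by ring
  -- error term
  have herr : ∑ d1 ∈ s.prodPrimes.divisors with d1 ≤ Z,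
      ∑ d2 ∈ s.prodPrimes.divisors with d2 ≤ Z, |s.rem (d1.lcm d2)| ≤ (Z : ℝ) ^ 2 := by
    have hterm : ∀ d1 ∈ s.prodPrimes.divisors.filter (fun d => d ≤ Z),
        ∀ d2 ∈ s.prodPrimes.divisors.filter (fun d => d ≤ Z),
        |s.rem (d1.lcm d2)| ≤ 1 := by
      intro d1 h1 d2 h2
      have hd1 := Nat.dvd_of_mem_divisors (Finset.mem_filter.mp h1).1
      have hd2 := Nat.dvd_of_mem_divisors (Finset.mem_filter.mp h2).1
      exact bt_abs_rem_le d (a % d) (X / d + 1) Z hd (Nat.lcm_dvd hd1 hd2)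
    have hcard : ((s.prodPrimes.divisors.filter (fun d => d ≤ Z)).card : ℝ) ≤ (Z : ℝ) := by
      have : (s.prodPrimes.divisors.filter (fun d => d ≤ Z)).card ≤ Z := by
        have hsub : s.prodPrimes.divisors.filter (fun d => d ≤ Z) ⊆ Finset.Icc 1 Z := by
          intro d hd
          have hd' := Finset.mem_filter.mp hd
          exact Finset.mem_Icc.mpr ⟨Nat.pos_of_mem_divisors hd'.1, hd'.2⟩
        exact (Finset.card_le_card hsub).trans (by simp)
      exact_mod_cast this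
    calc ∑ d1 ∈ s.prodPrimes.divisors with d1 ≤ Z,
          ∑ d2 ∈ s.prodPrimes.divisors with d2 ≤ Z, |s.rem (d1.lcm d2)|
        ≤ ∑ d1 ∈ s.prodPrimes.divisors with d1 ≤ Z,
          ∑ d2 ∈ s.prodPrimes.divisors with d2 ≤ Z, (1 : ℝ) :=
          Finset.sum_le_sum fun d1 h1 => Finset.sum_le_sum fun d2 h2 => hterm d1 h1 d2 h2
      _ = ((s.prodPrimes.divisors.filter (fun d => d ≤ Z)).card : ℝ)
          * ((s.prodPrimes.divisors.filter (fun d => d ≤ Z)).card : ℝ) := by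
          simp only [Finset.sum_const, nsmul_eq_mul, mul_one]
      _ ≤ (Z : ℝ) * (Z : ℝ) := by gcongr
      _ = (Z : ℝ) ^ 2 := by ring
  linarith

theorem brun_titchmarsh : ∃ C : ℝ, 0 < C ∧ ∀ X : ℕ, 2 ≤ X → ∀ d a : ℕ, 1 ≤ d →
    (d : ℝ) ≤ (X : ℝ) ^ (1 / 2 : ℝ) → Nat.Coprime a d →
      (((Icc 1 X).filter (fun p => p.Prime ∧ p ≡ a [MOD d])).card : ℝ) ≤
        C * X / ((d.totient : ℝ) * Real.log X) := by
  refine ⟨24, by norm_num, fun X hX d a hd hdX _ => ?_⟩
  have hXr : (2 : ℝ) ≤ X := by exact_mod_cast hX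
  have hX0 : (0 : ℝ) < X := by linarith
  have hlogX : 0 < Real.log X := Real.log_pos (by linarith)
  have hphi0 : 0 < d.totient := Nat.totient_pos.mpr hd
  have hphir : (0 : ℝ) < d.totient := by exact_mod_cast hphi0
  have hdr : (1 : ℝ) ≤ d := by exact_mod_cast hd
  set Z := ⌊(X : ℝ) ^ (1 / 8 : ℝ)⌋₊ with hZ
  have hpow1 : (1 : ℝ) ≤ (X : ℝ) ^ (1 / 8 : ℝ) := Real.one_le_rpow (by linarith) (by norm_num)
  have hZ1 : 1 ≤ Z := Nat.one_le_floor_iff _ |>.mpr hpow1
  have hZle : (Z : ℝ) ≤ (X : ℝ) ^ (1 / 8 : ℝ) := Nat.floor_le (by positivity)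
  have hZlt : (X : ℝ) ^ (1 / 8 : ℝ) < Z + 1 := Nat.lt_floor_add_one _
  have hZr : (1 : ℝ) ≤ Z := by exact_mod_cast hZ1
  have hlogZ : Real.log X / 8 ≤ Real.log ((Z : ℝ) + 1) := by
    have : Real.log ((X : ℝ) ^ (1 / 8 : ℝ)) ≤ Real.log ((Z : ℝ) + 1) :=
      Real.log_le_log (by positivity) hZlt.le
    rw [Real.log_rpow hX0] at this
    linarith
  have hZ2 : (Z : ℝ) ^ 2 ≤ (X : ℝ) ^ (1 / 4 : ℝ) := by
    calc (Z : ℝ) ^ 2 ≤ ((X : ℝ) ^ (1 / 8 : ℝ)) ^ 2 := by gcongr
      _ = (X : ℝ) ^ (1 / 4 : ℝ) := by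
        rw [← Real.rpow_natCast, ← Real.rpow_mul hX0.le]
        norm_num
  have hZZ : (Z : ℝ) ≤ (Z : ℝ) ^ 2 := by nlinarith
  have hX2 : (X : ℝ) ^ (1 / 2 : ℝ) * (X : ℝ) ^ (1 / 2 : ℝ) = X := by
    rw [← Real.rpow_add hX0]; norm_num
  have hX4 : (X : ℝ) ^ (1 / 4 : ℝ) * (X : ℝ) ^ (1 / 4 : ℝ) = (X : ℝ) ^ (1 / 2 : ℝ) := by
    rw [← Real.rpow_add hX0]; norm_num
  have hX2' : (X : ℝ) ^ (1 / 2 : ℝ) ≤ X := by
    have h1 : (1 : ℝ) ≤ (X : ℝ) ^ (1 / 2 : ℝ) := Real.one_le_rpow (by linarith) (by norm_num)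
    nlinarith
  -- number of terms
  have hY : ((X / d + 1 : ℕ) : ℝ) ≤ 2 * X / d := by
    have h1 : ((X / d : ℕ) : ℝ) ≤ (X : ℝ) / d := Nat.cast_div_le
    have h2 : (1 : ℝ) ≤ (X : ℝ) / d := by
      rw [le_div_iff₀ (by linarith)]
      linarith
    push_cast
    calc ((X / d : ℕ) : ℝ) + 1 ≤ (X : ℝ) / d + X / d := add_le_add h1 h2
      _ = 2 * X / d := by ring
  have h := bt_count_le X d a Z hd hZ1
  have hm : ((d : ℝ) / (Nat.totient d : ℝ)) * ((X / d + 1 : ℕ) : ℝ) / Real.log (Z + 1) ≤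
      16 * X / ((d.totient : ℝ) * Real.log X) := by
    calc ((d : ℝ) / (Nat.totient d : ℝ)) * ((X / d + 1 : ℕ) : ℝ) / Real.log (Z + 1)
        ≤ ((d : ℝ) / (Nat.totient d : ℝ)) * (2 * X / d) / (Real.log X / 8) := by gcongr
      _ = 16 * X / ((d.totient : ℝ) * Real.log X) := by
        field_simp
        ring
  have hlog4 : Real.log X ≤ 4 * (X : ℝ) ^ (1 / 4 : ℝ) := by
    have := Real.log_le_rpow_div hX0.le (show (0 : ℝ) < 1 / 4 by norm_num)
    calc Real.log X ≤ (X : ℝ) ^ (1 / 4 : ℝ) / (1 / 4) := this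
      _ = 4 * (X : ℝ) ^ (1 / 4 : ℝ) := by ring
  have hphid : (d.totient : ℝ) ≤ (X : ℝ) ^ (1 / 2 : ℝ) := by
    have : (d.totient : ℝ) ≤ d := by exact_mod_cast Nat.totient_le d
    linarith
  have herr : 2 * (X : ℝ) ^ (1 / 4 : ℝ) ≤ 8 * X / ((d.totient : ℝ) * Real.log X) := by
    rw [le_div_iff₀ (by positivity)]
    calc 2 * (X : ℝ) ^ (1 / 4 : ℝ) * ((d.totient : ℝ) * Real.log X)
        ≤ 2 * (X : ℝ) ^ (1 / 4 : ℝ) * ((X : ℝ) ^ (1 / 2 : ℝ) * (4 * (X : ℝ) ^ (1 / 4 : ℝ))) := by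
          gcongr
      _ = 8 * (((X : ℝ) ^ (1 / 4 : ℝ) * (X : ℝ) ^ (1 / 4 : ℝ)) * (X : ℝ) ^ (1 / 2 : ℝ)) := by ring
      _ = 8 * X := by rw [hX4, hX2]
  have hfin : 16 * (X : ℝ) / ((d.totient : ℝ) * Real.log X) +
      8 * (X : ℝ) / ((d.totient : ℝ) * Real.log X) =
      24 * (X : ℝ) / ((d.totient : ℝ) * Real.log X) := by ring
  linarith

end Pool.Agent.Lib.SW
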