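import Pool.Agent.Lib.SW.TS.TS9

/-!
# PM-7: Fourier transfer for pairs

PROOF.  Both from `TS9_conv` (`Transfer.conv_l2`) and the Cauchy-Schwarz inequality.
`fourier_mid`: `f(n) = u(n/2)` for even `n ≤ 2X`, `0` otherwise, `u(m) = lam m - rz z m/Vz z`.  Its exponential sums are
`∑_{m ≤ X} u(m) e(2αm)`, bounded by `fourier_rz` (`Y = X`).  `c(a) = ∑_{b ∈ S} f(a+b) = ∑_{b' ∈ S'} f(N - b')` with
`N = a + X + 1`, `S' = X + 1 - S`.  So `∑_{a ∈ S} c(a)² ≤ S₀² #S` and `|∑_{a ∈ S} c(a)| ≤ (#S · S₀² #S)^(1/2) = S₀ #S`.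
`fourier_third`: the same with `u` on `[1, 2X]`, `z = zB B (2X)`, `N = 2b`.
-/

set_option autoImplicit false

open Finset Pool.Agent.Lib.GT

namespace Pool.Agent.Lib.SW

/-- Cauchy-Schwarz -/
theorem PM7_cs (S : Finset ℕ) (c : ℕ → ℝ) (B : ℝ) (hB : 0 ≤ B)
    (h : ∑ a ∈ S, c a ^ 2 ≤ B ^ 2 * S.card) : |∑ a ∈ S, c a| ≤ B * S.card := by
  have h1 : (∑ a ∈ S, c a) ^ 2 ≤ S.card * ∑ a ∈ S, c a ^ 2 := sq_sum_le_card_mul_sum_sq
  have h2 : (∑ a ∈ S, c a) ^ 2 ≤ (B * S.card) ^ 2 := by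
    refine h1.trans ?_
    calc (S.card : ℝ) * ∑ a ∈ S, c a ^ 2 ≤ S.card * (B ^ 2 * S.card) :=
          mul_le_mul_of_nonneg_left h (Nat.cast_nonneg _)
      _ = (B * S.card) ^ 2 := by ring
  exact abs_le_of_sq_le_sq h2 (by positivity)

theorem fourier_mid (A : ℕ) : ∃ B₀ : ℕ, ∀ B : ℕ, B₀ ≤ B → ∃ C : ℝ, 0 < C ∧ ∀ X : ℕ, 3 ≤ X →
    ∀ S : Finset ℕ, S ⊆ Icc 1 X →
      |∑ a ∈ S, ∑ b ∈ S, (if (a + b) % 2 = 0 then
        lam ((a + b) / 2) - rz (zB B X) ((a + b) / 2) / Vz (zB B X) else 0)| ≤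
          C * X / (Real.log X) ^ A * S.card := by
  obtain ⟨B₀, h₀⟩ := fourier_rz A
  refine ⟨B₀, fun B hB => ?_⟩
  obtain ⟨C, hC, h⟩ := h₀ B hB
  refine ⟨C, hC, fun X hX S hS => ?_⟩
  have hX1 : (1 : ℝ) ≤ X := by exact_mod_cast (show 1 ≤ X by omega)
  have hlog : 0 ≤ Real.log X := Real.log_nonneg hX1
  obtain ⟨z, hz⟩ : ∃ z, z = zB B X := ⟨_, rfl⟩
  have h' := h X hX X le_rfl
  rw [← hz] at h' ⊢
  set u : ℕ → ℝ := fun m => lam m - rz z m / Vz z with hu
  set f : ℕ → ℝ := fun n => if n % 2 = 0 ∧ n ≤ 2 * X then u (n / 2) else 0 with hf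
  set S' : Finset ℕ := S.image (fun b => X + 1 - b) with hS'
  have hinj : Set.InjOn (fun b => X + 1 - b) (S : Set ℕ) := by
    intro a ha b hb hab
    have h1 := Finset.mem_Icc.1 (hS ha)
    have h2 := Finset.mem_Icc.1 (hS hb)
    simp only at hab
    omega
  have hS'sub : S' ⊆ Icc 1 (X + 1) := by
    intro s hs
    rw [hS', Finset.mem_image] at hs
    obtain ⟨b, hb, rfl⟩ := hs
    have h2 := Finset.mem_Icc.1 (hS hb)
    rw [Finset.mem_Icc]
    omega
  have hcard : S'.card = S.card := Finset.card_image_of_injOn hinj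
  have hconv := TS9_conv (X + 1) S' hS'sub f (C * X / (Real.log X) ^ A) (fun α => by
    have h1 : ∑ n ∈ Icc 1 (2 * (X + 1)), ((f n : ℝ) : ℂ) * e (n * α) =
        ∑ m ∈ Icc 1 X, ((u m : ℝ) : ℂ) * e (m * (2 * α)) := by
      symm
      have h2 : ∑ m ∈ Icc 1 X, ((u m : ℝ) : ℂ) * e (m * (2 * α)) =
          ∑ n ∈ (Icc 1 X).image (fun m => 2 * m), ((f n : ℝ) : ℂ) * e (n * α) := by
        rw [Finset.sum_image (by intro a _ b _ hab; simp only at hab; omega)]
        refine Finset.sum_congr rfl fun m hm => ?_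
        rw [Finset.mem_Icc] at hm
        rw [hf]
        simp only
        rw [if_pos ⟨by omega, by omega⟩, show 2 * m / 2 = m by omega]
        congr 2
        push_cast
        ring
      rw [h2]
      apply Finset.sum_subset
      · intro n hn
        rw [Finset.mem_image] at hn
        obtain ⟨m, hm, rfl⟩ := hn
        rw [Finset.mem_Icc] at hm ⊢
        omega
      · intro n hn hn'
        rw [Finset.mem_Icc] at hn
        rw [hf]
        simp only
        rw [if_neg]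
        · simp
        · rintro ⟨h3, h4⟩
          apply hn'
          rw [Finset.mem_image]
          refine ⟨n / 2, ?_, by omega⟩
          rw [Finset.mem_Icc]
          omega
    rw [h1]
    exact h' (2 * α))
  rw [hcard] at hconv
  have hc : ∀ a ∈ S, ∑ b ∈ S, (if (a + b) % 2 = 0 then u ((a + b) / 2) else 0) =
      ∑ s ∈ S'.filter (fun s => s < a + X + 1), f (a + X + 1 - s) := by
    intro a ha
    have ha' := Finset.mem_Icc.1 (hS ha)
    have h3 : S'.filter (fun s => s < a + X + 1) = S' := by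
      apply Finset.filter_true_of_mem
      intro s hs
      have := Finset.mem_Icc.1 (hS'sub hs)
      omega
    rw [h3, hS', Finset.sum_image hinj]
    refine Finset.sum_congr rfl fun b hb => ?_
    have hb' := Finset.mem_Icc.1 (hS hb)
    rw [show a + X + 1 - (X + 1 - b) = a + b by omega, hf]
    simp only
    by_cases h4 : (a + b) % 2 = 0
    · rw [if_pos h4, if_pos ⟨h4, by omega⟩]
    · rw [if_neg h4, if_neg (fun h5 => h4 h5.1)]
  have hsum : ∑ a ∈ S, (∑ b ∈ S, (if (a + b) % 2 = 0 then u ((a + b) / 2) else 0)) ^ 2 ≤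
      (C * X / (Real.log X) ^ A) ^ 2 * S.card := by
    refine le_trans ?_ hconv
    rw [Finset.sum_congr rfl (fun a ha => by rw [hc a ha])]
    have h5 : ∑ a ∈ S, (∑ s ∈ S'.filter (fun s => s < a + X + 1), f (a + X + 1 - s)) ^ 2 =
        ∑ N ∈ S.image (fun a => a + X + 1),
          (∑ s ∈ S'.filter (fun s => s < N), f (N - s)) ^ 2 := by
      rw [Finset.sum_image (by intro a _ b _ hab; simp only at hab; omega)]
    rw [h5]
    apply Finset.sum_le_sum_of_subset_of_nonneg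
    · intro N hN
      rw [Finset.mem_image] at hN
      obtain ⟨a, ha, rfl⟩ := hN
      have ha' := Finset.mem_Icc.1 (hS ha)
      rw [Finset.mem_Icc]
      omega
    · intro N _ _
      positivity
  exact PM7_cs S _ _ (by positivity) hsum

theorem fourier_third (A : ℕ) : ∃ B₀ : ℕ, ∀ B : ℕ, B₀ ≤ B → ∃ C : ℝ, 0 < C ∧ ∀ X : ℕ, 3 ≤ X →
    ∀ S : Finset ℕ, S ⊆ Icc 1 X →
      |∑ b ∈ S, ∑ a ∈ S, (if a < 2 * b then
        lam (2 * b - a) - rz (zB B (2 * X)) (2 * b - a) / Vz (zB B (2 * X)) else 0)| ≤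
          C * X / (Real.log X) ^ A * S.card := by
  obtain ⟨B₀, h₀⟩ := fourier_rz A
  refine ⟨B₀, fun B hB => ?_⟩
  obtain ⟨C, hC, h⟩ := h₀ B hB
  refine ⟨2 * C, by positivity, fun X hX S hS => ?_⟩
  have hX1 : (3 : ℝ) ≤ X := by exact_mod_cast hX
  have hlog : 0 < Real.log X := Real.log_pos (by linarith)
  obtain ⟨z, hz⟩ : ∃ z, z = zB B (2 * X) := ⟨_, rfl⟩
  have h' := h (2 * X) (by omega) (2 * X) le_rfl
  rw [← hz] at h' ⊢
  set u : ℕ → ℝ := fun m => lam m - rz z m / Vz z with hu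
  have hle : C * ((2 * X : ℕ) : ℝ) / (Real.log ((2 * X : ℕ) : ℝ)) ^ A ≤
      2 * C * X / (Real.log X) ^ A := by
    have h1 : Real.log X ≤ Real.log ((2 * X : ℕ) : ℝ) := by
      apply Real.log_le_log (by linarith)
      push_cast
      linarith
    have h2 : (Real.log X) ^ A ≤ (Real.log ((2 * X : ℕ) : ℝ)) ^ A :=
      pow_le_pow_left₀ hlog.le h1 A
    have h3 : C * ((2 * X : ℕ) : ℝ) = 2 * C * X := by push_cast; ring
    rw [h3]
    exact div_le_div_of_nonneg_left (by positivity) (by positivity) h2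
  have hconv := TS9_conv X S hS u (2 * C * X / (Real.log X) ^ A) (fun α =>
    (h' α).trans hle)
  have hsum : ∑ b ∈ S, (∑ a ∈ S, (if a < 2 * b then u (2 * b - a) else 0)) ^ 2 ≤
      (2 * C * X / (Real.log X) ^ A) ^ 2 * S.card := by
    refine le_trans ?_ hconv
    have h5 : ∑ b ∈ S, (∑ a ∈ S, (if a < 2 * b then u (2 * b - a) else 0)) ^ 2 =
        ∑ N ∈ S.image (fun b => 2 * b),
          (∑ s ∈ S.filter (fun s => s < N), u (N - s)) ^ 2 := by
      rw [Finset.sum_image (by intro a _ b _ hab; simp only at hab; omega)]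
      refine Finset.sum_congr rfl fun b _ => ?_
      rw [Finset.sum_filter]
    rw [h5]
    apply Finset.sum_le_sum_of_subset_of_nonneg
    · intro N hN
      rw [Finset.mem_image] at hN
      obtain ⟨a, ha, rfl⟩ := hN
      have ha' := Finset.mem_Icc.1 (hS ha)
      rw [Finset.mem_Icc]
      omega
    · intro N _ _
      positivity
  exact PM7_cs S _ _ (by positivity) hsum

end Pool.Agent.Lib.SW
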