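import Pool.Agent.Lib.SW.PM.PM6
import Pool.Agent.Lib.SW.PM.PM7

/-!
# PM-8: many pairs of elements of a sparse set with prime midpoint

PROOFS.  `pairs_mid`: `z = zB B X`, `B ≥ 1` from `fourier_mid A'`, `A' = ⌈K⌉₊ + 4`.  `A₁ = A.filter (z < ·)`, `#A₁ ≥ #A/2` (`z ≤ (log X)^B`).
For a good pair (case `false`) `a + b` is even (both odd), not divisible by 4 nor by an odd prime `≤ z`: `(a+b)/2` is coprime to
`primorial z`, `rz = 1`, and `1/Vz ≥ 1`, so `∑_{a,b ∈ A₁} lam ((a+b)/2) ≥ #goodPairs - C X #A₁/(log X)^A'`.  Subtract the diagonal (`≤ #A log X`) and divide by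
`log X`.  As `#goodPairs ≥ #A₁² exp (-(K log 2 + ε/2) L2/L3)` and `X/(log X)^A' ≤ #A/(log X)²`, everything else is smaller.
`pairs_third`: the same with `X' = 2X` in `compat_count` and case `true`: if `(a,b)` is good, so is `(b,a)`, and one of them has `a < 2b`.
-/

set_option autoImplicit false

open Finset Pool.Agent.Lib.GT

namespace Pool.Agent.Lib.SW

open Classical in
noncomputable def midPairs (A : Finset ℕ) : Finset (ℕ × ℕ) :=
  (A ×ˢ A).filter (fun q => q.1 ≠ q.2 ∧ ∃ p, p.Prime ∧ q.1 + q.2 = 2 * p)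

open Classical in
noncomputable def thirdPairs (A : Finset ℕ) : Finset (ℕ × ℕ) :=
  (A ×ˢ A).filter (fun q => q.1 ≠ q.2 ∧ ∃ r, r.Prime ∧ q.1 + r = 2 * q.2)

/-! ### eventual inequalities -/

theorem PM8_L2 (T : ℝ) : ∀ᶠ X : ℕ in Filter.atTop, T ≤ Real.log (Real.log X) := LG3_loglog_ev T

theorem PM8_ev1 (κ : ℝ) : ∀ᶠ X : ℕ in Filter.atTop,
    1 / Real.log X ≤ Real.exp (-κ * Real.log (Real.log X) / Real.log (Real.log (Real.log X))) := by
  filter_upwards [LG3_log_ev 1, LG3_loglog_ev 1, LG3_log3_ev (max κ 1)] with X h1 h2 h3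
  have h4 : 0 < Real.log X := by linarith
  have h5 : 0 < Real.log (Real.log (Real.log X)) := lt_of_lt_of_le one_pos ((le_max_right κ 1).trans h3)
  have h6 : κ ≤ Real.log (Real.log (Real.log X)) := (le_max_left κ 1).trans h3
  have h7 : 1 / Real.log X = Real.exp (-Real.log (Real.log X)) := by
    rw [Real.exp_neg, Real.exp_log h4, one_div]
  rw [h7, Real.exp_le_exp, le_div_iff₀ h5]
  have h8 : κ * Real.log (Real.log X) ≤
      Real.log (Real.log (Real.log X)) * Real.log (Real.log X) :=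
    mul_le_mul_of_nonneg_right h6 (by linarith)
  linarith

theorem PM8_ev2 (δ M : ℝ) (hδ : 0 < δ) (hM : 1 ≤ M) : ∀ᶠ X : ℕ in Filter.atTop,
    Real.exp (-δ * Real.log (Real.log X) / Real.log (Real.log (Real.log X))) ≤ 1 / M := by
  -- `y / log y ≥ √y / 2`-type growth: use `log y ≤ √y`-free argument through `log_le_rpow_div`
  have h0 : Filter.Tendsto (fun y : ℝ => Real.log y / y) Filter.atTop (nhds 0) := by
    have h := Real.tendsto_pow_log_div_mul_add_atTop 1 0 1 one_ne_zero
    simpa using h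
  have hpos : 0 < δ / (Real.log M + 1) := div_pos hδ (by have := Real.log_nonneg hM; linarith)
  have h1 := (h0.comp LG3_loglog).eventually (gt_mem_nhds hpos)
  filter_upwards [h1, LG3_loglog_ev 1, LG3_log3_ev 1] with X h1 h2 h3
  have h4 : 0 < Real.log (Real.log (Real.log X)) := by linarith
  have h5 : 0 < Real.log (Real.log X) := by linarith
  have h6 : 0 ≤ Real.log M := Real.log_nonneg hM
  have h7 : Real.log (Real.log (Real.log X)) / Real.log (Real.log X) < δ / (Real.log M + 1) := h1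
  rw [div_lt_div_iff₀ h5 (by linarith)] at h7
  have h8 : 1 / M = Real.exp (-Real.log M) := by
    rw [Real.exp_neg, Real.exp_log (by linarith), one_div]
  rw [h8, Real.exp_le_exp, div_le_iff₀ h4]
  nlinarith

/-- powers of the logarithm are small -/
theorem PM8_pow (K c : ℝ) (hc : 0 < c) (m : ℕ) : ∀ᶠ X : ℕ in Filter.atTop,
    (Real.log X) ^ m ≤ c * X / (Real.log X) ^ K := by
  filter_upwards [LG3_log_ev 1, eventually_log_pow (m + ⌈K⌉₊) c hc] with X h1 h2
  have h3 : 0 < Real.log X := by linarith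
  rw [le_div_iff₀ (Real.rpow_pos_of_pos h3 K)]
  refine le_trans ?_ h2
  rw [pow_add]
  refine mul_le_mul_of_nonneg_left ?_ (by positivity)
  rw [← Real.rpow_natCast]
  exact Real.rpow_le_rpow_of_exponent_le h1 (Nat.le_ceil K)

/-! ### small facts -/

theorem PM8_Vz (z : ℕ) : 0 < Vz z ∧ Vz z ≤ 1 := by
  unfold Vz
  have h1 : (0 : ℝ) < (primorial z : ℝ) := by exact_mod_cast primorial_pos z
  have h2 : (0 : ℝ) < ((primorial z).totient : ℝ) := by
    exact_mod_cast Nat.totient_pos.2 (primorial_pos z)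
  refine ⟨div_pos h2 h1, (div_le_one h1).2 ?_⟩
  exact_mod_cast Nat.totient_le _

theorem PM8_rz_nonneg (z n : ℕ) : 0 ≤ rz z n / Vz z := by
  refine div_nonneg ?_ (PM8_Vz z).1.le
  unfold rz
  split_ifs <;> norm_num

theorem PM8_rz_ge (z n : ℕ) (h : Nat.Coprime n (primorial z)) : 1 ≤ rz z n / Vz z := by
  unfold rz
  rw [if_pos h, le_div_iff₀ (PM8_Vz z).1, one_mul]
  exact (PM8_Vz z).2

theorem PM8_coprime {z n : ℕ} (h : ∀ p, p.Prime → p ≤ z → ¬ p ∣ n) :
    Nat.Coprime n (primorial z) := by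
  refine Nat.Coprime.symm (Nat.coprime_of_dvd ?_)
  intro p hp hpz hpn
  exact h p hp ((hp.dvd_primorial_iff).1 hpz) hpn

theorem PM8_zB_le (B X : ℕ) (hX : 3 ≤ X) : (zB B X : ℝ) ≤ (Real.log X) ^ B := by
  unfold zB
  have : (3 : ℝ) ≤ X := by exact_mod_cast hX
  exact Nat.floor_le (pow_nonneg (Real.log_nonneg (by linarith)) _)

/-- removing the small elements costs at most half of the set -/
theorem PM8_half (A : Finset ℕ) (z : ℕ) (h0 : ∀ a ∈ A, 1 ≤ a) (hz : (z : ℝ) ≤ (A.card : ℝ) / 2) :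
    (A.card : ℝ) / 2 ≤ ((A.filter (fun a => z < a)).card : ℝ) := by
  have h1 : A.card = (A.filter (fun a => z < a)).card + (A.filter (fun a => ¬ z < a)).card :=
    (card_filter_add_card_filter_not _).symm
  have h2 : (A.filter (fun a => ¬ z < a)).card ≤ z := by
    have h3 : A.filter (fun a => ¬ z < a) ⊆ Icc 1 z := by
      intro a ha
      obtain ⟨ha1, ha2⟩ := mem_filter.1 ha
      exact mem_Icc.2 ⟨h0 a ha1, not_lt.1 ha2⟩
    have h4 := card_le_card h3
    rwa [Nat.card_Icc, Nat.add_sub_cancel] at h4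
  have h3 : (A.card : ℝ) = ((A.filter (fun a => z < a)).card : ℝ) +
      ((A.filter (fun a => ¬ z < a)).card : ℝ) := by exact_mod_cast h1
  have h4 : ((A.filter (fun a => ¬ z < a)).card : ℝ) ≤ z := by exact_mod_cast h2
  linarith

/-- the real inequality at the end -/
theorem PM8_final {a a₁ N P R L E E₁ : ℝ} (ha1 : a / 2 ≤ a₁) (ha2 : a₁ ≤ a) (ha : 0 < a)
    (hL : 1 ≤ L) (hE₁ : 0 ≤ E₁) (hE : E ≤ E₁ / 32) (hN : a₁ ^ 2 * E₁ ≤ 2 * N)
    (hP : N - R * a₁ ≤ P * (2 * L)) (hR : R ≤ a * E₁ / 32) :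
    a ^ 2 / L * E ≤ P := by
  have h1 : (a / 2) ^ 2 ≤ a₁ ^ 2 := pow_le_pow_left₀ (by linarith) ha1 2
  have h2 : (a / 2) ^ 2 * E₁ ≤ 2 * N := (mul_le_mul_of_nonneg_right h1 hE₁).trans hN
  have h3 : R * a₁ ≤ a * E₁ / 32 * a := mul_le_mul hR ha2 (by linarith) (by positivity)
  have h4 : a ^ 2 * E ≤ a ^ 2 * (E₁ / 32) := mul_le_mul_of_nonneg_left hE (by positivity)
  have h5 : a ^ 2 * E₁ / 8 - a ^ 2 * E₁ / 32 ≤ P * (2 * L) := by nlinarith
  rw [div_mul_eq_mul_div, div_le_iff₀ (by linarith)]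
  have h6 : 0 ≤ a ^ 2 * E₁ := by positivity
  nlinarith

/-! ### the midpoint -/

theorem PM8_mid_lower (X z : ℕ) (A₁ : Finset ℕ) (hz : 2 ≤ z) (hA : ∀ a ∈ A₁, a.Prime ∧ z < a ∧ a ≤ X)
    (R : ℝ) (hR : |∑ a ∈ A₁, ∑ b ∈ A₁, (if (a + b) % 2 = 0 then
        lam ((a + b) / 2) - rz z ((a + b) / 2) / Vz z else 0)| ≤ R * A₁.card) :
    ((goodPairs false z A₁).card : ℝ) - (R + Real.log X) * A₁.card ≤
      ((midPairs A₁).card : ℝ) * Real.log X := by
  classical
  have hodd : ∀ a ∈ A₁, a % 2 = 1 := fun a ha =>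
    (hA a ha).1.eq_two_or_odd.resolve_left (by have := (hA a ha).2.1; omega)
  -- the two sums
  have h1 : ∑ a ∈ A₁, ∑ b ∈ A₁, (if (a + b) % 2 = 0 then
        lam ((a + b) / 2) - rz z ((a + b) / 2) / Vz z else 0) =
      ∑ q ∈ A₁ ×ˢ A₁, lam ((q.1 + q.2) / 2) - ∑ q ∈ A₁ ×ˢ A₁, rz z ((q.1 + q.2) / 2) / Vz z := by
    rw [← sum_sub_distrib, sum_product]
    refine sum_congr rfl fun a ha => sum_congr rfl fun b hb => ?_
    have h2 := hodd a ha
    have h3 := hodd b hb
    rw [if_pos (by omega)]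
  have h2 : ((goodPairs false z A₁).card : ℝ) ≤
      ∑ q ∈ A₁ ×ˢ A₁, rz z ((q.1 + q.2) / 2) / Vz z := by
    calc ((goodPairs false z A₁).card : ℝ) = ∑ q ∈ goodPairs false z A₁, (1 : ℝ) := by
          rw [sum_const, nsmul_eq_mul, mul_one]
      _ ≤ ∑ q ∈ goodPairs false z A₁, rz z ((q.1 + q.2) / 2) / Vz z := by
          refine sum_le_sum fun q hq => PM8_rz_ge _ _ (PM8_coprime ?_)
          unfold goodPairs at hq
          obtain ⟨hq1, hq2, hq3⟩ := mem_filter.1 hq
          intro p hp hpz hdvd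
          have hq4 : (q.1 + q.2) % mm p ≠ 0 := hq3 p hp hpz
          unfold mm at hq4
          obtain ⟨k, hk⟩ := hdvd
          have h5 := hodd _ (mem_product.1 hq1).1
          have h6 := hodd _ (mem_product.1 hq1).2
          have h7 : q.1 + q.2 = 2 * ((q.1 + q.2) / 2) := by omega
          rw [hk] at h7
          split_ifs at hq4 with h8
          · refine hq4 ?_
            rw [h7, h8]
            have h9 : 2 * (2 * k) = 4 * k := by ring
            rw [h9, Nat.mul_mod_right]
          · refine hq4 ?_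
            rw [h7]
            have h9 : 2 * (p * k) = p * (2 * k) := by ring
            rw [h9, Nat.mul_mod_right]
      _ ≤ _ := by
          refine sum_le_sum_of_subset_of_nonneg ?_ fun q _ _ => PM8_rz_nonneg _ _
          unfold goodPairs
          exact filter_subset _ _
  have h3 : ∑ q ∈ A₁ ×ˢ A₁, lam ((q.1 + q.2) / 2) ≤
      ((midPairs A₁).card : ℝ) * Real.log X + A₁.card * Real.log X := by
    have h4 : ∀ q ∈ A₁ ×ˢ A₁, lam ((q.1 + q.2) / 2) ≤
        (if q ∈ midPairs A₁ then Real.log X else 0) + (if q.1 = q.2 then Real.log X else 0) := by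
      intro q hq
      have hq1 := mem_product.1 hq
      have h5 := hA _ hq1.1
      have h6 := hA _ hq1.2
      have h7 := h5.1.two_le
      have hX : (1 : ℝ) ≤ X := by
        have : 1 ≤ X := by omega
        exact_mod_cast this
      have hlogX : 0 ≤ Real.log X := Real.log_nonneg hX
      unfold lam
      split_ifs with h8 h9 h10 h10
      · have : (0 : ℝ) < (((q.1 + q.2) / 2 : ℕ) : ℝ) := by exact_mod_cast h8.pos
        have h11 : Real.log (((q.1 + q.2) / 2 : ℕ) : ℝ) ≤ Real.log X := by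
          apply Real.log_le_log this
          have : (q.1 + q.2) / 2 ≤ X := by omega
          exact_mod_cast this
        linarith
      · have : (0 : ℝ) < (((q.1 + q.2) / 2 : ℕ) : ℝ) := by exact_mod_cast h8.pos
        have h11 : Real.log (((q.1 + q.2) / 2 : ℕ) : ℝ) ≤ Real.log X := by
          apply Real.log_le_log this
          have : (q.1 + q.2) / 2 ≤ X := by omega
          exact_mod_cast this
        linarith
      · have : (0 : ℝ) < (((q.1 + q.2) / 2 : ℕ) : ℝ) := by exact_mod_cast h8.pos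
        have h11 : Real.log (((q.1 + q.2) / 2 : ℕ) : ℝ) ≤ Real.log X := by
          apply Real.log_le_log this
          have : (q.1 + q.2) / 2 ≤ X := by omega
          exact_mod_cast this
        linarith
      · exfalso
        apply h9
        unfold midPairs
        refine mem_filter.2 ⟨hq, h10, (q.1 + q.2) / 2, h8, ?_⟩
        have h11 := hodd _ hq1.1
        have h12 := hodd _ hq1.2
        omega
      all_goals linarith
    refine (sum_le_sum h4).trans ?_
    rw [sum_add_distrib]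
    refine add_le_add ?_ ?_
    · rw [← sum_filter, sum_const, nsmul_eq_mul]
      have h5 : (A₁ ×ˢ A₁).filter (fun q => q ∈ midPairs A₁) = midPairs A₁ := by
        ext q
        rw [mem_filter]
        constructor
        · exact fun h => h.2
        · intro h
          refine ⟨?_, h⟩
          unfold midPairs at h
          exact (mem_filter.1 h).1
      rw [h5]
    · rw [← sum_filter, sum_const, nsmul_eq_mul]
      have h5 : ((A₁ ×ˢ A₁).filter (fun q => q.1 = q.2)).card ≤ A₁.card := by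
        refine card_le_card_of_injOn (fun q => q.1) ?_ ?_
        · intro q hq
          exact mem_coe.2 (mem_product.1 (mem_filter.1 (mem_coe.1 hq)).1).1
        · intro q hq q' hq' h
          have e1 := (mem_filter.1 (mem_coe.1 hq)).2
          have e2 := (mem_filter.1 (mem_coe.1 hq')).2
          dsimp only at h
          exact Prod.ext h (by rw [← e1, ← e2, h])
      have h6 : (((A₁ ×ˢ A₁).filter (fun q => q.1 = q.2)).card : ℝ) ≤ A₁.card := by
        exact_mod_cast h5
      rcases A₁.eq_empty_or_nonempty with h7 | ⟨a, ha⟩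
      · rw [h7]; simp
      · have hX : (1 : ℝ) ≤ X := by
          have : 1 ≤ X := by
            have := hA a ha
            have := this.1.two_le
            omega
          exact_mod_cast this
        exact mul_le_mul_of_nonneg_right h6 (Real.log_nonneg hX)
  rw [h1] at hR
  have h4 := (abs_le.1 hR).1
  linarith

theorem pairs_mid (K ε c₀ : ℝ) (hK : 0 ≤ K) (hε : 0 < ε) (hc₀ : 0 < c₀) : ∃ X₀ : ℕ, ∀ X : ℕ,
    X₀ ≤ X → ∀ A : Finset ℕ, (∀ a ∈ A, a.Prime ∧ a ≤ X) →
      c₀ * X / (Real.log X) ^ (K + 1) ≤ (A.card : ℝ) →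
        (A.card : ℝ) ^ 2 / Real.log X *
          Real.exp (-(K * Real.log 2 + ε) * Real.log (Real.log X) /
            Real.log (Real.log (Real.log X))) ≤ ((midPairs A).card : ℝ) := by
  classical
  set k4 : ℕ := ⌈K⌉₊ + 4 with hk4
  obtain ⟨B₀, hB₀⟩ := fourier_mid k4
  set B : ℕ := max B₀ 1 with hB
  have hB1 : 1 ≤ B := le_max_right _ _
  obtain ⟨C, hC, hF⟩ := hB₀ B (le_max_left _ _)
  obtain ⟨X₁, h1⟩ := compat_count false B hB1 K (ε / 2) (c₀ / 2) hK (by positivity) (by positivity)
  obtain ⟨X₂, hX₂⟩ := Filter.eventually_atTop.1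
    (((PM8_ev1 (K * Real.log 2 + ε / 2)).and (PM8_ev2 (ε / 2) 32 (by positivity) (by norm_num))).and
      (((PM8_pow (K + 1) (c₀ / 2) (by positivity) B).and
        (PM8_pow (K + 2) (c₀ / 64) (by positivity) 1)).and
        ((LG3_log_ev (max 2 (64 * C / c₀))).and (eventually_log_pow 0 (1 / 3) (by norm_num)))))
  refine ⟨max (max X₁ X₂) 3, fun X hX A hA hAc => ?_⟩
  have hXa : X₁ ≤ X := ((le_max_left _ _).trans (le_max_left _ _)).trans hX
  have hXb : X₂ ≤ X := ((le_max_right _ _).trans (le_max_left _ _)).trans hX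
  have hX3 : 3 ≤ X := (le_max_right _ _).trans hX
  obtain ⟨⟨e1, e2⟩, ⟨e3, e4⟩, e5, _⟩ := hX₂ X hXb
  have hXr : (3 : ℝ) ≤ X := by exact_mod_cast hX3
  have hX0 : (0 : ℝ) < X := by linarith
  have hL2 : 2 ≤ Real.log X := (le_max_left _ _).trans e5
  have hLC : 64 * C / c₀ ≤ Real.log X := (le_max_right _ _).trans e5
  have hF' := hF X hX3
  have h1' := h1 X hXa
  set L : ℝ := Real.log X with hLdef
  have hL0 : 0 < L := by linarith
  set z : ℕ := zB B X with hz
  set a : ℝ := (A.card : ℝ) with ha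
  have ha0 : 0 < a := lt_of_lt_of_le (by positivity) hAc
  -- `z` is small and at least 2
  have hz2 : 2 ≤ z := by
    rw [hz]
    unfold zB
    refine Nat.le_floor ?_
    calc ((2 : ℕ) : ℝ) = 2 ^ 1 := by norm_num
      _ ≤ (Real.log X) ^ 1 := pow_le_pow_left₀ (by norm_num) hL2 1
      _ ≤ (Real.log X) ^ B := pow_le_pow_right₀ (by linarith) hB1
  have hza : (z : ℝ) ≤ a / 2 := by
    refine (PM8_zB_le B X hX3).trans (e3.trans ?_)
    calc c₀ / 2 * X / L ^ (K + 1) = (c₀ * X / L ^ (K + 1)) / 2 := by ring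
      _ ≤ a / 2 := by linarith
  set A₁ := A.filter (fun b => z < b) with hA₁
  have hA1 : a / 2 ≤ (A₁.card : ℝ) := PM8_half A z (fun b hb => (hA b hb).1.one_le) hza
  have hA1' : (A₁.card : ℝ) ≤ a := by
    have : A₁.card ≤ A.card := card_le_card (filter_subset _ _)
    rw [ha]
    exact_mod_cast this
  have hA₁p : ∀ b ∈ A₁, b.Prime ∧ z < b ∧ b ≤ X := by
    intro b hb
    obtain ⟨hb1, hb2⟩ := mem_filter.1 hb
    exact ⟨(hA b hb1).1, hb2, (hA b hb1).2⟩
  have hA₁s : A₁ ⊆ Icc 1 X := fun b hb => mem_Icc.2 ⟨(hA₁p b hb).1.one_le, (hA₁p b hb).2.2⟩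
  have hN := h1' A₁ hA₁p (by
    calc c₀ / 2 * X / L ^ (K + 1) = (c₀ * X / L ^ (K + 1)) / 2 := by ring
      _ ≤ a / 2 := by linarith
      _ ≤ _ := hA1)
  have hlow := PM8_mid_lower X z A₁ hz2 hA₁p _ (hF' A₁ hA₁s)
  have hsub : ((midPairs A₁).card : ℝ) ≤ ((midPairs A).card : ℝ) := by
    have : midPairs A₁ ⊆ midPairs A := by
      intro q hq
      unfold midPairs at hq ⊢
      obtain ⟨hq1, hq2⟩ := mem_filter.1 hq
      have hq3 := mem_product.1 hq1
      exact mem_filter.2 ⟨mem_product.2 ⟨(mem_filter.1 hq3.1).1, (mem_filter.1 hq3.2).1⟩, hq2⟩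
    exact_mod_cast card_le_card this
  set E₁ : ℝ := Real.exp (-(K * Real.log 2 + ε / 2) * Real.log L / Real.log (Real.log L)) with hE₁
  have hMM : MM false = 2 := rfl
  rw [hMM] at hN
  have hE₁0 : 0 ≤ E₁ := (Real.exp_pos _).le
  have hR : C * X / L ^ k4 + L ≤ a * E₁ / 32 := by
    -- `a E₁ ≥ c₀ X / L^(K+2)`
    have f1 : c₀ * X / L ^ (K + 2) ≤ a * E₁ := by
      calc c₀ * X / L ^ (K + 2) = (c₀ * X / L ^ (K + 1)) * (1 / L) := by
            rw [show K + 2 = (K + 1) + 1 by ring, Real.rpow_add hL0 (K + 1) 1, Real.rpow_one]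
            field_simp
        _ ≤ a * E₁ := mul_le_mul hAc e1 (by positivity) ha0.le
    have f2 : L ≤ c₀ / 64 * X / L ^ (K + 2) := by
      have := e4
      rwa [pow_one] at this
    have f3 : C * X / L ^ k4 ≤ c₀ / 64 * X / L ^ (K + 2) := by
      have g1 : L ^ (K + 2) * L ≤ L ^ k4 := by
        rw [← Real.rpow_natCast L k4]
        calc L ^ (K + 2) * L = L ^ (K + 3) := by
              rw [show K + 3 = (K + 2) + 1 by ring, Real.rpow_add hL0 (K + 2) 1, Real.rpow_one]
          _ ≤ L ^ ((k4 : ℕ) : ℝ) := by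
              refine Real.rpow_le_rpow_of_exponent_le (by linarith) ?_
              rw [hk4]
              push_cast
              have := Nat.le_ceil K
              linarith
      have g2 : 0 < L ^ (K + 2) := Real.rpow_pos_of_pos hL0 _
      rw [div_le_div_iff₀ (by positivity) g2]
      have g3 : C ≤ c₀ / 64 * L := by
        rw [div_le_iff₀ hc₀] at hLC
        linarith
      calc C * X * L ^ (K + 2) ≤ (c₀ / 64 * L) * X * L ^ (K + 2) := by gcongr
        _ = c₀ / 64 * X * (L ^ (K + 2) * L) := by ring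
        _ ≤ c₀ / 64 * X * L ^ k4 := by gcongr
    have f4 : c₀ / 64 * X / L ^ (K + 2) = (c₀ * X / L ^ (K + 2)) / 64 := by ring
    rw [f4] at f2 f3
    linarith
  refine PM8_final hA1 hA1' ha0 (by linarith) hE₁0 ?_ (N := ((goodPairs false z A₁).card : ℝ))
    (R := C * X / L ^ k4 + L) ?_ ?_ hR
  · -- `E ≤ E₁ / 32`
    have g1 : Real.exp (-(K * Real.log 2 + ε) * Real.log L / Real.log (Real.log L)) =
        E₁ * Real.exp (-(ε / 2) * Real.log L / Real.log (Real.log L)) := by
      rw [hE₁, ← Real.exp_add]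
      congr 1
      ring
    rw [g1]
    calc E₁ * Real.exp (-(ε / 2) * Real.log L / Real.log (Real.log L)) ≤ E₁ * (1 / 32) :=
          mul_le_mul_of_nonneg_left e2 hE₁0
      _ = E₁ / 32 := by ring
  · have : (0 : ℝ) ≤ ((goodPairs false z A₁).card : ℝ) := Nat.cast_nonneg _
    linarith
  · have g1 : 0 ≤ ((midPairs A).card : ℝ) * L := by positivity
    have g2 : ((midPairs A₁).card : ℝ) * L ≤ ((midPairs A).card : ℝ) * L :=
      mul_le_mul_of_nonneg_right hsub hL0.le
    linarith

/-! ### the third term -/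

theorem PM8_good_symm {z : ℕ} {A : Finset ℕ} {a b : ℕ} (h : (a, b) ∈ goodPairs true z A) :
    (b, a) ∈ goodPairs true z A := by
  classical
  unfold goodPairs at h ⊢
  obtain ⟨h1, h2, h3⟩ := mem_filter.1 h
  have h4 := mem_product.1 h1
  refine mem_filter.2 ⟨mem_product.2 ⟨h4.2, h4.1⟩, fun e => h2 e.symm, fun p hp hpz => ?_⟩
  rcases h3 p hp hpz with h5 | h5
  · exact Or.inl h5
  · exact Or.inr ⟨h5.2, h5.1⟩

theorem PM8_third_lower (X z : ℕ) (A₁ : Finset ℕ) (hz : 2 ≤ z)
    (hA : ∀ a ∈ A₁, a.Prime ∧ z < a ∧ a ≤ X)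
    (R : ℝ) (hR : |∑ b ∈ A₁, ∑ a ∈ A₁, (if a < 2 * b then
        lam (2 * b - a) - rz z (2 * b - a) / Vz z else 0)| ≤ R * A₁.card) :
    ((goodPairs true z A₁).card : ℝ) / 2 - (R + Real.log (2 * X)) * A₁.card ≤
      ((thirdPairs A₁).card : ℝ) * Real.log (2 * X) := by
  classical
  have hodd : ∀ a ∈ A₁, a % 2 = 1 := fun a ha =>
    (hA a ha).1.eq_two_or_odd.resolve_left (by have := (hA a ha).2.1; omega)
  -- the set of pairs `(a, b)` with `a < 2 b`
  set U := (A₁ ×ˢ A₁).filter (fun q => q.1 < 2 * q.2) with hU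
  have h1 : ∑ b ∈ A₁, ∑ a ∈ A₁, (if a < 2 * b then
        lam (2 * b - a) - rz z (2 * b - a) / Vz z else 0) =
      ∑ q ∈ U, lam (2 * q.2 - q.1) - ∑ q ∈ U, rz z (2 * q.2 - q.1) / Vz z := by
    rw [← sum_sub_distrib, hU, sum_filter, sum_comm, sum_product]
  -- good pairs
  set G := (goodPairs true z A₁).filter (fun q => q.1 < 2 * q.2) with hG
  have hG2 : ((goodPairs true z A₁).card : ℝ) / 2 ≤ (G.card : ℝ) := by
    have h2 : (goodPairs true z A₁).card ≤ G.card + G.card := by
      have h3 : goodPairs true z A₁ ⊆ G ∪ G.image Prod.swap := by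
        rintro ⟨a, b⟩ hq
        rw [mem_union]
        by_cases h4 : a < 2 * b
        · left
          exact mem_filter.2 ⟨hq, h4⟩
        · right
          refine mem_image.2 ⟨(b, a), mem_filter.2 ⟨PM8_good_symm hq, ?_⟩, rfl⟩
          have h5 : (a, b) ∈ A₁ ×ˢ A₁ := by
            unfold goodPairs at hq
            exact (mem_filter.1 hq).1
          have h6 := (hA b (mem_product.1 h5).2).1.pos
          show b < 2 * a
          omega
      refine (card_le_card h3).trans ((card_union_le _ _).trans ?_)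
      exact Nat.add_le_add_left card_image_le _
    have h3 : ((goodPairs true z A₁).card : ℝ) ≤ G.card + G.card := by exact_mod_cast h2
    linarith
  have h2 : (G.card : ℝ) ≤ ∑ q ∈ U, rz z (2 * q.2 - q.1) / Vz z := by
    calc (G.card : ℝ) = ∑ q ∈ G, (1 : ℝ) := by
          rw [sum_const, nsmul_eq_mul, mul_one]
      _ ≤ ∑ q ∈ G, rz z (2 * q.2 - q.1) / Vz z := by
          refine sum_le_sum fun q hq => PM8_rz_ge _ _ (PM8_coprime ?_)
          obtain ⟨hq0, hlt⟩ := mem_filter.1 hq
          unfold goodPairs at hq0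
          obtain ⟨hq1, hq2, hq3⟩ := mem_filter.1 hq0
          intro p hp hpz hdvd
          have h5 := hodd _ (mem_product.1 hq1).1
          have h6 := hodd _ (mem_product.1 hq1).2
          rcases hq3 p hp hpz with h7 | h7
          · rw [h7] at hdvd
            omega
          · apply h7.1
            obtain ⟨k, hk⟩ := hdvd
            have h8 : 2 * q.2 = q.1 + p * k := by omega
            rw [h8, Nat.add_mul_mod_self_left]
      _ ≤ _ := by
          refine sum_le_sum_of_subset_of_nonneg ?_ fun q _ _ => PM8_rz_nonneg _ _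
          intro q hq
          obtain ⟨hq0, hlt⟩ := mem_filter.1 hq
          unfold goodPairs at hq0
          exact mem_filter.2 ⟨(mem_filter.1 hq0).1, hlt⟩
  have h3 : ∑ q ∈ U, lam (2 * q.2 - q.1) ≤
      ((thirdPairs A₁).card : ℝ) * Real.log (2 * X) + A₁.card * Real.log (2 * X) := by
    have h4 : ∀ q ∈ U, lam (2 * q.2 - q.1) ≤
        (if q ∈ thirdPairs A₁ then Real.log (2 * X) else 0) +
          (if q.1 = q.2 then Real.log (2 * X) else 0) := by
      intro q hq
      obtain ⟨hq0, hlt⟩ := mem_filter.1 hq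
      have hq1 := mem_product.1 hq0
      have h5 := hA _ hq1.1
      have h6 := hA _ hq1.2
      have h7 := h5.1.two_le
      have hX : (1 : ℝ) ≤ X := by
        have : 1 ≤ X := by omega
        exact_mod_cast this
      have hlogX : 0 ≤ Real.log (2 * X) := Real.log_nonneg (by linarith)
      unfold lam
      by_cases h8 : (2 * q.2 - q.1).Prime
      · rw [if_pos h8]
        have h9 : (0 : ℝ) < ((2 * q.2 - q.1 : ℕ) : ℝ) := by exact_mod_cast h8.pos
        have h11 : Real.log ((2 * q.2 - q.1 : ℕ) : ℝ) ≤ Real.log (2 * X) := by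
          apply Real.log_le_log h9
          have : 2 * q.2 - q.1 ≤ 2 * X := by omega
          calc ((2 * q.2 - q.1 : ℕ) : ℝ) ≤ ((2 * X : ℕ) : ℝ) := by exact_mod_cast this
            _ = 2 * X := by push_cast; ring
        by_cases h10 : q.1 = q.2
        · rw [if_pos h10]
          split_ifs <;> linarith
        · have h12 : q ∈ thirdPairs A₁ := by
            unfold thirdPairs
            refine mem_filter.2 ⟨hq0, h10, 2 * q.2 - q.1, h8, ?_⟩
            omega
          rw [if_pos h12]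
          split_ifs <;> linarith
      · rw [if_neg h8]
        split_ifs <;> linarith
    refine (sum_le_sum h4).trans ?_
    rw [sum_add_distrib]
    refine add_le_add ?_ ?_
    · rw [← sum_filter, sum_const, nsmul_eq_mul]
      have h5 : (U.filter (fun q => q ∈ thirdPairs A₁)).card ≤ (thirdPairs A₁).card :=
        card_le_card (fun q hq => (mem_filter.1 hq).2)
      rcases A₁.eq_empty_or_nonempty with h7 | ⟨a, ha⟩
      · rw [hU, h7]
        have this : (thirdPairs ∅).card = 0 := by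
          unfold thirdPairs
          simp
        simp [this]
      · have hX : (1 : ℝ) ≤ X := by
          have : 1 ≤ X := by
            have := hA a ha
            have := this.1.two_le
            omega
          exact_mod_cast this
        have h6 : ((U.filter (fun q => q ∈ thirdPairs A₁)).card : ℝ) ≤ (thirdPairs A₁).card := by
          exact_mod_cast h5
        exact mul_le_mul_of_nonneg_right h6 (Real.log_nonneg (by linarith))
    · rw [← sum_filter, sum_const, nsmul_eq_mul]
      have h5 : (U.filter (fun q => q.1 = q.2)).card ≤ A₁.card := by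
        refine card_le_card_of_injOn (fun q => q.1) ?_ ?_
        · intro q hq
          exact mem_coe.2 (mem_product.1 (mem_filter.1 (mem_filter.1 (mem_coe.1 hq)).1).1).1
        · intro q hq q' hq' h
          have e1 := (mem_filter.1 (mem_coe.1 hq)).2
          have e2 := (mem_filter.1 (mem_coe.1 hq')).2
          dsimp only at h
          exact Prod.ext h (by rw [← e1, ← e2, h])
      have h6 : ((U.filter (fun q => q.1 = q.2)).card : ℝ) ≤ A₁.card := by
        exact_mod_cast h5
      rcases A₁.eq_empty_or_nonempty with h7 | ⟨a, ha⟩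
      · rw [hU, h7]; simp
      · have hX : (1 : ℝ) ≤ X := by
          have : 1 ≤ X := by
            have := hA a ha
            have := this.1.two_le
            omega
          exact_mod_cast this
        exact mul_le_mul_of_nonneg_right h6 (Real.log_nonneg (by linarith))
  rw [h1] at hR
  have h4 := (abs_le.1 hR).1
  linarith

theorem pairs_third (K ε c₀ : ℝ) (hK : 0 ≤ K) (hε : 0 < ε) (hc₀ : 0 < c₀) : ∃ X₀ : ℕ, ∀ X : ℕ,
    X₀ ≤ X → ∀ A : Finset ℕ, (∀ a ∈ A, a.Prime ∧ a ≤ X) →
      c₀ * X / (Real.log X) ^ (K + 1) ≤ (A.card : ℝ) →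
        (A.card : ℝ) ^ 2 / Real.log X *
          Real.exp (-(K * Real.log 3 + ε) * Real.log (Real.log X) /
            Real.log (Real.log (Real.log X))) ≤ ((thirdPairs A).card : ℝ) := by
  classical
  set k4 : ℕ := ⌈K⌉₊ + 4 with hk4
  obtain ⟨B₀, hB₀⟩ := fourier_third k4
  set B : ℕ := max B₀ 1 with hB
  have hB1 : 1 ≤ B := le_max_right _ _
  obtain ⟨C, hC, hF⟩ := hB₀ B (le_max_left _ _)
  have hlog3 : 0 ≤ Real.log 3 := Real.log_nonneg (by norm_num)
  obtain ⟨X₁, h1⟩ := compat_count true B hB1 K (ε / 4) (c₀ / 8) hK (by positivity) (by positivity)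
  obtain ⟨X₂, hX₂⟩ := Filter.eventually_atTop.1
    (((PM8_ev1 (K * Real.log 3 + ε / 2)).and (PM8_ev2 (ε / 2) 32 (by positivity) (by norm_num))).and
      (((PM8_pow (K + 1) (c₀ / 2 / 2 ^ B) (by positivity) B).and
        (PM8_pow (K + 2) (c₀ / 128) (by positivity) 1)).and
        ((LG3_log_ev (max 2 (64 * C / c₀))).and
          ((LG3_loglog_ev ((K * Real.log 3 + ε / 4) * 4 / ε)).and (LG3_log3_ev 1)))))
  refine ⟨max (max X₁ X₂) 3, fun X hX A hA hAc => ?_⟩
  have hXa : X₁ ≤ X := ((le_max_left _ _).trans (le_max_left _ _)).trans hX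
  have hXb : X₂ ≤ X := ((le_max_right _ _).trans (le_max_left _ _)).trans hX
  have hX3 : 3 ≤ X := (le_max_right _ _).trans hX
  obtain ⟨⟨e1, e2⟩, ⟨e3, e4⟩, e5, e6, e7⟩ := hX₂ X hXb
  have hXr : (3 : ℝ) ≤ X := by exact_mod_cast hX3
  have hX0 : (0 : ℝ) < X := by linarith
  have hL2 : 2 ≤ Real.log X := (le_max_left _ _).trans e5
  have hLC : 64 * C / c₀ ≤ Real.log X := (le_max_right _ _).trans e5
  have hF' := hF X hX3
  have h1' := h1 (2 * X) (by omega)
  -- the logarithm of `2 X`
  have hcast : ((2 * X : ℕ) : ℝ) = 2 * (X : ℝ) := by push_cast; ring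
  have hLL1 : Real.log X ≤ Real.log (2 * X) := Real.log_le_log hX0 (by linarith)
  have hLL2 : Real.log (2 * X) ≤ 2 * Real.log X := by
    rw [Real.log_mul (by norm_num) hX0.ne']
    have : Real.log 2 ≤ Real.log X := Real.log_le_log (by norm_num) (by linarith)
    linarith
  have hLL3 : Real.log (Real.log (2 * X)) ≤ Real.log (Real.log X) + 1 := by
    have h2 : Real.log (Real.log (2 * X)) ≤ Real.log (2 * Real.log X) :=
      Real.log_le_log (by linarith) hLL2
    have h4 : Real.log (2 * Real.log X) = Real.log 2 + Real.log (Real.log X) :=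
      Real.log_mul (by norm_num) (by linarith)
    have h3 : Real.log 2 ≤ 1 := by
      have := Real.log_two_lt_d9
      linarith
    linarith
  have hLL4 : Real.log (Real.log (Real.log X)) ≤ Real.log (Real.log (Real.log (2 * X))) := by
    have h2 : Real.log (Real.log X) ≤ Real.log (Real.log (2 * X)) :=
      Real.log_le_log (by linarith) hLL1
    have h3 : 0 < Real.log (Real.log X) := Real.log_pos (by linarith)
    exact Real.log_le_log h3 h2
  set z : ℕ := zB B (2 * X) with hz
  have hz2 : 2 ≤ z := by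
    rw [hz]
    unfold zB
    refine Nat.le_floor ?_
    rw [hcast]
    calc ((2 : ℕ) : ℝ) = 2 ^ 1 := by norm_num
      _ ≤ (Real.log (2 * X)) ^ 1 := pow_le_pow_left₀ (by norm_num) (by linarith) 1
      _ ≤ (Real.log (2 * X)) ^ B := pow_le_pow_right₀ (by linarith) hB1
  have hzle := PM8_zB_le B (2 * X) (by omega)
  rw [← hz, hcast] at hzle
  rw [hcast] at h1'
  set L : ℝ := Real.log X with hLdef
  have hL0 : 0 < L := by linarith
  set L' : ℝ := Real.log (2 * X) with hL'def
  have hL'0 : 0 < L' := by linarith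
  set a : ℝ := (A.card : ℝ) with ha
  have ha0 : 0 < a := lt_of_lt_of_le (by positivity) hAc
  have hza : (z : ℝ) ≤ a / 2 := by
    calc (z : ℝ) ≤ L' ^ B := hzle
      _ ≤ (2 * L) ^ B := pow_le_pow_left₀ hL'0.le hLL2 B
      _ = 2 ^ B * L ^ B := by rw [mul_pow]
      _ ≤ 2 ^ B * (c₀ / 2 / 2 ^ B * X / L ^ (K + 1)) := by gcongr
      _ = (c₀ * X / L ^ (K + 1)) / 2 := by field_simp
      _ ≤ a / 2 := by linarith
  set A₁ := A.filter (fun b => z < b) with hA₁
  have hA1 : a / 2 ≤ (A₁.card : ℝ) := PM8_half A z (fun b hb => (hA b hb).1.one_le) hza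
  have hA1' : (A₁.card : ℝ) ≤ a := by
    have : A₁.card ≤ A.card := card_le_card (filter_subset _ _)
    rw [ha]
    exact_mod_cast this
  have hA₁p : ∀ b ∈ A₁, b.Prime ∧ z < b ∧ b ≤ X := by
    intro b hb
    obtain ⟨hb1, hb2⟩ := mem_filter.1 hb
    exact ⟨(hA b hb1).1, hb2, (hA b hb1).2⟩
  have hA₁s : A₁ ⊆ Icc 1 X := fun b hb => mem_Icc.2 ⟨(hA₁p b hb).1.one_le, (hA₁p b hb).2.2⟩
  have hN := h1' A₁ (fun b hb => ⟨(hA₁p b hb).1, (hA₁p b hb).2.1, by
    have := (hA₁p b hb).2.2
    omega⟩) (by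
    calc c₀ / 8 * (2 * X) / L' ^ (K + 1) ≤ c₀ / 8 * (2 * X) / L ^ (K + 1) := by gcongr
      _ = (c₀ * X / L ^ (K + 1)) / 4 := by ring
      _ ≤ a / 2 := by linarith
      _ ≤ _ := hA1)
  have hlow := PM8_third_lower X z A₁ hz2 hA₁p _ (hF' A₁ hA₁s)
  have hsub : ((thirdPairs A₁).card : ℝ) ≤ ((thirdPairs A).card : ℝ) := by
    have : thirdPairs A₁ ⊆ thirdPairs A := by
      intro q hq
      unfold thirdPairs at hq ⊢
      obtain ⟨hq1, hq2⟩ := mem_filter.1 hq
      have hq3 := mem_product.1 hq1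
      exact mem_filter.2 ⟨mem_product.2 ⟨(mem_filter.1 hq3.1).1, (mem_filter.1 hq3.2).1⟩, hq2⟩
    exact_mod_cast card_le_card this
  set E₁ : ℝ := Real.exp (-(K * Real.log 3 + ε / 2) * Real.log L / Real.log (Real.log L)) with hE₁
  have hMM : MM true = 3 := rfl
  rw [hMM] at hN
  have hE₁0 : 0 ≤ E₁ := (Real.exp_pos _).le
  -- comparison of the exponentials
  have hcmp : E₁ ≤ Real.exp (-(K * Real.log 3 + ε / 4) * Real.log L' / Real.log (Real.log L')) := by
    rw [hE₁, Real.exp_le_exp]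
    have g0 : 0 < Real.log (Real.log L) := by linarith
    have g0' : 0 < Real.log (Real.log L') := by linarith
    have g1 : (K * Real.log 3 + ε / 4) * Real.log L' ≤ (K * Real.log 3 + ε / 2) * Real.log L := by
      have g2 : (K * Real.log 3 + ε / 4) * 4 ≤ Real.log L * ε := by
        rwa [div_le_iff₀ hε] at e6
      have g3 : 0 ≤ K * Real.log 3 + ε / 4 := by positivity
      have g4 : (K * Real.log 3 + ε / 4) * Real.log L' ≤
          (K * Real.log 3 + ε / 4) * (Real.log L + 1) := mul_le_mul_of_nonneg_left hLL3 g3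
      linarith
    have g5 : 0 ≤ Real.log L := Real.log_nonneg (by linarith)
    have g6 : (K * Real.log 3 + ε / 4) * Real.log L' / Real.log (Real.log L') ≤
        (K * Real.log 3 + ε / 2) * Real.log L / Real.log (Real.log L) :=
      div_le_div₀ (by positivity) g1 g0 hLL4
    have g7 : -(K * Real.log 3 + ε / 2) * Real.log L / Real.log (Real.log L) =
        -((K * Real.log 3 + ε / 2) * Real.log L / Real.log (Real.log L)) := by ring
    have g8 : -(K * Real.log 3 + ε / 4) * Real.log L' / Real.log (Real.log L') =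
        -((K * Real.log 3 + ε / 4) * Real.log L' / Real.log (Real.log L')) := by ring
    rw [g7, g8]
    linarith
  have hN2 : (A₁.card : ℝ) ^ 2 * E₁ ≤ ((goodPairs true z A₁).card : ℝ) :=
    (mul_le_mul_of_nonneg_left hcmp (by positivity)).trans hN
  have hR : C * X / L ^ k4 + L' ≤ a * E₁ / 32 := by
    have f1 : c₀ * X / L ^ (K + 2) ≤ a * E₁ := by
      calc c₀ * X / L ^ (K + 2) = (c₀ * X / L ^ (K + 1)) * (1 / L) := by
            rw [show K + 2 = (K + 1) + 1 by ring, Real.rpow_add hL0 (K + 1) 1, Real.rpow_one]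
            field_simp
        _ ≤ a * E₁ := mul_le_mul hAc e1 (by positivity) ha0.le
    have f2 : L ≤ c₀ / 128 * X / L ^ (K + 2) := by
      have := e4
      rwa [pow_one] at this
    have f3 : C * X / L ^ k4 ≤ c₀ / 64 * X / L ^ (K + 2) := by
      have g1 : L ^ (K + 2) * L ≤ L ^ k4 := by
        rw [← Real.rpow_natCast L k4]
        calc L ^ (K + 2) * L = L ^ (K + 3) := by
              rw [show K + 3 = (K + 2) + 1 by ring, Real.rpow_add hL0 (K + 2) 1, Real.rpow_one]
          _ ≤ L ^ ((k4 : ℕ) : ℝ) := by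
              refine Real.rpow_le_rpow_of_exponent_le (by linarith) ?_
              rw [hk4]
              push_cast
              have := Nat.le_ceil K
              linarith
      have g2 : 0 < L ^ (K + 2) := Real.rpow_pos_of_pos hL0 _
      rw [div_le_div_iff₀ (by positivity) g2]
      have g3 : C ≤ c₀ / 64 * L := by
        rw [div_le_iff₀ hc₀] at hLC
        linarith
      calc C * X * L ^ (K + 2) ≤ (c₀ / 64 * L) * X * L ^ (K + 2) := by gcongr
        _ = c₀ / 64 * X * (L ^ (K + 2) * L) := by ring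
        _ ≤ c₀ / 64 * X * L ^ k4 := by gcongr
    have f4 : c₀ / 64 * X / L ^ (K + 2) = (c₀ * X / L ^ (K + 2)) / 64 := by ring
    have f5 : c₀ / 128 * X / L ^ (K + 2) = (c₀ * X / L ^ (K + 2)) / 128 := by ring
    rw [f5] at f2
    rw [f4] at f3
    linarith
  refine PM8_final hA1 hA1' ha0 (by linarith) hE₁0 ?_
    (N := ((goodPairs true z A₁).card : ℝ) / 2) (R := C * X / L ^ k4 + L') ?_ ?_ hR
  · -- `E ≤ E₁ / 32`
    have g1 : Real.exp (-(K * Real.log 3 + ε) * Real.log L / Real.log (Real.log L)) =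
        E₁ * Real.exp (-(ε / 2) * Real.log L / Real.log (Real.log L)) := by
      rw [hE₁, ← Real.exp_add]
      congr 1
      ring
    rw [g1]
    calc E₁ * Real.exp (-(ε / 2) * Real.log L / Real.log (Real.log L)) ≤ E₁ * (1 / 32) :=
          mul_le_mul_of_nonneg_left e2 hE₁0
      _ = E₁ / 32 := by ring
  · linarith
  · have g1 : 0 ≤ ((thirdPairs A).card : ℝ) := by positivity
    have g2 : ((thirdPairs A₁).card : ℝ) * L' ≤ ((thirdPairs A).card : ℝ) * (2 * L) :=
      mul_le_mul hsub hLL2 hL'0.le g1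
    linarith

end Pool.Agent.Lib.SW
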