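import Pool.Agent.Lib.SW.PM.PM7
import Pool.Agent.Lib.SW.PM.PM8
import Pool.Agent.Lib.SW.LG3
import Pool.Agent.Lib.SW.TS.TS11

/-!
# PM-10: the constant `K log 2` is best possible for the number of pairs

PROOF.  `y = ⌊(1 - δ) K log log X⌋₊` (`δ` small), `W = ∏_{3 ≤ p ≤ y} p`, `A` = primes `≤ X` which are `≡ 1` or `-1` modulo every odd prime `p ≤ y`.
`A` is the union of `H ≥ 2^(π(y) - 1)` reduced classes modulo `W` (CRT), `W ≤ exp (θ(y)) ≤ (log X)^((1+δ)(1-δ) K)`, and by `theta_ap` (all savings) each of them has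
between `X/(2 φ(W) log X)` and `U = 4 X/(φ(W) log X)` primes `≤ X`. So `#A ≥ H U/8`, `#A ≥ π(X)/(log X)^K` (`π(X) ≤ 5 X/log X`).
Upper bound for `#midPairs A`: if `(a+b)/2 = m` is prime and `m > √X`, then for each odd `p ≤ y` not `a ≡ -b` (else `p ∣ m`), so `a ≡ b mod W`
(both `≡ ±1`).  For each of the `H` classes `A_c`: `∑_{a,b ∈ A_c} lam ((a+b)/2) ≤ #A_c²/Vz z + C X #A_c/(log X)^A'` (`fourier_mid`), `1/Vz z ≤ C L2`
(`Vz_inv_le`), and pairs with `m ≤ X^(1/2)` number at most `4X`; so `#midPairs A ≤ (2/log X) (V U #A + C X #A/(log X)^A') + 4X ≤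
(C' L2/log X) #A²/H + ...` and `H ≥ 2^(π(y)-1)`, `π(y) ≥ (1-4δ) K L2/L3`.
-/

set_option autoImplicit false

open Finset Pool.Agent.Lib.GT

namespace Pool.Agent.Lib.SW

/-- classes which are `1` or `-1` modulo every prime of `P` -/
def pm10_C (P : Finset ℕ) : Finset ℕ :=
  (range (∏ p ∈ P, p)).filter (fun c => ∀ p ∈ P, c % p = 1 ∨ c % p = p - 1)

theorem pm10_classes (P : Finset ℕ) (hP : ∀ p ∈ P, p.Prime ∧ 2 < p) :
    2 ^ P.card ≤ (pm10_C P).card := by
  classical
  rw [← Finset.card_powerset]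
  have hs : ∀ p ∈ P, (id p : ℕ) ≠ 0 := fun p hp => (hP p hp).1.ne_zero
  have pp : Set.Pairwise (P : Set ℕ) (Function.onFun Nat.Coprime id) := by
    intro p hp q hq hpq
    exact (Nat.coprime_primes (hP p hp).1 (hP q hq).1).2 hpq
  have key : ∀ s : Finset ℕ, ∀ p ∈ P,
      ((Nat.chineseRemainderOfFinset (fun p => if p ∈ s then p - 1 else 1) id P hs pp : ℕ)) % p =
        if p ∈ s then p - 1 else 1 := by
    intro s p hp
    have h1 := (Nat.chineseRemainderOfFinset (fun p => if p ∈ s then p - 1 else 1) id P hs pp).2 p hp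
    have h2 := (hP p hp).2
    have h3 : (if p ∈ s then p - 1 else 1) % p = if p ∈ s then p - 1 else 1 := by
      apply Nat.mod_eq_of_lt
      split_ifs <;> omega
    rw [← h3]
    exact h1
  refine Finset.card_le_card_of_injOn
    (fun s => (Nat.chineseRemainderOfFinset (fun p => if p ∈ s then p - 1 else 1) id P hs pp : ℕ))
    ?_ ?_
  · intro s _
    refine Finset.mem_coe.2 (mem_filter.2 ⟨mem_range.2 ?_, fun p hp => ?_⟩)
    · exact Nat.chineseRemainderOfFinset_lt_prod (fun p => if p ∈ s then p - 1 else 1) id hs pp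
    · rw [key s p hp]
      split_ifs
      · exact Or.inr rfl
      · exact Or.inl rfl
  · intro s hs' t ht' hst
    have hsP := Finset.mem_powerset.1 (Finset.mem_coe.1 hs')
    have htP := Finset.mem_powerset.1 (Finset.mem_coe.1 ht')
    have hst' : (Nat.chineseRemainderOfFinset (fun p => if p ∈ s then p - 1 else 1) id P hs pp : ℕ) =
      (Nat.chineseRemainderOfFinset (fun p => if p ∈ t then p - 1 else 1) id P hs pp : ℕ) := hst
    ext p
    by_cases hp : p ∈ P
    · have h1 := key s p hp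
      have h2 := key t p hp
      rw [hst', h2] at h1
      have h3 := (hP p hp).2
      by_cases a1 : p ∈ s
      · by_cases a2 : p ∈ t
        · exact ⟨fun _ => a2, fun _ => a1⟩
        · rw [if_pos a1, if_neg a2] at h1
          omega
      · by_cases a2 : p ∈ t
        · rw [if_neg a1, if_pos a2] at h1
          omega
        · exact ⟨fun h => absurd h a1, fun h => absurd h a2⟩
    · exact ⟨fun h => absurd (hsP h) hp, fun h => absurd (htP h) hp⟩

/-- the primes `≤ X` in the classes -/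
def pm10_A (P : Finset ℕ) (X : ℕ) : Finset ℕ :=
  (Icc 1 X).filter (fun n => n.Prime ∧ ∀ p ∈ P, n % p = 1 ∨ n % p = p - 1)

/-- the primes `≤ X` in one class -/
def pm10_K (W c X : ℕ) : Finset ℕ := (Icc 1 X).filter (fun n => n.Prime ∧ n ≡ c [MOD W])

theorem pm10_fib (P : Finset ℕ) (hP : ∀ p ∈ P, p.Prime ∧ 2 < p) (X : ℕ) :
    ∀ n ∈ pm10_A P X, n % (∏ p ∈ P, p) ∈ pm10_C P := by
  intro n hn
  obtain ⟨hn1, hn2, hn3⟩ := mem_filter.1 hn
  have hW : 0 < ∏ p ∈ P, p := Finset.prod_pos fun p hp => (hP p hp).1.pos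
  refine mem_filter.2 ⟨mem_range.2 (Nat.mod_lt _ hW), fun p hp => ?_⟩
  rw [Nat.mod_mod_of_dvd _ (Finset.dvd_prod_of_mem (fun p => p) hp)]
  exact hn3 p hp

theorem pm10_fib2 (P : Finset ℕ) (X c : ℕ) (hc : c ∈ pm10_C P) :
    (pm10_A P X).filter (fun n => n % (∏ p ∈ P, p) = c) = pm10_K (∏ p ∈ P, p) c X := by
  obtain ⟨hc1, hc2⟩ := mem_filter.1 hc
  have hcW := mem_range.1 hc1
  ext n
  rw [mem_filter, pm10_A, mem_filter, pm10_K, mem_filter]
  constructor
  · rintro ⟨⟨h1, h2, _⟩, h4⟩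
    refine ⟨h1, h2, ?_⟩
    unfold Nat.ModEq
    rw [h4, Nat.mod_eq_of_lt hcW]
  · rintro ⟨h1, h2, h3⟩
    have h4 : n % (∏ p ∈ P, p) = c := by
      have := h3
      unfold Nat.ModEq at this
      rwa [Nat.mod_eq_of_lt hcW] at this
    refine ⟨⟨h1, h2, fun p hp => ?_⟩, h4⟩
    have h5 : n % p = c % p := by
      rw [← h4, Nat.mod_mod_of_dvd _ (Finset.dvd_prod_of_mem (fun p => p) hp)]
    rw [h5]
    exact hc2 p hp

theorem pm10_card (P : Finset ℕ) (hP : ∀ p ∈ P, p.Prime ∧ 2 < p) (X : ℕ) :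
    (pm10_A P X).card = ∑ c ∈ pm10_C P, (pm10_K (∏ p ∈ P, p) c X).card := by
  rw [card_eq_sum_card_fiberwise (f := fun n => n % (∏ p ∈ P, p)) (t := pm10_C P)
    (fun n hn => Finset.mem_coe.2 (pm10_fib P hP X n (Finset.mem_coe.1 hn)))]
  exact Finset.sum_congr rfl fun c hc => by rw [pm10_fib2 P X c hc]

theorem pm10_cop (P : Finset ℕ) (hP : ∀ p ∈ P, p.Prime ∧ 2 < p) (c : ℕ) (hc : c ∈ pm10_C P) :
    Nat.Coprime c (∏ p ∈ P, p) := by
  rw [Nat.coprime_prod_right_iff]
  intro p hp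
  obtain ⟨hp1, hp2⟩ := hP p hp
  rw [Nat.coprime_comm, Nat.Prime.coprime_iff_not_dvd hp1]
  intro h
  have h1 := (mem_filter.1 hc).2 p hp
  have h2 := Nat.mod_eq_zero_of_dvd h
  omega

theorem pm10_up (W c X : ℕ) (E : ℝ) (hX : 2 ≤ X)
    (h : |∑ n ∈ (Icc 1 X).filter (fun n => n.Prime ∧ n ≡ c [MOD W]), Real.log n -
      (X : ℝ) / W.totient| ≤ E) :
    ((pm10_K W c X).card : ℝ) ≤ Nat.sqrt X + 2 * ((X : ℝ) / W.totient + E) / Real.log X := by
  have hXr : (2 : ℝ) ≤ X := by exact_mod_cast hX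
  have hlog : 0 < Real.log X := Real.log_pos (by linarith)
  have h1 : (pm10_K W c X).card ≤ Nat.sqrt X + ((pm10_K W c X).filter (fun n => Nat.sqrt X < n)).card := by
    rw [← Finset.card_filter_add_card_filter_not (s := pm10_K W c X) (fun n => Nat.sqrt X < n), add_comm]
    refine Nat.add_le_add_right ?_ _
    calc _ ≤ (Icc 1 (Nat.sqrt X)).card := by
          refine card_le_card fun n hn => ?_
          obtain ⟨h1, h2⟩ := mem_filter.1 hn
          exact mem_Icc.2 ⟨(mem_Icc.1 (mem_filter.1 h1).1).1, by omega⟩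
      _ = Nat.sqrt X := by rw [Nat.card_Icc, Nat.add_sub_cancel]
  have h2 : (((pm10_K W c X).filter (fun n => Nat.sqrt X < n)).card : ℝ) * (Real.log X / 2) ≤
      ∑ n ∈ (Icc 1 X).filter (fun n => n.Prime ∧ n ≡ c [MOD W]), Real.log n := by
    rw [← nsmul_eq_mul, ← sum_const]
    calc _ ≤ ∑ n ∈ (pm10_K W c X).filter (fun n => Nat.sqrt X < n), Real.log n := by
          refine sum_le_sum fun n hn => ?_
          have h3 := (mem_filter.1 hn).2
          have h4 : X < n * n := Nat.sqrt_lt.1 h3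
          have h5 : (X : ℝ) ≤ (n : ℝ) * n := by exact_mod_cast h4.le
          have hn0 : (0 : ℝ) < n := by
            have : 0 < n := by omega
            exact_mod_cast this
          have h6 := Real.log_le_log (by linarith : (0 : ℝ) < X) h5
          rw [Real.log_mul hn0.ne' hn0.ne'] at h6
          linarith
      _ ≤ ∑ n ∈ (Icc 1 X).filter (fun n => n.Prime ∧ n ≡ c [MOD W]), Real.log n := by
          refine sum_le_sum_of_subset_of_nonneg (Finset.filter_subset _ _) fun n _ _ => ?_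
          exact Real.log_natCast_nonneg n
  have h3 := (abs_le.1 h).2
  have h4 : (((pm10_K W c X).filter (fun n => Nat.sqrt X < n)).card : ℝ) ≤
      2 * ((X : ℝ) / W.totient + E) / Real.log X := by
    rw [le_div_iff₀ hlog]
    linarith
  have h5 : ((pm10_K W c X).card : ℝ) ≤
      Nat.sqrt X + (((pm10_K W c X).filter (fun n => Nat.sqrt X < n)).card : ℝ) := by
    exact_mod_cast h1
  linarith

open Classical in
/-- pairs with a large prime midpoint -/
noncomputable def pm10_Q (S : Finset ℕ) (T : ℕ) : Finset (ℕ × ℕ) :=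
  (S ×ˢ S).filter (fun q => ∃ p, p.Prime ∧ q.1 + q.2 = 2 * p ∧ T < p)

theorem pm10_Qcard (X : ℕ) (hX : 2 ≤ X) (S : Finset ℕ) (z : ℕ) (E V : ℝ) (hV : (Vz z)⁻¹ ≤ V)
    (h : |∑ a ∈ S, ∑ b ∈ S, (if (a + b) % 2 = 0 then
        lam ((a + b) / 2) - rz z ((a + b) / 2) / Vz z else 0)| ≤ E) :
    ((pm10_Q S (Nat.sqrt X)).card : ℝ) * (Real.log X / 2) ≤ (S.card : ℝ) ^ 2 * V + E := by
  classical
  have hXr : (2 : ℝ) ≤ X := by exact_mod_cast hX
  have hVz := TS5_Vz_pos z
  have h1 : ((pm10_Q S (Nat.sqrt X)).card : ℝ) * (Real.log X / 2) ≤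
      ∑ a ∈ S, ∑ b ∈ S, (if (a + b) % 2 = 0 then lam ((a + b) / 2) else 0) := by
    rw [← Finset.sum_product', ← nsmul_eq_mul, ← sum_const]
    calc _ ≤ ∑ q ∈ pm10_Q S (Nat.sqrt X),
          (if (q.1 + q.2) % 2 = 0 then lam ((q.1 + q.2) / 2) else 0) := by
          refine sum_le_sum fun q hq => ?_
          obtain ⟨-, p, hp, hsum, hT⟩ := mem_filter.1 hq
          have e1 : (q.1 + q.2) % 2 = 0 := by omega
          have e2 : (q.1 + q.2) / 2 = p := by omega
          rw [if_pos e1, e2]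
          unfold lam
          rw [if_pos hp]
          have h4 : X < p * p := Nat.sqrt_lt.1 hT
          have h5 : (X : ℝ) ≤ (p : ℝ) * p := by exact_mod_cast h4.le
          have hn0 : (0 : ℝ) < p := by exact_mod_cast hp.pos
          have h6 := Real.log_le_log (by linarith : (0 : ℝ) < X) h5
          rw [Real.log_mul hn0.ne' hn0.ne'] at h6
          linarith
      _ ≤ _ := by
          refine sum_le_sum_of_subset_of_nonneg (Finset.filter_subset _ _) fun q _ _ => ?_
          split_ifs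
          · exact lam_nonneg _
          · exact le_refl _
  have h2 : ∑ a ∈ S, ∑ b ∈ S, (if (a + b) % 2 = 0 then lam ((a + b) / 2) else 0) =
      ∑ a ∈ S, ∑ b ∈ S, (if (a + b) % 2 = 0 then
        lam ((a + b) / 2) - rz z ((a + b) / 2) / Vz z else 0) +
      ∑ a ∈ S, ∑ b ∈ S, (if (a + b) % 2 = 0 then rz z ((a + b) / 2) / Vz z else 0) := by
    rw [← sum_add_distrib]
    refine sum_congr rfl fun a _ => ?_
    rw [← sum_add_distrib]
    refine sum_congr rfl fun b _ => ?_
    split_ifs <;> ring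
  have h3 : ∑ a ∈ S, ∑ b ∈ S, (if (a + b) % 2 = 0 then rz z ((a + b) / 2) / Vz z else 0) ≤
      (S.card : ℝ) ^ 2 * V := by
    have hV0 : 0 < (Vz z)⁻¹ := inv_pos.2 hVz
    calc _ ≤ ∑ _a ∈ S, ∑ _b ∈ S, V := by
          refine sum_le_sum fun a _ => sum_le_sum fun b _ => ?_
          unfold rz
          split_ifs
          · rw [one_div]; exact hV
          · rw [zero_div]; linarith
          · linarith
      _ = (S.card : ℝ) ^ 2 * V := by
          rw [sum_const, sum_const, nsmul_eq_mul, nsmul_eq_mul]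
          ring
  have h4 := (abs_le.1 h).2
  linarith

/-- a pair of the construction with large prime midpoint lies in one class -/
theorem pm10_cover (P : Finset ℕ) (hP : ∀ p ∈ P, p.Prime ∧ 2 < p) (X : ℕ)
    (hT : ∀ p ∈ P, p ≤ Nat.sqrt X) :
    ((midPairs (pm10_A P X)).card : ℝ) ≤ 4 * X +
      ∑ c ∈ pm10_C P, ((pm10_Q (pm10_K (∏ p ∈ P, p) c X) (Nat.sqrt X)).card : ℝ) := by
  classical
  have hsub : midPairs (pm10_A P X) ⊆
      (Icc 1 (2 * Nat.sqrt X) ×ˢ Icc 1 (2 * Nat.sqrt X)) ∪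
        (pm10_C P).biUnion (fun c => pm10_Q (pm10_K (∏ p ∈ P, p) c X) (Nat.sqrt X)) := by
    intro q hq
    obtain ⟨hq1, -, m, hm, hsum⟩ := mem_filter.1 hq
    obtain ⟨ha, hb⟩ := mem_product.1 hq1
    obtain ⟨ha1, ha2, ha3⟩ := mem_filter.1 ha
    obtain ⟨hb1, hb2, hb3⟩ := mem_filter.1 hb
    have ha1' := mem_Icc.1 ha1
    have hb1' := mem_Icc.1 hb1
    rw [mem_union]
    by_cases hmT : m ≤ Nat.sqrt X
    · left
      exact mem_product.2 ⟨mem_Icc.2 ⟨ha1'.1, by omega⟩, mem_Icc.2 ⟨hb1'.1, by omega⟩⟩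
    · right
      push Not at hmT
      rw [mem_biUnion]
      have hmod : ∀ p ∈ P, q.1 % p = q.2 % p := by
        intro p hp
        have h2 := (hP p hp).2
        have hpm : ¬ p ∣ m := by
          intro h
          have h3 := (Nat.prime_dvd_prime_iff_eq (hP p hp).1 hm).1 h
          have h4 := hT p hp
          omega
        have hps : ¬ p ∣ q.1 + q.2 := by
          rw [hsum]
          intro h
          rcases (hP p hp).1.dvd_mul.1 h with h | h
          · have := Nat.le_of_dvd (by norm_num) h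
            omega
          · exact hpm h
        have hadd : (q.1 + q.2) % p = (q.1 % p + q.2 % p) % p := Nat.add_mod _ _ _
        rcases ha3 p hp with e1 | e1 <;> rcases hb3 p hp with e2 | e2
        · rw [e1, e2]
        · exfalso
          apply hps
          apply Nat.dvd_of_mod_eq_zero
          rw [hadd, e1, e2, show 1 + (p - 1) = p by omega, Nat.mod_self]
        · exfalso
          apply hps
          apply Nat.dvd_of_mod_eq_zero
          rw [hadd, e1, e2, show p - 1 + 1 = p by omega, Nat.mod_self]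
        · rw [e1, e2]
      have hW : q.1 ≡ q.2 [MOD (∏ p ∈ P, p)] := by
        rw [Nat.modEq_iff_dvd, Nat.cast_prod]
        refine Finset.prod_dvd_of_coprime ?_ fun p hp => ?_
        · intro p hp r hr hpr
          exact Nat.isCoprime_iff_coprime.2
            ((Nat.coprime_primes (hP p hp).1 (hP r hr).1).2 hpr)
        · exact (Nat.modEq_iff_dvd (n := p)).1 (hmod p hp)
      refine ⟨q.1 % (∏ p ∈ P, p), pm10_fib P hP X q.1 ha, ?_⟩
      refine mem_filter.2 ⟨mem_product.2 ⟨?_, ?_⟩, m, hm, hsum, hmT⟩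
      · exact mem_filter.2 ⟨ha1, ha2, (Nat.mod_modEq _ _).symm⟩
      · exact mem_filter.2 ⟨hb1, hb2, hW.symm.trans (Nat.mod_modEq _ _).symm⟩
  have h1 := (card_le_card hsub).trans (card_union_le _ _)
  have h2 : (Icc 1 (2 * Nat.sqrt X) ×ˢ Icc 1 (2 * Nat.sqrt X)).card ≤ 4 * X := by
    rw [card_product, Nat.card_Icc, Nat.add_sub_cancel]
    have := Nat.sqrt_le X
    calc 2 * Nat.sqrt X * (2 * Nat.sqrt X) = 4 * (Nat.sqrt X * Nat.sqrt X) := by ring
      _ ≤ 4 * X := Nat.mul_le_mul_left _ this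
  have h3 : ((pm10_C P).biUnion
      (fun c => pm10_Q (pm10_K (∏ p ∈ P, p) c X) (Nat.sqrt X))).card ≤
      ∑ c ∈ pm10_C P, (pm10_Q (pm10_K (∏ p ∈ P, p) c X) (Nat.sqrt X)).card := card_biUnion_le
  exact_mod_cast h1.trans (add_le_add h2 h3)

theorem pm10_theta {δ : ℝ} (hδ : 0 < δ) : ∃ y₀ : ℕ, ∀ y : ℕ, y₀ ≤ y →
    |∑ n ∈ (Icc 1 y).filter Nat.Prime, Real.log n - y| ≤ δ * y := by
  obtain ⟨C, hC, h⟩ := theta_ap 1 1 one_pos
  obtain ⟨y₁, hy₁⟩ := Filter.eventually_atTop.1 (LG3_log_ev (C / δ))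
  refine ⟨max y₁ 2, fun y hy => ?_⟩
  have hy2 : 2 ≤ y := (le_max_right _ _).trans hy
  have hyr : (2 : ℝ) ≤ y := by exact_mod_cast hy2
  have h1 := h 1 1 le_rfl (Nat.coprime_one_left 1) y hyr
  have h2 := hy₁ y ((le_max_left _ _).trans hy)
  have hl : 0 < Real.log y := Real.log_pos (by linarith)
  have e1 : (Icc 1 ⌊(y : ℝ)⌋₊).filter (fun n => n.Prime ∧ n ≡ 1 [MOD 1]) =
      (Icc 1 y).filter Nat.Prime := by
    rw [Nat.floor_natCast]
    refine Finset.filter_congr fun n _ => ?_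
    exact ⟨fun h => h.1, fun h => ⟨h, Nat.modEq_one⟩⟩
  rw [e1, Nat.totient_one, Nat.cast_one, div_one, Real.rpow_one, mul_one, pow_one] at h1
  refine h1.trans ?_
  rw [div_le_iff₀ hl]
  have h3 : C ≤ Real.log y * δ := (div_le_iff₀ hδ).1 h2
  have h4 := mul_le_mul_of_nonneg_right h3 (by linarith : (0 : ℝ) ≤ y)
  calc C * (y : ℝ) ≤ Real.log y * δ * y := h4
    _ = δ * y * Real.log y := by ring

theorem pm10_prod (y : ℕ) : ((∏ p ∈ (Nat.primesLE y).erase 2, p : ℕ) : ℝ) ≤
    Real.exp (∑ n ∈ (Icc 1 y).filter Nat.Prime, Real.log n) := by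
  have hpos : ∀ p ∈ (Nat.primesLE y).erase 2, (0 : ℝ) < (p : ℝ) := by
    intro p hp
    have := (Nat.mem_primesLE.1 (Finset.mem_of_mem_erase hp)).2.pos
    exact_mod_cast this
  rw [Nat.cast_prod, ← Real.log_le_iff_le_exp (Finset.prod_pos hpos),
    Real.log_prod (fun p hp => (hpos p hp).ne')]
  rw [← Nat.primesLE_eq_filter_Icc_one]
  refine sum_le_sum_of_subset_of_nonneg (Finset.erase_subset _ _) fun n _ _ => ?_
  exact Real.log_natCast_nonneg n

theorem pm10_pi (y : ℕ) : ∑ n ∈ (Icc 1 y).filter Nat.Prime, Real.log n ≤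
    ((((Nat.primesLE y).erase 2).card : ℝ) + 1) * Real.log y := by
  rw [← Nat.primesLE_eq_filter_Icc_one]
  have h1 : ∑ n ∈ Nat.primesLE y, Real.log n ≤ ((Nat.primesLE y).card : ℝ) * Real.log y := by
    rw [← nsmul_eq_mul, ← sum_const]
    refine sum_le_sum fun n hn => ?_
    have h2 := Nat.mem_primesLE.1 hn
    exact Real.log_le_log (by exact_mod_cast h2.2.pos) (by exact_mod_cast h2.1)
  refine h1.trans (mul_le_mul_of_nonneg_right ?_ (Real.log_natCast_nonneg y))
  have h2 := Finset.pred_card_le_card_erase (s := Nat.primesLE y) (a := 2)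
  have h3 : (Nat.primesLE y).card ≤ ((Nat.primesLE y).erase 2).card + 1 := by omega
  exact_mod_cast h3

theorem pm10_pow (m : ℕ) (C : ℝ) : ∀ᶠ X : ℕ in Filter.atTop, C * (Real.log X) ^ m ≤ X := by
  filter_upwards [LG3_log_ev (max 1 (C * ((m + 1).factorial : ℝ))), Filter.eventually_ge_atTop 1]
    with X hX hX1
  have h1 : 1 ≤ Real.log X := (le_max_left _ _).trans hX
  have h2 : C * ((m + 1).factorial : ℝ) ≤ Real.log X := (le_max_right _ _).trans hX
  have hXr : (1 : ℝ) ≤ X := by exact_mod_cast hX1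
  have h3 := LG3_pow (m + 1) hXr
  have hf : (0 : ℝ) < ((m + 1).factorial : ℝ) := by exact_mod_cast Nat.factorial_pos _
  have h4 : (C * (Real.log X) ^ m) * ((m + 1).factorial : ℝ) ≤ X * ((m + 1).factorial : ℝ) := by
    calc (C * (Real.log X) ^ m) * ((m + 1).factorial : ℝ)
        = (C * ((m + 1).factorial : ℝ)) * (Real.log X) ^ m := by ring
      _ ≤ Real.log X * (Real.log X) ^ m := mul_le_mul_of_nonneg_right h2 (by positivity)
      _ = (Real.log X) ^ (m + 1) := by ring
      _ ≤ ((m + 1).factorial : ℝ) * X := h3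
      _ = X * ((m + 1).factorial : ℝ) := mul_comm _ _
  exact le_of_mul_le_mul_right h4 hf

/-- the final real inequality -/
theorem pm10_real {X L a H U V Ef Es : ℝ} (hL : 0 < L) (ha : 0 ≤ a) (hH : 0 < H) (hV : 0 ≤ V)
    (hUH : U * H ≤ 8 * a) (h1 : 16 * (X * L) ≤ a ^ 2 * Es) (h2 : 8 * Ef ≤ a * Es)
    (h3 : 32 * V ≤ H * Es) :
    4 * X + 2 / L * (V * (U * a) + Ef * a) ≤ a ^ 2 / L * Es := by
  have h4 : 4 * V * U ≤ a * Es := by
    have h5 : (4 * V * U) * H ≤ (a * Es) * H := by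
      calc (4 * V * U) * H = 4 * V * (U * H) := by ring
        _ ≤ 4 * V * (8 * a) := mul_le_mul_of_nonneg_left hUH (by positivity)
        _ = (32 * V) * a := by ring
        _ ≤ (H * Es) * a := mul_le_mul_of_nonneg_right h3 ha
        _ = (a * Es) * H := by ring
    exact le_of_mul_le_mul_right h5 hH
  have h5 : (4 * X + 2 / L * (V * (U * a) + Ef * a)) * L ≤ (a ^ 2 / L * Es) * L := by
    have e1 : (4 * X + 2 / L * (V * (U * a) + Ef * a)) * L =
        4 * (X * L) + 2 * (V * U * a) + 2 * (Ef * a) := by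
      field_simp
      ring
    have e2 : (a ^ 2 / L * Es) * L = a ^ 2 * Es := by
      field_simp
    rw [e1, e2]
    have h6 := mul_le_mul_of_nonneg_right h4 ha
    have h7 := mul_le_mul_of_nonneg_right h2 ha
    nlinarith
  exact le_of_mul_le_mul_right h5 hL

theorem mid_pairs_sharp (K ε : ℝ) (hK : 0 < K) (hε : 0 < ε) : ∃ X₀ : ℕ, ∀ X : ℕ, X₀ ≤ X →
    ∃ A : Finset ℕ, (∀ a ∈ A, a.Prime ∧ a ≤ X) ∧
      (Nat.primeCounting X : ℝ) / (Real.log X) ^ K ≤ (A.card : ℝ) ∧
      ((midPairs A).card : ℝ) ≤ (A.card : ℝ) ^ 2 / Real.log X *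
        Real.exp (-(K * Real.log 2 - ε) * Real.log (Real.log X) /
          Real.log (Real.log (Real.log X))) := by
  classical
  -- `δ`
  obtain ⟨δ, hδ⟩ : ∃ δ : ℝ, δ = min (1 / 8) (ε / (8 * K)) := ⟨_, rfl⟩
  have hδ0 : 0 < δ := by rw [hδ]; exact lt_min (by norm_num) (by positivity)
  have hδ8 : δ ≤ 1 / 8 := by rw [hδ]; exact min_le_left _ _
  have hδε : 4 * δ * K ≤ ε / 2 := by
    have h1 : δ ≤ ε / (8 * K) := by rw [hδ]; exact min_le_right _ _
    rw [le_div_iff₀ (by positivity)] at h1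
    linarith
  have hδ1 : 0 < 1 - δ := by linarith
  -- constants
  obtain ⟨k, hk⟩ : ∃ k : ℕ, k = ⌈K⌉₊ + 1 := ⟨_, rfl⟩
  have hKk : K ≤ k := by
    rw [hk]
    push_cast
    have := Nat.le_ceil K
    linarith
  obtain ⟨B₁, hB₁⟩ := fourier_mid (2 * k + 2)
  obtain ⟨B, hB⟩ : ∃ B : ℕ, B = max B₁ 1 := ⟨_, rfl⟩
  have hB1 : 1 ≤ B := by rw [hB]; exact le_max_right _ _
  obtain ⟨Cf, hCf, hF⟩ := hB₁ B (by rw [hB]; exact le_max_left _ _)
  obtain ⟨CV, hCV, hVz⟩ := Vz_inv_le
  obtain ⟨Ct, hCt, hθ⟩ := theta_ap (2 * k + 2) 1 one_pos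
  obtain ⟨y₀, hy₀⟩ := pm10_theta hδ0
  obtain ⟨X₁, hX₁⟩ := Filter.eventually_atTop.1
    ((LG3_log_ev (max 2 (max (2 * Ct) (8 * Cf)))).and
      ((LG3_loglog_ev (max 1 (max (1 / (δ * (1 - δ) * K)) (max (Real.log 8 / (δ ^ 2 * K))
        ((y₀ + 2) / ((1 - δ) * K)))))).and
      ((LG3_log3_ev (max 1 (max ((1 - δ) * Real.log K / δ)
        (max (Real.log 2 + Real.log (32 * (CV * B))) (24 / ε))))).and
      ((pm10_pow (3 * k + 3) 16).and ((pm10_pow (2 * k + 2) 1).and (pm10_pow 2 (K ^ 2)))))))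
  refine ⟨max X₁ 3, fun X hX => ?_⟩
  have hX3 : 3 ≤ X := (le_max_right _ _).trans hX
  have hXr : (3 : ℝ) ≤ X := by exact_mod_cast hX3
  obtain ⟨f1, f2, f3, f4, f5, f6⟩ := hX₁ X ((le_max_left _ _).trans hX)
  set L : ℝ := Real.log X with hLdef
  set L2 : ℝ := Real.log L with hL2def
  set L3 : ℝ := Real.log L2 with hL3def
  have hL2' : 2 ≤ L := (le_max_left _ _).trans f1
  have hLCt : 2 * Ct ≤ L := ((le_max_left _ _).trans (le_max_right _ _)).trans f1
  have hLCf : 8 * Cf ≤ L := ((le_max_right _ _).trans (le_max_right _ _)).trans f1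
  have hL0 : 0 < L := by linarith
  have hLone : 1 ≤ L := by linarith
  have g1 : 1 ≤ L2 := (le_max_left _ _).trans f2
  have f2' := (le_max_right _ _).trans f2
  have g2 : 1 / (δ * (1 - δ) * K) ≤ L2 := (le_max_left _ _).trans f2'
  have f2'' := (le_max_right _ _).trans f2'
  have g3 : Real.log 8 / (δ ^ 2 * K) ≤ L2 := (le_max_left _ _).trans f2''
  have g4 : ((y₀ : ℝ) + 2) / ((1 - δ) * K) ≤ L2 := (le_max_right _ _).trans f2''
  have g5 : 1 ≤ L3 := (le_max_left _ _).trans f3
  have f3' := (le_max_right _ _).trans f3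
  have g6 : (1 - δ) * Real.log K / δ ≤ L3 := (le_max_left _ _).trans f3'
  have f3'' := (le_max_right _ _).trans f3'
  have g7 : Real.log 2 + Real.log (32 * (CV * B)) ≤ L3 := (le_max_left _ _).trans f3''
  have g8 : 24 / ε ≤ L3 := (le_max_right _ _).trans f3''
  rw [div_le_iff₀ (by positivity)] at g2 g3 g4 g6 g8
  have hL20 : 0 < L2 := by linarith
  have hL30 : 0 < L3 := by linarith
  -- `y`
  obtain ⟨y, hy⟩ : ∃ y : ℕ, y = ⌊(1 - δ) * K * L2⌋₊ := ⟨_, rfl⟩
  have hyle : (y : ℝ) ≤ (1 - δ) * K * L2 := by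
    rw [hy]
    exact Nat.floor_le (by positivity)
  have hylt : (1 - δ) * K * L2 < y + 1 := by
    rw [hy]
    exact Nat.lt_floor_add_one _
  have hyy : y₀ ≤ y := by
    have : (y₀ : ℝ) < y := by linarith
    exact (by exact_mod_cast this : y₀ < y).le
  have hy1 : (1 : ℝ) < y := by
    have : (0 : ℝ) ≤ y₀ := Nat.cast_nonneg _
    linarith
  have hylow : (1 - δ) ^ 2 * K * L2 ≤ y := by
    have h1 : (1 - δ) ^ 2 * K * L2 = (1 - δ) * K * L2 - L2 * (δ * (1 - δ) * K) := by ring
    linarith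
  have hthy := abs_le.1 (hy₀ y hyy)
  set θ : ℝ := ∑ n ∈ (Icc 1 y).filter Nat.Prime, Real.log n with hθdef
  obtain ⟨P, hP⟩ : ∃ P : Finset ℕ, P = (Nat.primesLE y).erase 2 := ⟨_, rfl⟩
  have hPp : ∀ p ∈ P, p.Prime ∧ 2 < p := by
    intro p hp
    rw [hP] at hp
    have h1 := Finset.ne_of_mem_erase hp
    have h2 := Nat.mem_primesLE.1 (Finset.mem_of_mem_erase hp)
    exact ⟨h2.2, lt_of_le_of_ne h2.2.two_le (Ne.symm h1)⟩
  -- `W`
  obtain ⟨W, hW⟩ : ∃ W : ℕ, W = ∏ p ∈ P, p := ⟨_, rfl⟩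
  have hW1 : 1 ≤ W := by
    rw [hW]
    exact Finset.prod_pos fun p hp => (hPp p hp).1.pos
  have hWr : (1 : ℝ) ≤ W := by exact_mod_cast hW1
  have hLK : L ^ K = Real.exp (K * L2) := by
    rw [Real.rpow_def_of_pos hL0, hL2def, mul_comm]
  have hW8 : 8 * (W : ℝ) ≤ L ^ K := by
    have h1 : (W : ℝ) ≤ Real.exp θ := by
      rw [hW, hP]
      exact pm10_prod y
    have h2 : θ ≤ K * L2 - Real.log 8 := by
      have h3 : θ ≤ (1 + δ) * y := by linarith [hthy.2]
      have h4 : (1 + δ) * (y : ℝ) ≤ (1 + δ) * ((1 - δ) * K * L2) :=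
        mul_le_mul_of_nonneg_left hyle (by linarith)
      have h5 : (1 + δ) * ((1 - δ) * K * L2) = K * L2 - L2 * (δ ^ 2 * K) := by ring
      linarith
    have h3 : Real.exp θ ≤ L ^ K / 8 := by
      have h4 : L ^ K / 8 = Real.exp (K * L2 - Real.log 8) := by
        rw [Real.exp_sub, Real.exp_log (by norm_num : (0 : ℝ) < 8), hLK]
      rw [h4]
      exact Real.exp_le_exp.2 h2
    linarith
  have hLKk : L ^ K ≤ L ^ k := by
    rw [← Real.rpow_natCast]
    exact Real.rpow_le_rpow_of_exponent_le hLone hKk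
  have hWk : (W : ℝ) ≤ L ^ k := by linarith
  -- `φ`
  obtain ⟨φ, hφ⟩ : ∃ φ : ℝ, φ = (W.totient : ℝ) := ⟨_, rfl⟩
  have hφ0 : 1 ≤ φ := by
    rw [hφ]
    exact_mod_cast Nat.totient_pos.2 hW1
  have hφW : φ ≤ W := by
    rw [hφ]
    exact_mod_cast Nat.totient_le W
  have hφpos : 0 < φ := by linarith
  -- error term of the prime number theorem
  have hE : ∀ q : ℕ, 1 ≤ q → q ≤ W → Ct * (q : ℝ) ^ (1 : ℝ) * X / L ^ (2 * k + 2) ≤
      (X : ℝ) / q.totient / 2 := by
    intro q hq hqW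
    have hqr : (1 : ℝ) ≤ q := by exact_mod_cast hq
    have hqW' : (q : ℝ) ≤ W := by exact_mod_cast hqW
    have htq : (1 : ℝ) ≤ (q.totient : ℝ) := by exact_mod_cast Nat.totient_pos.2 hq
    have htq' : (q.totient : ℝ) ≤ q := by exact_mod_cast Nat.totient_le q
    rw [Real.rpow_one, div_div, div_le_div_iff₀ (by positivity) (by positivity)]
    have h1 : (q : ℝ) * q.totient ≤ L ^ k * L ^ k :=
      mul_le_mul (hqW'.trans hWk) ((htq'.trans hqW').trans hWk) (by linarith) (by positivity)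
    have h2 : 2 * Ct * ((q : ℝ) * q.totient) ≤ L ^ (2 * k + 2) := by
      calc 2 * Ct * ((q : ℝ) * q.totient) ≤ L * (L ^ k * L ^ k) :=
            mul_le_mul hLCt h1 (by positivity) hL0.le
        _ = L ^ (2 * k + 1) := by ring
        _ ≤ L ^ (2 * k + 2) := pow_le_pow_right₀ hLone (by omega)
    calc Ct * (q : ℝ) * X * (q.totient * 2) = (2 * Ct * ((q : ℝ) * q.totient)) * X := by ring
      _ ≤ L ^ (2 * k + 2) * X := mul_le_mul_of_nonneg_right h2 (by linarith)
      _ = X * L ^ (2 * k + 2) := mul_comm _ _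
  have hcls : ∀ q c : ℕ, 1 ≤ q → q ≤ W → Nat.Coprime c q →
      |∑ n ∈ (Icc 1 X).filter (fun n => n.Prime ∧ n ≡ c [MOD q]), Real.log n -
        (X : ℝ) / q.totient| ≤ (X : ℝ) / q.totient / 2 := by
    intro q c hq hqW hc
    have h1 := hθ q c hq hc X (by linarith)
    rw [Nat.floor_natCast] at h1
    exact h1.trans (hE q hq hqW)
  -- sizes of the classes
  have hsq : (Nat.sqrt X : ℝ) * (φ * L) ≤ X := by
    have h1 : (Nat.sqrt X : ℝ) ≤ Real.sqrt X := Real.nat_sqrt_le_real_sqrt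
    have h2 : φ * L ≤ Real.sqrt X := by
      apply Real.le_sqrt_of_sq_le
      calc (φ * L) ^ 2 ≤ (L ^ k * L) ^ 2 :=
            pow_le_pow_left₀ (by positivity)
              (mul_le_mul_of_nonneg_right (hφW.trans hWk) hL0.le) 2
        _ = 1 * L ^ (2 * k + 2) := by ring
        _ ≤ X := f5
    calc (Nat.sqrt X : ℝ) * (φ * L) ≤ Real.sqrt X * Real.sqrt X :=
          mul_le_mul h1 h2 (by positivity) (Real.sqrt_nonneg _)
      _ = X := Real.mul_self_sqrt (by linarith)
  obtain ⟨U, hU⟩ : ∃ U : ℝ, U = 4 * X / (φ * L) := ⟨_, rfl⟩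
  have hU0 : 0 < U := by rw [hU]; positivity
  have hupper : ∀ q c : ℕ, 1 ≤ q → q ≤ W → q.totient ≤ W.totient → Nat.Coprime c q →
      ((pm10_K q c X).card : ℝ) ≤ 4 * X / (q.totient * L) := by
    intro q c hq hqW htt hc
    have h1 := pm10_up q c X _ (by omega) (hcls q c hq hqW hc)
    have htq : (1 : ℝ) ≤ (q.totient : ℝ) := by exact_mod_cast Nat.totient_pos.2 hq
    have h2 : (Nat.sqrt X : ℝ) ≤ X / (q.totient * L) := by
      rw [le_div_iff₀ (by positivity)]
      refine le_trans ?_ hsq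
      apply mul_le_mul_of_nonneg_left _ (Nat.cast_nonneg _)
      apply mul_le_mul_of_nonneg_right _ hL0.le
      rw [hφ]
      exact_mod_cast htt
    have h3 : 2 * ((X : ℝ) / q.totient + (X : ℝ) / q.totient / 2) / L =
        3 * (X / (q.totient * L)) := by
      field_simp
      ring
    rw [h3] at h1
    have h4 : 4 * (X : ℝ) / (q.totient * L) = 4 * (X / (q.totient * L)) := by ring
    rw [h4]
    linarith
  obtain ⟨H, hH⟩ : ∃ H : ℝ, H = ((pm10_C P).card : ℝ) := ⟨_, rfl⟩
  have hH2 : (2 : ℝ) ^ P.card ≤ H := by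
    rw [hH]
    exact_mod_cast pm10_classes P hPp
  have hH1 : 1 ≤ H := le_trans (one_le_pow₀ (by norm_num)) hH2
  obtain ⟨a, ha⟩ : ∃ a : ℝ, a = ((pm10_A P X).card : ℝ) := ⟨_, rfl⟩
  have ha' : a = ∑ c ∈ pm10_C P, ((pm10_K W c X).card : ℝ) := by
    rw [ha, pm10_card P hPp X, hW]
    push_cast
    rfl
  have hUc : ∀ c ∈ pm10_C P, ((pm10_K W c X).card : ℝ) ≤ U := by
    intro c hc
    rw [hU, hφ]
    have h0 := pm10_cop P hPp c hc
    rw [← hW] at h0
    exact hupper W c hW1 le_rfl le_rfl h0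
  have hlow : H * (X / (2 * φ)) ≤ a * L := by
    rw [ha', Finset.sum_mul, hH, ← nsmul_eq_mul, ← sum_const]
    refine sum_le_sum fun c hc => ?_
    have h0 := pm10_cop P hPp c hc
    rw [← hW] at h0
    have h1 := TS11_primes W c X _ (hcls W c hW1 le_rfl h0)
    have h2 : (X : ℝ) / W.totient - (X : ℝ) / W.totient / 2 = X / (2 * φ) := by
      rw [hφ]
      field_simp
      ring
    rw [h2] at h1
    exact h1
  have hUH : U * H ≤ 8 * a := by
    have h1 : U * H * L = 8 * (H * (X / (2 * φ))) := by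
      rw [hU]
      field_simp
      ring
    have h2 : U * H * L ≤ 8 * a * L := by
      rw [h1]
      linarith
    exact le_of_mul_le_mul_right h2 hL0
  have haX : 4 * X / (L * L ^ K) ≤ a := by
    have h1 : 4 * X / (L * L ^ K) * L ≤ a * L := by
      refine le_trans ?_ hlow
      have h2 : 4 * X / (L * L ^ K) * L = 4 * X / L ^ K := by
        field_simp
      rw [h2]
      have h3 : 4 * (X : ℝ) / L ^ K ≤ X / (2 * φ) := by
        rw [div_le_div_iff₀ (by positivity) (by positivity)]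
        have h4 : 8 * φ ≤ L ^ K := by linarith
        have h5 := mul_le_mul_of_nonneg_left h4 (by linarith : (0 : ℝ) ≤ X)
        linarith
      have h4 : 0 ≤ (X : ℝ) / (2 * φ) := by positivity
      exact h3.trans (le_mul_of_one_le_left h4 hH1)
    exact le_of_mul_le_mul_right h1 hL0
  have haX' : X / L ^ (k + 1) ≤ a := by
    refine le_trans ?_ haX
    rw [div_le_div_iff₀ (by positivity) (by positivity)]
    have h1 : L * L ^ K ≤ L ^ (k + 1) := by
      rw [pow_succ, mul_comm]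
      exact mul_le_mul_of_nonneg_right hLKk hL0.le
    have h2 := mul_le_mul_of_nonneg_left h1 (by linarith : (0 : ℝ) ≤ X)
    have h3 : 0 ≤ (X : ℝ) * L ^ (k + 1) := by positivity
    linarith
  have ha0 : 0 < a := lt_of_lt_of_le (by positivity) haX'
  refine ⟨pm10_A P X, fun b hb => ?_, ?_, ?_⟩
  · obtain ⟨h1, h2, -⟩ := mem_filter.1 hb
    exact ⟨h2, (mem_Icc.1 h1).2⟩
  · rw [← ha]
    refine le_trans ?_ haX
    have h1 : (Nat.primeCounting X : ℝ) ≤ 4 * X / L := by
      have h2 := hupper 1 1 le_rfl hW1 (by rw [Nat.totient_one]; exact Nat.totient_pos.2 hW1)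
        (Nat.coprime_one_left 1)
      rw [Nat.totient_one, Nat.cast_one, one_mul] at h2
      refine le_trans ?_ h2
      have h3 : Nat.primeCounting X ≤ (pm10_K 1 1 X).card := by
        rw [← Nat.primesLE_card_eq_primeCounting X, Nat.primesLE_eq_filter_Icc_one]
        refine card_le_card fun n hn => ?_
        obtain ⟨h4, h5⟩ := mem_filter.1 hn
        exact mem_filter.2 ⟨h4, h5, Nat.modEq_one⟩
      exact_mod_cast h3
    have h2 : 4 * X / (L * L ^ K) = 4 * X / L / L ^ K := by rw [div_div]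
    rw [h2]
    exact div_le_div_of_nonneg_right h1 (by positivity)
  · rw [← ha]
    obtain ⟨z, hz⟩ : ∃ z : ℕ, z = zB B X := ⟨_, rfl⟩
    have hzle : (z : ℝ) ≤ L ^ B := by
      rw [hz]
      unfold zB
      exact Nat.floor_le (by positivity)
    have hz2 : 2 ≤ z := by
      rw [hz]
      unfold zB
      apply Nat.le_floor
      have h1 : L ^ 1 ≤ L ^ B := pow_le_pow_right₀ hLone hB1
      rw [pow_one] at h1
      push_cast
      linarith
    have hz2r : (2 : ℝ) ≤ z := by exact_mod_cast hz2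
    have hlz : Real.log z ≤ B * L2 := by
      rw [hL2def, ← Real.log_pow]
      exact Real.log_le_log (by linarith) hzle
    obtain ⟨V, hV⟩ : ∃ V : ℝ, V = CV * (B * L2) := ⟨_, rfl⟩
    have hB0 : (0 : ℝ) < B := by exact_mod_cast hB1
    have hV0 : 0 < V := by rw [hV]; positivity
    have hVV : (Vz z)⁻¹ ≤ V := by
      rw [hV]
      exact (hVz z hz2).trans (mul_le_mul_of_nonneg_left hlz hCV.le)
    obtain ⟨Ef, hEf⟩ : ∃ Ef : ℝ, Ef = Cf * X / L ^ (2 * k + 2) := ⟨_, rfl⟩
    -- the pairs of one class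
    have hQ : ∀ c ∈ pm10_C P, ((pm10_Q (pm10_K W c X) (Nat.sqrt X)).card : ℝ) ≤
        2 / L * (V * (U * ((pm10_K W c X).card : ℝ)) + Ef * ((pm10_K W c X).card : ℝ)) := by
      intro c hc
      have h1 := hF X hX3 (pm10_K W c X) (Finset.filter_subset _ _)
      rw [← hz] at h1
      have h2 := pm10_Qcard X (by omega) (pm10_K W c X) z _ V hVV h1
      rw [← hEf] at h2
      have h3 : ((pm10_K W c X).card : ℝ) ^ 2 ≤ U * ((pm10_K W c X).card : ℝ) := by
        rw [sq]
        exact mul_le_mul_of_nonneg_right (hUc c hc) (Nat.cast_nonneg _)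
      have h4 := mul_le_mul_of_nonneg_right h3 hV0.le
      have h5 : ((pm10_Q (pm10_K W c X) (Nat.sqrt X)).card : ℝ) * (L / 2) ≤
          V * (U * ((pm10_K W c X).card : ℝ)) + Ef * ((pm10_K W c X).card : ℝ) := by
        linarith
      calc ((pm10_Q (pm10_K W c X) (Nat.sqrt X)).card : ℝ)
          = 2 / L * (((pm10_Q (pm10_K W c X) (Nat.sqrt X)).card : ℝ) * (L / 2)) := by
            field_simp
        _ ≤ _ := mul_le_mul_of_nonneg_left h5 (by positivity)
    have hTP : ∀ p ∈ P, p ≤ Nat.sqrt X := by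
      intro p hp
      rw [hP] at hp
      have h1 : p ≤ y := (Nat.mem_primesLE.1 (Finset.mem_of_mem_erase hp)).1
      refine h1.trans (Nat.le_sqrt.2 ?_)
      have h2 : (y : ℝ) ≤ K * L := by
        have h3 : L2 ≤ L := Real.log_le_self hL0.le
        calc (y : ℝ) ≤ (1 - δ) * K * L2 := hyle
          _ ≤ 1 * K * L := by
              apply mul_le_mul _ h3 hL20.le (by positivity)
              exact mul_le_mul_of_nonneg_right (by linarith) hK.le
          _ = K * L := by ring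
      have h3 : (y : ℝ) * y ≤ X := by
        calc (y : ℝ) * y ≤ (K * L) * (K * L) :=
              mul_le_mul h2 h2 (Nat.cast_nonneg _) (by positivity)
          _ = K ^ 2 * L ^ 2 := by ring
          _ ≤ X := f6
      exact_mod_cast h3
    have hcov := pm10_cover P hPp X hTP
    rw [← hW] at hcov
    have hsum : ∑ c ∈ pm10_C P, ((pm10_Q (pm10_K W c X) (Nat.sqrt X)).card : ℝ) ≤
        2 / L * (V * (U * a) + Ef * a) := by
      refine (sum_le_sum hQ).trans (le_of_eq ?_)
      rw [← Finset.mul_sum, Finset.sum_add_distrib, ← Finset.mul_sum, ← Finset.mul_sum,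
        ← Finset.mul_sum, ← ha']
    refine (hcov.trans (add_le_add_right hsum _)).trans ?_
    obtain ⟨Es, hEs⟩ : ∃ Es : ℝ, Es = Real.exp (-(K * Real.log 2 - ε) * L2 / L3) := ⟨_, rfl⟩
    have hEs0 : 0 < Es := by rw [hEs]; exact Real.exp_pos _
    rw [← hEs]
    -- lower bound for `Es`
    have hlog2 : Real.log 2 ≤ 1 := by
      have := Real.log_two_lt_d9
      linarith
    have hlog20 : 0 < Real.log 2 := Real.log_pos (by norm_num)
    have hEsk : 1 ≤ Es * L ^ k := by
      have h1 : L ^ k = Real.exp (k * L2) := by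
        rw [← Real.rpow_natCast, Real.rpow_def_of_pos hL0, hL2def, mul_comm]
      rw [hEs, h1, ← Real.exp_add]
      apply Real.one_le_exp
      have h2 : (K * Real.log 2 - ε) * L2 / L3 ≤ k * L2 := by
        rw [div_le_iff₀ hL30]
        have h3 : K * Real.log 2 ≤ K := mul_le_of_le_one_right hK.le hlog2
        have h4 : (K * Real.log 2 - ε) * L2 ≤ k * L2 :=
          mul_le_mul_of_nonneg_right (by linarith) hL20.le
        have h5 : (k : ℝ) * L2 * 1 ≤ k * L2 * L3 :=
          mul_le_mul_of_nonneg_left g5 (by positivity)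
        linarith
      have h3 : -(K * Real.log 2 - ε) * L2 / L3 = -((K * Real.log 2 - ε) * L2 / L3) := by ring
      rw [h3]
      linarith
    have haEs : X / L ^ (2 * k + 1) ≤ a * Es := by
      have h1 : X / L ^ (k + 1) * Es ≤ a * Es := mul_le_mul_of_nonneg_right haX' hEs0.le
      refine le_trans ?_ h1
      have h2 : (X : ℝ) / L ^ (k + 1) * Es = X / L ^ (2 * k + 1) * (Es * L ^ k) := by
        have e : L ^ (2 * k + 1) = L ^ (k + 1) * L ^ k := by rw [← pow_add]; congr 1; ring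
        rw [e]
        field_simp
      rw [h2]
      exact le_mul_of_one_le_right (by positivity) hEsk
    apply pm10_real hL0 ha0.le (by linarith) hV0.le hUH
    · -- `16 X L ≤ a² Es`
      have h1 : X / L ^ (k + 1) * (X / L ^ (2 * k + 1)) ≤ a * (a * Es) :=
        mul_le_mul haX' haEs (by positivity) ha0.le
      have h2 : 16 * ((X : ℝ) * L) ≤ X / L ^ (k + 1) * (X / L ^ (2 * k + 1)) := by
        have e : (X : ℝ) / L ^ (k + 1) * (X / L ^ (2 * k + 1)) = X * (X / L ^ (3 * k + 2)) := by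
          have e' : L ^ (3 * k + 2) = L ^ (k + 1) * L ^ (2 * k + 1) := by
            rw [← pow_add]; congr 1; ring
          rw [e']
          field_simp
        have h3 : 16 * L ≤ X / L ^ (3 * k + 2) := by
          rw [le_div_iff₀ (by positivity)]
          calc 16 * L * L ^ (3 * k + 2) = 16 * L ^ (3 * k + 3) := by ring
            _ ≤ X := f4
        rw [e]
        have := mul_le_mul_of_nonneg_left h3 (by linarith : (0 : ℝ) ≤ X)
        linarith
      calc 16 * ((X : ℝ) * L) ≤ a * (a * Es) := h2.trans h1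
        _ = a ^ 2 * Es := by ring
    · -- `8 Ef ≤ a Es`
      refine le_trans ?_ haEs
      rw [hEf]
      have h1 : 8 * (Cf * X / L ^ (2 * k + 2)) = (8 * Cf) * (X / L ^ (2 * k + 2)) := by ring
      have h2 : (X : ℝ) / L ^ (2 * k + 1) = L * (X / L ^ (2 * k + 2)) := by
        have e : L ^ (2 * k + 2) = L ^ (2 * k + 1) * L := by ring
        rw [e]
        field_simp
      rw [h1, h2]
      exact mul_le_mul_of_nonneg_right hLCf (by positivity)
    · -- `32 V ≤ H Es`
      have hly0 : 0 < Real.log y := Real.log_pos hy1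
      have hly : Real.log y ≤ L3 / (1 - δ) := by
        have h1 : (y : ℝ) ≤ K * L2 := by
          calc (y : ℝ) ≤ (1 - δ) * K * L2 := hyle
            _ ≤ 1 * K * L2 := by
                apply mul_le_mul_of_nonneg_right _ hL20.le
                exact mul_le_mul_of_nonneg_right (by linarith) hK.le
            _ = K * L2 := by ring
        have h2 : Real.log y ≤ Real.log K + L3 := by
          rw [hL3def, ← Real.log_mul hK.ne' hL20.ne']
          exact Real.log_le_log (by linarith) h1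
        rw [le_div_iff₀ hδ1]
        have h3 := mul_le_mul_of_nonneg_right h2 hδ1.le
        have e : (Real.log K + L3) * (1 - δ) = (1 - δ) * Real.log K + L3 - L3 * δ := by ring
        linarith
      have hPc : (1 - 4 * δ) * K * (L2 / L3) ≤ (P.card : ℝ) + 1 := by
        have h1 : θ ≤ ((P.card : ℝ) + 1) * Real.log y := by
          rw [hP]
          exact pm10_pi y
        have h2 : (1 - δ) * y ≤ θ := by linarith [hthy.1]
        have h3 : (1 - δ) * ((1 - δ) ^ 2 * K * L2) ≤ ((P.card : ℝ) + 1) * (L3 / (1 - δ)) := by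
          calc (1 - δ) * ((1 - δ) ^ 2 * K * L2) ≤ (1 - δ) * y :=
                mul_le_mul_of_nonneg_left hylow hδ1.le
            _ ≤ ((P.card : ℝ) + 1) * Real.log y := h2.trans h1
            _ ≤ _ := mul_le_mul_of_nonneg_left hly (by positivity)
        have h4 : (1 - δ) ^ 4 * K * (L2 / L3) ≤ (P.card : ℝ) + 1 := by
          have h5 : ((1 - δ) ^ 4 * K * (L2 / L3)) * (L3 / (1 - δ)) ≤
              ((P.card : ℝ) + 1) * (L3 / (1 - δ)) := by
            refine le_trans (le_of_eq ?_) h3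
            field_simp
          exact le_of_mul_le_mul_right h5 (by positivity)
        have h5 : 1 - 4 * δ ≤ (1 - δ) ^ 4 := by
          have h6 := one_add_mul_le_pow (show (-2 : ℝ) ≤ -δ by linarith) 4
          have e1 : 1 + (4 : ℕ) * (-δ) = 1 - 4 * δ := by push_cast; ring
          have e2 : (1 + (-δ)) ^ 4 = (1 - δ) ^ 4 := by ring
          rw [e1, e2] at h6
          exact h6
        refine le_trans ?_ h4
        apply mul_le_mul_of_nonneg_right _ (by positivity)
        exact mul_le_mul_of_nonneg_right h5 hK.le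
      -- `(c₁ + L3) ≤ (ε/2) L2/L3`
      have hfin : Real.log 2 + Real.log (32 * (CV * B)) + L3 ≤ ε / 2 * (L2 / L3) := by
        have h1 := LG3_pow 3 g1
        have h2 : ((3 : ℕ).factorial : ℝ) = 6 := by norm_num [Nat.factorial]
        rw [h2] at h1
        have h3 : 2 * L3 ≤ ε / 2 * (L2 / L3) := by
          rw [← mul_div_assoc, le_div_iff₀ hL30]
          have h4 : L3 ^ 3 ≤ 6 * L2 := h1
          have h5 : 24 * L3 ^ 2 ≤ L3 * ε * L3 ^ 2 := mul_le_mul_of_nonneg_right g8 (by positivity)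
          have h6 : L3 * ε * L3 ^ 2 = ε * L3 ^ 3 := by ring
          have h7 : ε * L3 ^ 3 ≤ ε * (6 * L2) := mul_le_mul_of_nonneg_left h4 hε.le
          have e : 2 * L3 * L3 = 2 * L3 ^ 2 := by ring
          linarith
        linarith
      have hV32 : 32 * V = Real.exp (Real.log (32 * (CV * B)) + L3) := by
        rw [Real.exp_add, Real.exp_log (by positivity), hL3def, Real.exp_log hL20, hV]
        ring
      have h2P : (2 : ℝ) ^ P.card = Real.exp (P.card * Real.log 2) := by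
        rw [mul_comm, ← Real.rpow_def_of_pos (by norm_num : (0 : ℝ) < 2), Real.rpow_natCast]
      calc 32 * V ≤ (2 : ℝ) ^ P.card * Es := by
            rw [hV32, h2P, hEs, ← Real.exp_add]
            apply Real.exp_le_exp.2
            have h1 : (1 - 4 * δ) * K * (L2 / L3) * Real.log 2 ≤ ((P.card : ℝ) + 1) * Real.log 2 :=
              mul_le_mul_of_nonneg_right hPc hlog20.le
            have h2 : 4 * δ * K * (L2 / L3) * Real.log 2 ≤ ε / 2 * (L2 / L3) := by
              have h3 : 4 * δ * K * Real.log 2 ≤ ε / 2 := by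
                calc 4 * δ * K * Real.log 2 ≤ 4 * δ * K * 1 :=
                      mul_le_mul_of_nonneg_left hlog2 (by positivity)
                  _ ≤ ε / 2 := by linarith
              have h4 := mul_le_mul_of_nonneg_right h3 (by positivity : 0 ≤ L2 / L3)
              linarith
            have h3 : -(K * Real.log 2 - ε) * L2 / L3 =
                -(K * Real.log 2) * (L2 / L3) + ε * (L2 / L3) := by ring
            rw [h3]
            linarith
        _ ≤ H * Es := mul_le_mul_of_nonneg_right hH2 hEs0.le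

end Pool.Agent.Lib.SW
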