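import Pool.Agent.Lib.SW.TS.TS10

/-!
# PM-0: definitions for prime midpoints of sparse sets of primes

Case `false`: the equation `a + b = 2 p`.  Case `true`: the equation `2 b - a = q` (made symmetric: neither `2 b - a` nor `2 a - b`
is divisible by a small prime).  `ker c p a b` is a positive definite kernel on the classes modulo `p` (modulo 4 in case `false`,
`p = 2`), with `1 + ker = 0` if `(a, b)` has an obstruction at `p` (`¬ GoodP`), `1 + ker ≤ MM c` if `a ≡ b mod p` and `1 + ker ≤ 1` otherwise.
`GG` is the product of `1 + ker` over the primes `≤ z`, `GD` the same expanded and truncated to divisors `≤ D` of `primorial z`.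
-/

set_option autoImplicit false

open Finset

namespace Pool.Agent.Lib.SW

/-- the modulus used at the prime `p` in case `false` -/
def mm (p : ℕ) : ℕ := if p = 2 then 4 else p

/-- the kernels -/
noncomputable def ker : Bool → ℕ → ℕ → ℕ → ℝ
  | false, p, a, b =>
    (if a % mm p = b % mm p then 1 else 0) - (if (a + b) % mm p = 0 then 1 else 0)
  | true, p, a, b =>
    if p = 2 then 0
    else if p = 3 then (if a % 3 = b % 3 then 1 else 0) - (if (a + b) % 3 = 0 then 1 else 0)
    else 2 * (if a % p = b % p then 1 else 0) - (if a % p = (2 * b) % p then 1 else 0) -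
      (if b % p = (2 * a) % p then 1 else 0)

/-- no obstruction at `p` -/
def GoodP : Bool → ℕ → ℕ → ℕ → Prop
  | false, p, a, b => (a + b) % mm p ≠ 0
  | true, p, a, b => p = 2 ∨ (a % p ≠ (2 * b) % p ∧ b % p ≠ (2 * a) % p)

noncomputable def MM : Bool → ℝ
  | false => 2
  | true => 3

/-- the primes at which some kernel may be nonzero -/
def TT (z a b : ℕ) : Finset ℕ :=
  (Nat.primesLE z).filter (fun p => a % p = b % p ∨ (a + b) % p = 0 ∨ a % p = (2 * b) % p ∨
    b % p = (2 * a) % p)

noncomputable def GG (c : Bool) (z a b : ℕ) : ℝ := ∏ p ∈ Nat.primesLE z, (1 + ker c p a b)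

noncomputable def GD (c : Bool) (z : ℕ) (D : ℝ) (a b : ℕ) : ℝ :=
  ∑ d ∈ (primorial z).divisors.filter (fun d : ℕ => (d : ℝ) ≤ D), ∏ p ∈ d.primeFactors, ker c p a b

/-- the number of primes `≤ z` which divide `a - b` -/
def om (z a b : ℕ) : ℕ := ((Nat.primesLE z).filter (fun p => a % p = b % p)).card

end Pool.Agent.Lib.SW
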