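import Pool.Agent.Lib.SW.PM.PM0

/-!
# PM-1: the kernels are positive definite

PROOF.  `PM1_psd_mul`: if `k` is positive definite (for ALL weights `w`) and `g a b = ∑_{i ∈ I} u i a * u i b`, then `k * g` is positive definite:
`∑_{a,b} w a w b k a b g a b = ∑_i ∑_{a,b} (w a u i a) (w b u i b) k a b ≥ 0`.  Each `ker c p` is of this form:
case `false`, `m = mm p`: `[a ≡ b] - [m ∣ a + b] = ∑_{c < m} v_c(a) v_c(b)`, `v_c(a) = ([a ≡ c] - [m ∣ a + c])/√2`
(or keep the factor 1/2 outside: allow `g a b = r ∑ ...`, `r ≥ 0`); `∑_{c<m} [a ≡ c][b ≡ c] = [a ≡ b]`, `∑_c [a ≡ c][m ∣ b + c] = [m ∣ a + b]`,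
`∑_c [m ∣ a + c][m ∣ b + c] = [a ≡ b]`.
case `true`, `p = 2`: `ker = 0`; `p = 3`: as before with `m = 3`; `p ≥ 5`: `2[a ≡ b] - [a ≡ 2b] - [b ≡ 2a] = ∑_{c < p} ([a ≡ c] - [a ≡ 2c])([b ≡ c] - [b ≡ 2c])`,
since `c ↦ 2c` is a bijection modulo the odd `p`.  Then induction on `Q` (`Q = ∅`: `(∑ w)² ≥ 0`).
It may be convenient to work in `ZMod m`.
-/

set_option autoImplicit false

open Finset

namespace Pool.Agent.Lib.SW

theorem PM1_sum_sq (m : ℕ) [NeZero m] (s : ZMod m ≃ ZMod m) (x y : ZMod m) :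
    ∑ c : ZMod m, (((if x = c then 1 else 0) - (if x = s c then 1 else 0)) *
        ((if y = c then 1 else 0) - (if y = s c then 1 else 0)) : ℝ) =
      2 * (if x = y then 1 else 0) - (if x = s y then 1 else 0) - (if y = s x then 1 else 0) := by
  classical
  have h1 : ∑ c : ZMod m, ((if x = c then 1 else 0) * (if y = c then 1 else 0) : ℝ) =
      if x = y then 1 else 0 := by
    rw [Finset.sum_eq_single x]
    · simp [eq_comm]
    · intro c _ hc
      simp [Ne.symm hc]
    · intro h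
      exact absurd (Finset.mem_univ _) h
  have h2 : ∑ c : ZMod m, ((if x = c then 1 else 0) * (if y = s c then 1 else 0) : ℝ) =
      if y = s x then 1 else 0 := by
    rw [Finset.sum_eq_single x]
    · simp
    · intro c _ hc
      simp [Ne.symm hc]
    · intro h
      exact absurd (Finset.mem_univ _) h
  have h3 : ∑ c : ZMod m, ((if x = s c then 1 else 0) * (if y = c then 1 else 0) : ℝ) =
      if x = s y then 1 else 0 := by
    rw [Finset.sum_eq_single y]
    · simp
    · intro c _ hc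
      simp [Ne.symm hc]
    · intro h
      exact absurd (Finset.mem_univ _) h
  have h4 : ∑ c : ZMod m, ((if x = s c then 1 else 0) * (if y = s c then 1 else 0) : ℝ) =
      if x = y then 1 else 0 := by
    rw [← Equiv.sum_comp s] at h1
    exact h1
  have h5 : ∀ c : ZMod m, (((if x = c then 1 else 0) - (if x = s c then 1 else 0)) *
        ((if y = c then 1 else 0) - (if y = s c then 1 else 0)) : ℝ) =
      (if x = c then 1 else 0) * (if y = c then 1 else 0) -
      (if x = c then 1 else 0) * (if y = s c then 1 else 0) -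
      (if x = s c then 1 else 0) * (if y = c then 1 else 0) +
      (if x = s c then 1 else 0) * (if y = s c then 1 else 0) := by
    intro c
    ring
  simp_rw [h5]
  rw [Finset.sum_add_distrib, Finset.sum_sub_distrib, Finset.sum_sub_distrib, h1, h2, h3, h4]
  ring

/-- kernels of the form `r * ∑ u i a * u i b`, `r ≥ 0` -/
def PM1_Gram (g : ℕ → ℕ → ℝ) : Prop :=
  ∃ (n : ℕ) (r : ℝ) (u : Fin n → ℕ → ℝ), 0 ≤ r ∧ ∀ a b, g a b = r * ∑ i, u i a * u i b

theorem PM1_gram_perm (m : ℕ) [NeZero m] (s : ZMod m ≃ ZMod m) (r : ℝ) (hr : 0 ≤ r)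
    (g : ℕ → ℕ → ℝ)
    (hg : ∀ a b : ℕ, g a b = r * (2 * (if (a : ZMod m) = b then 1 else 0) -
      (if (a : ZMod m) = s b then 1 else 0) - (if (b : ZMod m) = s a then 1 else 0))) :
    PM1_Gram g := by
  classical
  let e : Fin (Fintype.card (ZMod m)) ≃ ZMod m := (Fintype.equivFin (ZMod m)).symm
  refine ⟨Fintype.card (ZMod m), r, fun i a => (if (a : ZMod m) = e i then 1 else 0) -
    (if (a : ZMod m) = s (e i) then 1 else 0), hr, fun a b => ?_⟩
  rw [hg a b, ← PM1_sum_sq m s (a : ZMod m) (b : ZMod m), ← Equiv.sum_comp e]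

theorem PM1_neg (m : ℕ) [NeZero m] (g : ℕ → ℕ → ℝ)
    (hg : ∀ a b : ℕ, g a b = (if a % m = b % m then 1 else 0) -
      (if (a + b) % m = 0 then 1 else 0)) : PM1_Gram g := by
  refine PM1_gram_perm m (Equiv.neg _) (1 / 2) (by norm_num) g fun a b => ?_
  rw [hg a b]
  have h1 : (a : ZMod m) = b ↔ a % m = b % m := ZMod.natCast_eq_natCast_iff a b m
  have h2 : (a : ZMod m) = (Equiv.neg (ZMod m)) b ↔ (a + b) % m = 0 := by
    rw [Equiv.neg_apply, eq_neg_iff_add_eq_zero, ← Nat.cast_add, ZMod.natCast_eq_zero_iff,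
      Nat.dvd_iff_mod_eq_zero]
  have h3 : (b : ZMod m) = (Equiv.neg (ZMod m)) a ↔ (a + b) % m = 0 := by
    rw [Equiv.neg_apply, eq_neg_iff_add_eq_zero, ← Nat.cast_add, ZMod.natCast_eq_zero_iff,
      Nat.dvd_iff_mod_eq_zero, add_comm b a]
  simp only [h1, h2, h3]
  ring

theorem PM1_two (p : ℕ) (hp : p.Prime) (h2 : p ≠ 2) (g : ℕ → ℕ → ℝ)
    (hg : ∀ a b : ℕ, g a b = 2 * (if a % p = b % p then 1 else 0) -
      (if a % p = (2 * b) % p then 1 else 0) - (if b % p = (2 * a) % p then 1 else 0)) :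
    PM1_Gram g := by
  have : Fact p.Prime := ⟨hp⟩
  have h20 : (2 : ZMod p) ≠ 0 := by
    have h : ((2 : ℕ) : ZMod p) ≠ 0 := by
      rw [Ne, ZMod.natCast_eq_zero_iff]
      intro h
      exact h2 ((Nat.prime_dvd_prime_iff_eq hp Nat.prime_two).mp h)
    exact_mod_cast h
  refine PM1_gram_perm p (Equiv.mulLeft₀ (2 : ZMod p) h20) 1 (by norm_num) g fun a b => ?_
  rw [hg a b]
  have e1 : (a : ZMod p) = b ↔ a % p = b % p := ZMod.natCast_eq_natCast_iff a b p
  have e2 : ∀ x y : ℕ, (x : ZMod p) = (Equiv.mulLeft₀ (2 : ZMod p) h20) y ↔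
      x % p = (2 * y) % p := by
    intro x y
    have h := ZMod.natCast_eq_natCast_iff x (2 * y) p
    rw [Equiv.mulLeft₀_apply]
    push_cast at h
    exact h
  simp only [e1, e2]
  ring

theorem PM1_gram (c : Bool) (p : ℕ) (hp : p.Prime) : PM1_Gram (ker c p) := by
  cases c with
  | false =>
    have : NeZero (mm p) := ⟨by unfold mm; split_ifs; norm_num; exact hp.ne_zero⟩
    exact PM1_neg (mm p) _ fun a b => rfl
  | true =>
    by_cases h2 : p = 2
    · refine ⟨0, 0, fun _ _ => 0, le_refl _, fun a b => ?_⟩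
      simp [ker, h2]
    · by_cases h3 : p = 3
      · refine PM1_neg 3 _ fun a b => ?_
        simp [ker, h3]
      · refine PM1_two p hp h2 _ fun a b => ?_
        simp [ker, h2, h3]

theorem ker_psd (c : Bool) (Q : Finset ℕ) (hQ : ∀ p ∈ Q, p.Prime) (S : Finset ℕ) (w : ℕ → ℝ) :
    0 ≤ ∑ a ∈ S, ∑ b ∈ S, w a * w b * ∏ p ∈ Q, ker c p a b := by
  classical
  induction Q using Finset.induction_on generalizing w with
  | empty =>
    have h : ∑ a ∈ S, ∑ b ∈ S, w a * w b * ∏ p ∈ (∅ : Finset ℕ), ker c p a b =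
        (∑ a ∈ S, w a) * ∑ b ∈ S, w b := by
      rw [Finset.sum_mul_sum]
      simp
    rw [h]
    exact mul_self_nonneg _
  | insert p Q hpQ ih =>
    obtain ⟨n, r, u, hr, hu⟩ := PM1_gram c p (hQ p (Finset.mem_insert_self p Q))
    have hQ' : ∀ q ∈ Q, q.Prime := fun q hq => hQ q (Finset.mem_insert_of_mem hq)
    have h : ∑ a ∈ S, ∑ b ∈ S, w a * w b * ∏ q ∈ insert p Q, ker c q a b =
        r * ∑ i, ∑ a ∈ S, ∑ b ∈ S, (w a * u i a) * (w b * u i b) * ∏ q ∈ Q, ker c q a b := by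
      have e1 : ∀ a b : ℕ, w a * w b * ∏ q ∈ insert p Q, ker c q a b =
          ∑ i, r * ((w a * u i a) * (w b * u i b) * ∏ q ∈ Q, ker c q a b) := by
        intro a b
        rw [Finset.prod_insert hpQ, hu a b, Finset.mul_sum, Finset.sum_mul, Finset.mul_sum]
        exact Finset.sum_congr rfl fun i _ => by ring
      calc ∑ a ∈ S, ∑ b ∈ S, w a * w b * ∏ q ∈ insert p Q, ker c q a b
          = ∑ a ∈ S, ∑ b ∈ S, ∑ i, r * ((w a * u i a) * (w b * u i b) *
              ∏ q ∈ Q, ker c q a b) :=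
            Finset.sum_congr rfl fun a _ => Finset.sum_congr rfl fun b _ => e1 a b
        _ = ∑ a ∈ S, ∑ i, ∑ b ∈ S, r * ((w a * u i a) * (w b * u i b) *
              ∏ q ∈ Q, ker c q a b) :=
            Finset.sum_congr rfl fun a _ => Finset.sum_comm
        _ = ∑ i, ∑ a ∈ S, ∑ b ∈ S, r * ((w a * u i a) * (w b * u i b) *
              ∏ q ∈ Q, ker c q a b) := Finset.sum_comm
        _ = r * ∑ i, ∑ a ∈ S, ∑ b ∈ S, (w a * u i a) * (w b * u i b) *
              ∏ q ∈ Q, ker c q a b := by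
            simp only [Finset.mul_sum]
    rw [h]
    exact mul_nonneg hr (Finset.sum_nonneg fun i _ => ih hQ' _)

end Pool.Agent.Lib.SW
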