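import Pool.Agent.Lib.SW.PM.PM0

/-!
PM-2: values of the kernels

PROOFS.  `p ∤ a`, `p ∤ b`.  Case `false`: `m = mm p`.  If `m ∣ a + b` then `a ≢ b mod m` (else `m ∣ 2a`, so `p ∣ a`): `ker = -1`.
Otherwise `ker = [a ≡ b mod m] ≤ 1`, and `a ≡ b mod m` implies `a ≡ b mod p`.
Case `true`: `p = 2`: `ker = 0`.  `p = 3`: `a ≡ 2b` iff `3 ∣ a + b`, as above.  `p ≥ 5`: if `a ≡ 2b` then `a ≢ b` (else `p ∣ b`) and `b ≢ 2a` (else
`p ∣ 3a`): `ker = -1`; the same for `b ≡ 2a`; otherwise `ker = 2 [a ≡ b]`.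
`GG_sub_GD_le`: `GG c z a b = ∑_{d ∣ primorial z} ∏_{p ∣ d} ker` (`Finset.prod_one_add` / `prod_add` and the bijection between the divisors of
`primorial z` and the subsets of `Nat.primesLE z`, `primeFactors_primorial`), a term is nonzero only if all `p ∣ d` are in `TT z a b`,
and then it is at most `2^ω(d)`; so `|GG - GD| ≤ ∑_{U ⊆ TT} 2^#U = 3^#TT`, and `GG = GD` if `∏_{p ∈ TT} p ≤ D`.
-/

set_option autoImplicit false

open Finset

namespace Pool.Agent.Lib.SW

theorem abs_ker_le (c : Bool) (p a b : ℕ) : |ker c p a b| ≤ 2 := by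
  cases c
  · simp only [ker]
    split_ifs <;> norm_num
  · simp only [ker]
    split_ifs <;> norm_num

theorem ker_eq_zero (c : Bool) {p a b : ℕ} (hp : p.Prime) (h : ¬ (a % p = b % p ∨ (a + b) % p = 0 ∨
    a % p = (2 * b) % p ∨ b % p = (2 * a) % p)) : ker c p a b = 0 := by
  rw [not_or, not_or, not_or] at h
  obtain ⟨h1, h2, h3, h4⟩ := h
  cases c
  · by_cases hp2 : p = 2
    · subst hp2
      have e1 : ¬ a % 4 = b % 4 := by omega
      have e2 : ¬ (a + b) % 4 = 0 := by omega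
      simp [ker, mm, e1, e2]
    · simp [ker, mm, hp2, h1, h2]
  · by_cases hp2 : p = 2
    · simp [ker, hp2]
    · by_cases hp3 : p = 3
      · subst hp3
        simp [ker, h1, h2]
      · simp [ker, hp2, hp3, h1, h3, h4]

theorem PM2_two {p a b : ℕ} (hp : p.Prime) (hp2 : p ≠ 2) (ha : ¬ p ∣ a) (h1 : a % p = b % p)
    (h2 : (a + b) % p = 0) : False := by
  have h3 : p ∣ a + b := Nat.dvd_of_mod_eq_zero h2
  have h4 : a ≡ b [MOD p] := h1
  have h5 : a + a ≡ a + b [MOD p] := Nat.ModEq.add_left a h4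
  have h6 : p ∣ a + a := (Nat.modEq_zero_iff_dvd.1 (h5.trans (Nat.modEq_zero_iff_dvd.2 h3)))
  have h7 : p ∣ 2 * a := by
    rwa [two_mul]
  rcases hp.dvd_mul.1 h7 with h8 | h8
  · exact hp2 ((Nat.prime_dvd_prime_iff_eq hp Nat.prime_two).1 h8)
  · exact ha h8

theorem PM2_one {p b : ℕ} (hb : ¬ p ∣ b) (h : b % p = (2 * b) % p) : False := by
  have h1 : b + 0 ≡ b + b [MOD p] := by
    rw [add_zero, ← two_mul]
    exact h
  have h2 : 0 ≡ b [MOD p] := Nat.ModEq.add_left_cancel' b h1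
  exact hb (Nat.modEq_zero_iff_dvd.1 h2.symm)

theorem PM2_three {p a b : ℕ} (hp : p.Prime) (hp3 : p ≠ 3) (ha : ¬ p ∣ a)
    (h1 : a % p = (2 * b) % p) (h2 : b % p = (2 * a) % p) : False := by
  have h3 : a + 0 ≡ a + 3 * a [MOD p] := by
    have e1 : a ≡ 2 * b [MOD p] := h1
    have e2 : b ≡ 2 * a [MOD p] := h2
    have e3 : 2 * b ≡ 2 * (2 * a) [MOD p] := Nat.ModEq.mul_left 2 e2
    have e4 : a ≡ 2 * (2 * a) [MOD p] := e1.trans e3
    have e5 : 2 * (2 * a) = a + 3 * a := by ring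
    rw [add_zero, ← e5]
    exact e4
  have h4 : 0 ≡ 3 * a [MOD p] := Nat.ModEq.add_left_cancel' a h3
  have h5 : p ∣ 3 * a := Nat.modEq_zero_iff_dvd.1 h4.symm
  rcases hp.dvd_mul.1 h5 with h8 | h8
  · exact hp3 ((Nat.prime_dvd_prime_iff_eq hp Nat.prime_three).1 h8)
  · exact ha h8

theorem one_add_ker_bad (c : Bool) {p a b : ℕ} (hp : p.Prime) (ha : ¬ p ∣ a) (hb : ¬ p ∣ b)
    (h : ¬ GoodP c p a b) : 1 + ker c p a b = 0 := by
  cases c
  · simp only [GoodP, not_not] at h
    by_cases hp2 : p = 2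
    · subst hp2
      simp only [mm, if_pos] at h
      have e1 : ¬ a % 4 = b % 4 := by omega
      simp [ker, mm, e1, h]
    · simp only [mm, if_neg hp2] at h
      have e1 : ¬ a % p = b % p := fun e => PM2_two hp hp2 ha e h
      simp [ker, mm, hp2, e1, h]
  · simp only [GoodP, not_or, not_and_or, not_not] at h
    obtain ⟨hp2, h⟩ := h
    by_cases hp3 : p = 3
    · subst hp3
      have e1 : ¬ a % 3 = b % 3 := by omega
      have e2 : (a + b) % 3 = 0 := by omega
      simp [ker, e1, e2]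
    · have h1 : ¬ a % p = b % p := by
        intro e
        rcases h with h | h
        · exact PM2_one hb (e ▸ h)
        · exact PM2_one ha (e ▸ h)
      rcases h with h | h
      · have h2 : ¬ b % p = (2 * a) % p := fun e => PM2_three hp hp3 ha h e
        simp only [ker, if_neg hp2, if_neg hp3, if_neg h1, if_neg h2, if_pos h]
        norm_num
      · have h2 : ¬ a % p = (2 * b) % p := fun e => PM2_three hp hp3 ha e h
        simp only [ker, if_neg hp2, if_neg hp3, if_neg h1, if_neg h2, if_pos h]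
        norm_num

theorem one_add_ker_good (c : Bool) {p a b : ℕ} (hp : p.Prime) (ha : ¬ p ∣ a) (hb : ¬ p ∣ b)
    (h : GoodP c p a b) :
    0 ≤ 1 + ker c p a b ∧ 1 + ker c p a b ≤ (if a % p = b % p then MM c else 1) := by
  cases c
  · simp only [GoodP] at h
    simp only [ker, if_neg h, MM]
    have e : a % mm p = b % mm p → a % p = b % p := by
      by_cases hp2 : p = 2
      · subst hp2
        simp only [mm, if_pos]
        omega
      · simp only [mm, if_neg hp2]
        exact id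
    by_cases h1 : a % mm p = b % mm p
    · rw [if_pos h1, if_pos (e h1)]
      norm_num
    · rw [if_neg h1]
      split_ifs <;> norm_num
  · simp only [MM]
    by_cases hp2 : p = 2
    · simp only [ker, if_pos hp2]
      split_ifs <;> norm_num
    · simp only [GoodP] at h
      have h := h.resolve_left hp2
      by_cases hp3 : p = 3
      · subst hp3
        have e2 : ¬ (a + b) % 3 = 0 := by omega
        simp only [ker, if_neg e2]
        norm_num
        split_ifs <;> norm_num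
      · simp only [ker, if_neg hp2, if_neg hp3, if_neg h.1, if_neg h.2]
        split_ifs <;> norm_num

/-- the product is `0` if there is an obstruction and at most `MM^om` otherwise -/
theorem GG_le (c : Bool) (z a b : ℕ) (ha : Nat.Coprime a (primorial z))
    (hb : Nat.Coprime b (primorial z)) :
    0 ≤ GG c z a b ∧ GG c z a b ≤ (MM c) ^ (om z a b) ∧
      ((∃ p, p.Prime ∧ p ≤ z ∧ ¬ GoodP c p a b) → GG c z a b = 0) := by
  have hd : ∀ {x : ℕ}, Nat.Coprime x (primorial z) → ∀ p, p.Prime → p ≤ z → ¬ p ∣ x := by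
    intro x hx p hp hpz hpx
    have h1 : p ∣ primorial z := hp.dvd_primorial_iff.2 hpz
    have h2 : p ∣ Nat.gcd x (primorial z) := Nat.dvd_gcd hpx h1
    rw [hx] at h2
    exact hp.one_lt.ne' (Nat.dvd_one.1 h2)
  have h0 : ∀ p ∈ Nat.primesLE z, 0 ≤ 1 + ker c p a b ∧
      1 + ker c p a b ≤ (if a % p = b % p then MM c else 1) := by
    intro p hp
    obtain ⟨hpz, hpp⟩ := Nat.mem_primesLE.1 hp
    by_cases hg : GoodP c p a b
    · exact one_add_ker_good c hpp (hd ha p hpp hpz) (hd hb p hpp hpz) hg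
    · rw [one_add_ker_bad c hpp (hd ha p hpp hpz) (hd hb p hpp hpz) hg]
      refine ⟨le_rfl, ?_⟩
      have : 0 ≤ MM c := by
        cases c <;> norm_num [MM]
      split_ifs
      · exact this
      · norm_num
  refine ⟨Finset.prod_nonneg fun p hp => (h0 p hp).1, ?_, ?_⟩
  · have h1 : GG c z a b ≤ ∏ p ∈ Nat.primesLE z, (if a % p = b % p then MM c else 1) :=
      Finset.prod_le_prod (fun p hp => (h0 p hp).1) (fun p hp => (h0 p hp).2)
    refine h1.trans (le_of_eq ?_)
    rw [← Finset.prod_filter, Finset.prod_const]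
    rfl
  · rintro ⟨p, hp, hpz, hg⟩
    exact Finset.prod_eq_zero (Nat.mem_primesLE.2 ⟨hpz, hp⟩)
      (one_add_ker_bad c hp (hd ha p hp hpz) (hd hb p hp hpz) hg)

theorem PM2_sum (z : ℕ) (P : ℕ → Prop) [DecidablePred P] (F : Finset ℕ → ℝ) :
    ∑ d ∈ (primorial z).divisors.filter P, F d.primeFactors =
      ∑ U ∈ (Nat.primesLE z).powerset.filter (fun U => P (∏ p ∈ U, p)), F U := by
  have hpr : ∀ U : Finset ℕ, U ⊆ Nat.primesLE z → ∀ p ∈ U, p.Prime :=
    fun U hU p hp => Nat.prime_of_mem_primesLE (hU hp)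
  have hsq : ∀ d, d ∣ primorial z → ∏ p ∈ d.primeFactors, p = d := fun d hd =>
    Nat.prod_primeFactors_of_squarefree ((squarefree_primorial z).squarefree_of_dvd hd)
  refine Finset.sum_nbij' (fun d => d.primeFactors) (fun U => ∏ p ∈ U, p) ?_ ?_ ?_ ?_ ?_
  · intro d hd
    obtain ⟨h1, h2⟩ := Finset.mem_filter.1 hd
    have h3 := Nat.dvd_of_mem_divisors h1
    refine Finset.mem_filter.2 ⟨Finset.mem_powerset.2 ?_, ?_⟩
    · rw [← primeFactors_primorial]
      exact Nat.primeFactors_mono h3 (primorial_ne_zero z)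
    · rw [hsq d h3]
      exact h2
  · intro U hU
    obtain ⟨h1, h2⟩ := Finset.mem_filter.1 hU
    have h3 := Finset.mem_powerset.1 h1
    refine Finset.mem_filter.2 ⟨Nat.mem_divisors.2 ⟨?_, primorial_ne_zero z⟩, h2⟩
    rw [primorial_eq_prod_primesLE]
    exact Finset.prod_dvd_prod_of_subset _ _ _ h3
  · intro d hd
    exact hsq d (Nat.dvd_of_mem_divisors (Finset.mem_filter.1 hd).1)
  · intro U hU
    exact Nat.primeFactors_prod (hpr U (Finset.mem_powerset.1 (Finset.mem_filter.1 hU).1))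
  · intro d _
    rfl

theorem PM2_zero (c : Bool) (z a b : ℕ) {U : Finset ℕ} (hU : U ⊆ Nat.primesLE z)
    (h : ¬ U ⊆ TT z a b) : ∏ p ∈ U, ker c p a b = 0 := by
  obtain ⟨p, hp, hpT⟩ := Finset.not_subset.1 h
  refine Finset.prod_eq_zero hp (ker_eq_zero c (Nat.prime_of_mem_primesLE (hU hp)) ?_)
  intro hc
  exact hpT (Finset.mem_filter.2 ⟨hU hp, hc⟩)

theorem PM2_diff (c : Bool) (z : ℕ) (D : ℝ) (a b : ℕ) :
    GG c z a b - GD c z D a b =
      ∑ U ∈ (TT z a b).powerset.filter (fun U => ¬ (((∏ p ∈ U, p : ℕ) : ℝ) ≤ D)),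
        ∏ p ∈ U, ker c p a b := by
  classical
  have h1 : GG c z a b = ∑ U ∈ (Nat.primesLE z).powerset, ∏ p ∈ U, ker c p a b := by
    unfold GG
    rw [Finset.prod_one_add]
  have h2 : GD c z D a b = ∑ U ∈ (Nat.primesLE z).powerset.filter
      (fun U => ((∏ p ∈ U, p : ℕ) : ℝ) ≤ D), ∏ p ∈ U, ker c p a b := by
    unfold GD
    exact PM2_sum z (fun d : ℕ => (d : ℝ) ≤ D) (fun U => ∏ p ∈ U, ker c p a b)
  have h3 := Finset.sum_filter_add_sum_filter_not (Nat.primesLE z).powerset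
    (fun U => ((∏ p ∈ U, p : ℕ) : ℝ) ≤ D) (fun U => ∏ p ∈ U, ker c p a b)
  rw [h1, h2, ← h3, add_sub_cancel_left]
  symm
  refine Finset.sum_subset ?_ ?_
  · intro U hU
    obtain ⟨e1, e2⟩ := Finset.mem_filter.1 hU
    refine Finset.mem_filter.2 ⟨Finset.mem_powerset.2 ?_, e2⟩
    exact (Finset.mem_powerset.1 e1).trans (Finset.filter_subset _ _)
  · intro U hU hU'
    obtain ⟨e1, e2⟩ := Finset.mem_filter.1 hU
    refine PM2_zero c z a b (Finset.mem_powerset.1 e1) ?_
    intro hc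
    exact hU' (Finset.mem_filter.2 ⟨Finset.mem_powerset.2 hc, e2⟩)

theorem GG_eq_GD (c : Bool) (z : ℕ) (D : ℝ) (a b : ℕ) (h : ((∏ p ∈ TT z a b, p : ℕ) : ℝ) ≤ D) :
    GG c z a b = GD c z D a b := by
  have h1 := PM2_diff c z D a b
  have h2 : (TT z a b).powerset.filter (fun U => ¬ (((∏ p ∈ U, p : ℕ) : ℝ) ≤ D)) = ∅ := by
    refine Finset.filter_eq_empty_iff.2 ?_
    intro U hU
    rw [not_not]
    refine le_trans ?_ h
    have hpos : 0 < ∏ p ∈ TT z a b, p := by
      refine Finset.prod_pos fun p hp => ?_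
      exact (Nat.prime_of_mem_primesLE (Finset.mem_filter.1 hp).1).pos
    exact_mod_cast Nat.le_of_dvd hpos
      (Finset.prod_dvd_prod_of_subset _ _ _ (Finset.mem_powerset.1 hU))
  rw [h2, Finset.sum_empty] at h1
  linarith

theorem GG_sub_GD_le (c : Bool) (z : ℕ) (D : ℝ) (a b : ℕ) :
    |GG c z a b - GD c z D a b| ≤ 3 ^ (TT z a b).card := by
  rw [PM2_diff]
  refine (Finset.abs_sum_le_sum_abs _ _).trans ?_
  have h1 : ∑ U ∈ (TT z a b).powerset, ∏ _p ∈ U, (2 : ℝ) = 3 ^ (TT z a b).card := by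
    rw [← Finset.prod_one_add, Finset.prod_const]
    norm_num
  rw [← h1]
  refine (Finset.sum_le_sum_of_subset_of_nonneg (Finset.filter_subset _ _)
    (fun _ _ _ => abs_nonneg _)).trans ?_
  refine Finset.sum_le_sum fun U _ => ?_
  rw [Finset.abs_prod]
  exact Finset.prod_le_prod (fun _ _ => abs_nonneg _) (fun p _ => abs_ker_le c p a b)

end Pool.Agent.Lib.SW
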