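import Pool.Agent.Lib.SW.PM.PM0

/-!
# PM-3: Rankin's trick, strong form

PROOFS.  `sum_rpow_le`: `∑_{n ≤ z} n^(σ-1) ≤ z^σ/σ` (`0 < σ ≤ 1`; `n^(σ-1) ≤ (n^σ - (n-1)^σ)/σ`, telescoping).
`sum_mult_le`: `∏_{p ≤ z, p ∣ n} g p = ∑_{d ∣ primorial z, d ∣ n} ∏_{p ∣ d} (g p - 1)`, so the sum over `1 ≤ n ≤ N` is at most
`∑_{d ∣ primorial z} (N/d) ∏_{p ∣ d} (g p - 1) = N ∏ (1 + (g p - 1)/p) ≤ N exp (∑ g p/p)`.
`rankin_strong`: `σ = 1/(2B)`, `D = X^(1/4)`: `∑_{d ∣ primorial z, d > D} c^ω(d)/d ≤ D^(-σ) ∏_{p ≤ z} (1 + c p^(σ-1)) ≤ X^(-σ/4) exp (c z^σ/σ)`,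
`z^σ ≤ (log X)^(1/2)`, `c ≤ (log X)^(1/4)`: `≤ X^(-1/(8B)) exp (2 B (log X)^(3/4)) ≤ X^(-1/(16 B))` for large `X`.
-/

set_option autoImplicit false

open Finset

namespace Pool.Agent.Lib.SW

theorem sum_rpow_le (z : ℕ) (σ : ℝ) (hσ : 0 < σ) (hσ1 : σ ≤ 1) :
    ∑ n ∈ Icc 1 z, (n : ℝ) ^ (σ - 1) ≤ (z : ℝ) ^ σ / σ := by
  induction z with
  | zero => simp [Real.zero_rpow hσ.ne']
  | succ z ih =>
    rw [Finset.sum_Icc_succ_top (by omega)]
    have hn0 : (0 : ℝ) < ((z + 1 : ℕ) : ℝ) := by positivity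
    have hb : (1 + (-(1 / ((z + 1 : ℕ) : ℝ)))) ^ σ ≤ 1 + σ * (-(1 / ((z + 1 : ℕ) : ℝ))) := by
      apply rpow_one_add_le_one_add_mul_self _ hσ.le hσ1
      rw [neg_le_neg_iff, div_le_one hn0]
      push_cast
      have : (0 : ℝ) ≤ z := Nat.cast_nonneg z
      linarith
    have hz : (z : ℝ) = ((z + 1 : ℕ) : ℝ) * (1 + (-(1 / ((z + 1 : ℕ) : ℝ)))) := by
      field_simp
      push_cast
      ring
    have h1 : (z : ℝ) ^ σ ≤ ((z + 1 : ℕ) : ℝ) ^ σ - σ * ((z + 1 : ℕ) : ℝ) ^ (σ - 1) := by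
      have hnn : 0 ≤ 1 + (-(1 / ((z + 1 : ℕ) : ℝ))) := by
        have : 1 / ((z + 1 : ℕ) : ℝ) ≤ 1 := by
          rw [div_le_one hn0]
          push_cast
          have : (0 : ℝ) ≤ z := Nat.cast_nonneg z
          linarith
        linarith
      calc (z : ℝ) ^ σ = ((z + 1 : ℕ) : ℝ) ^ σ * (1 + (-(1 / ((z + 1 : ℕ) : ℝ)))) ^ σ := by
            rw [← Real.mul_rpow hn0.le hnn, ← hz]
        _ ≤ ((z + 1 : ℕ) : ℝ) ^ σ * (1 + σ * (-(1 / ((z + 1 : ℕ) : ℝ)))) :=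
            mul_le_mul_of_nonneg_left hb (by positivity)
        _ = ((z + 1 : ℕ) : ℝ) ^ σ - σ * ((z + 1 : ℕ) : ℝ) ^ (σ - 1) := by
            rw [Real.rpow_sub hn0, Real.rpow_one]
            ring
    have h2 : ((z + 1 : ℕ) : ℝ) ^ (σ - 1) ≤
        (((z + 1 : ℕ) : ℝ) ^ σ - (z : ℝ) ^ σ) / σ := by
      rw [le_div_iff₀ hσ]
      linarith
    calc ∑ n ∈ Icc 1 z, (n : ℝ) ^ (σ - 1) + ((z + 1 : ℕ) : ℝ) ^ (σ - 1)
        ≤ (z : ℝ) ^ σ / σ + (((z + 1 : ℕ) : ℝ) ^ σ - (z : ℝ) ^ σ) / σ := add_le_add ih h2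
      _ = ((z + 1 : ℕ) : ℝ) ^ σ / σ := by ring

theorem sum_mult_le (z N : ℕ) (g : ℕ → ℝ) (hg : ∀ p, 1 ≤ g p) :
    ∑ n ∈ Icc 1 N, ∏ p ∈ (Nat.primesLE z).filter (fun p => p ∣ n), g p ≤
      N * Real.exp (∑ p ∈ Nat.primesLE z, g p / p) := by
  classical
  have hprime : ∀ p ∈ Nat.primesLE z, p.Prime := fun p hp => (Nat.mem_primesLE.mp hp).2
  have hdvd : ∀ (S : Finset ℕ), S ⊆ Nat.primesLE z → ∀ n : ℕ,
      ((∏ p ∈ S, p) ∣ n ↔ ∀ p ∈ S, p ∣ n) := by
    intro S hS n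
    constructor
    · intro h p hp
      exact (Finset.dvd_prod_of_mem _ hp).trans h
    · intro h
      apply Finset.prod_primes_dvd
      · intro p hp
        exact (hprime p (hS hp)).prime
      · exact h
  have h1 : ∀ n : ℕ, ∏ p ∈ (Nat.primesLE z).filter (fun p => p ∣ n), g p =
      ∑ S ∈ (Nat.primesLE z).powerset, if (∏ p ∈ S, p) ∣ n then ∏ p ∈ S, (g p - 1) else 0 := by
    intro n
    have e1 : ∏ p ∈ (Nat.primesLE z).filter (fun p => p ∣ n), g p =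
        ∏ p ∈ (Nat.primesLE z).filter (fun p => p ∣ n), (1 + (g p - 1)) :=
      Finset.prod_congr rfl fun p _ => by ring
    rw [e1, Finset.prod_one_add, ← Finset.sum_filter]
    apply Finset.sum_congr _ fun S _ => rfl
    ext S
    simp only [Finset.mem_powerset, Finset.mem_filter]
    constructor
    · intro h
      have hS : S ⊆ Nat.primesLE z := h.trans (Finset.filter_subset _ _)
      refine ⟨hS, (hdvd S hS n).2 fun p hp => ?_⟩
      exact (Finset.mem_filter.mp (h hp)).2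
    · rintro ⟨hS, hd⟩ p hp
      exact Finset.mem_filter.mpr ⟨hS hp, (hdvd S hS n).1 hd p hp⟩
  have hcnt : ∀ m : ℕ, (((Icc 1 N).filter (fun n => m ∣ n)).card : ℝ) ≤ N / m := by
    intro m
    have e : (Icc 1 N) = Ioc 0 N := by ext; simp [Nat.succ_le_iff]
    rw [e, Nat.Ioc_filter_dvd_card_eq_div]
    exact Nat.cast_div_le
  calc ∑ n ∈ Icc 1 N, ∏ p ∈ (Nat.primesLE z).filter (fun p => p ∣ n), g p
      = ∑ n ∈ Icc 1 N, ∑ S ∈ (Nat.primesLE z).powerset,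
          if (∏ p ∈ S, p) ∣ n then ∏ p ∈ S, (g p - 1) else 0 :=
        Finset.sum_congr rfl fun n _ => h1 n
    _ = ∑ S ∈ (Nat.primesLE z).powerset, ∑ n ∈ Icc 1 N,
          if (∏ p ∈ S, p) ∣ n then ∏ p ∈ S, (g p - 1) else 0 := Finset.sum_comm
    _ ≤ ∑ S ∈ (Nat.primesLE z).powerset, N * ∏ p ∈ S, ((g p - 1) / p) := by
        refine Finset.sum_le_sum fun S hS => ?_
        rw [← Finset.sum_filter, Finset.sum_const, nsmul_eq_mul, Finset.prod_div_distrib]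
        have hnn : 0 ≤ ∏ p ∈ S, (g p - 1) :=
          Finset.prod_nonneg fun p _ => by linarith [hg p]
        have h2 := hcnt (∏ p ∈ S, p)
        push_cast at h2
        calc (((Icc 1 N).filter (fun n => (∏ p ∈ S, p) ∣ n)).card : ℝ) * ∏ p ∈ S, (g p - 1)
            ≤ (N / ∏ p ∈ S, (p : ℝ)) * ∏ p ∈ S, (g p - 1) :=
              mul_le_mul_of_nonneg_right h2 hnn
          _ = N * ((∏ p ∈ S, (g p - 1)) / ∏ p ∈ S, (p : ℝ)) := by ring
    _ = N * ∏ p ∈ Nat.primesLE z, (1 + (g p - 1) / p) := by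
        rw [← Finset.mul_sum, Finset.prod_one_add]
    _ ≤ N * Real.exp (∑ p ∈ Nat.primesLE z, g p / p) := by
        apply mul_le_mul_of_nonneg_left _ (Nat.cast_nonneg N)
        rw [Real.exp_sum]
        refine Finset.prod_le_prod (fun p hp => ?_) fun p hp => ?_
        · have : 0 ≤ (g p - 1) / p := div_nonneg (by linarith [hg p]) (Nat.cast_nonneg p)
          linarith
        · have h3 := Real.add_one_le_exp (g p / p)
          have h4 : (g p - 1) / p ≤ g p / p :=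
            div_le_div_of_nonneg_right (by linarith) (Nat.cast_nonneg p)
          linarith

theorem PM3_sum_divisors (W : ℕ) (hW : Squarefree W) (f : ℕ → ℝ) :
    ∑ d ∈ W.divisors, ∏ p ∈ d.primeFactors, f p = ∏ p ∈ W.primeFactors, (1 + f p) := by
  have hmult : (ArithmeticFunction.prodPrimeFactors f).IsMultiplicative :=
    ArithmeticFunction.IsMultiplicative.prodPrimeFactors _
  have h1 : ∀ p ∈ W.primeFactors, 1 + f p
      = 1 + ArithmeticFunction.prodPrimeFactors f p := by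
    intro p hp
    have hpp := Nat.prime_of_mem_primeFactors hp
    rw [ArithmeticFunction.prodPrimeFactors_apply hpp.ne_zero, hpp.primeFactors,
      Finset.prod_singleton]
  rw [Finset.prod_congr rfl h1, hmult.prodPrimeFactors_one_add_of_squarefree hW]
  refine Finset.sum_congr rfl fun d hd => ?_
  have hd0 : d ≠ 0 := (Nat.pos_of_mem_divisors hd).ne'
  rw [ArithmeticFunction.prodPrimeFactors_apply hd0]

theorem PM3_prod_le (z : ℕ) (c σ : ℝ) (hc : 0 ≤ c) (hσ : 0 < σ) (hσ1 : σ ≤ 1) :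
    ∏ p ∈ (primorial z).primeFactors, (1 + c * (p : ℝ) ^ (σ - 1)) ≤
      Real.exp (c * ((z : ℝ) ^ σ / σ)) := by
  have h1 : ∏ p ∈ (primorial z).primeFactors, (1 + c * (p : ℝ) ^ (σ - 1))
      ≤ ∏ p ∈ (primorial z).primeFactors, Real.exp (c * (p : ℝ) ^ (σ - 1)) := by
    refine Finset.prod_le_prod (fun p _ => by positivity) fun p _ => ?_
    have := Real.add_one_le_exp (c * (p : ℝ) ^ (σ - 1))
    linarith
  refine h1.trans ?_
  rw [← Real.exp_sum, ← Finset.mul_sum]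
  apply Real.exp_le_exp.mpr
  apply mul_le_mul_of_nonneg_left _ hc
  refine le_trans ?_ (sum_rpow_le z σ hσ hσ1)
  refine Finset.sum_le_sum_of_subset_of_nonneg (fun p hp => ?_) fun _ _ _ => by positivity
  have hpp := Nat.prime_of_mem_primeFactors hp
  have hpz : p ≤ z := hpp.dvd_primorial_iff.1 (Nat.dvd_of_mem_primeFactors hp)
  exact Finset.mem_Icc.mpr ⟨hpp.one_le, hpz⟩

theorem rankin_strong (B : ℕ) (hB : 1 ≤ B) : ∃ X₀ : ℕ, ∀ X : ℕ, X₀ ≤ X → ∀ c : ℝ, 1 ≤ c →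
    c ≤ (Real.log X) ^ (1 / 4 : ℝ) →
      ∑ d ∈ (primorial (zB B X)).divisors.filter (fun d : ℕ => (X : ℝ) ^ (1 / 4 : ℝ) < d),
        c ^ d.primeFactors.card / (d : ℝ) ≤ (X : ℝ) ^ (-(1 / (16 * B : ℝ))) := by
  refine ⟨⌈Real.exp ((32 * (B : ℝ) ^ 2) ^ 4)⌉₊, fun X hX c hc1 hc => ?_⟩
  have hB1 : (1 : ℝ) ≤ B := by exact_mod_cast hB
  have hB0 : (0 : ℝ) < B := by linarith
  have hXe : Real.exp ((32 * (B : ℝ) ^ 2) ^ 4) ≤ X := Nat.ceil_le.mp hX
  have hX0 : (0 : ℝ) < X := lt_of_lt_of_le (Real.exp_pos _) hXe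
  set L : ℝ := Real.log X with hL
  have hLbig : (32 * (B : ℝ) ^ 2) ^ 4 ≤ L := by
    rw [hL, Real.le_log_iff_exp_le hX0]
    exact hXe
  have hL0 : 0 < L := lt_of_lt_of_le (by positivity) hLbig
  set z : ℕ := zB B X with hz
  set σ : ℝ := 1 / (2 * B) with hσ
  have hσ0 : 0 < σ := by rw [hσ]; positivity
  have hσ1 : σ ≤ 1 := by
    rw [hσ, div_le_one (by positivity)]
    linarith
  set D : ℝ := (X : ℝ) ^ (1 / 4 : ℝ) with hD
  have hD0 : 0 < D := by rw [hD]; positivity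
  have hc0 : 0 ≤ c := by linarith
  have hsqf := TS1_sqf z
  have hsum : ∑ d ∈ (primorial z).divisors.filter (fun d : ℕ => D < d),
        c ^ d.primeFactors.card / (d : ℝ)
      ≤ D ^ (-σ) * ∏ p ∈ (primorial z).primeFactors, (1 + c * (p : ℝ) ^ (σ - 1)) := by
    rw [← PM3_sum_divisors _ hsqf (fun p => c * (p : ℝ) ^ (σ - 1)), Finset.mul_sum]
    have hterm : ∀ d ∈ (primorial z).divisors,
        ∏ p ∈ d.primeFactors, (c * (p : ℝ) ^ (σ - 1)) =
          c ^ d.primeFactors.card * (d : ℝ) ^ (σ - 1) := by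
      intro d hd
      have hds : Squarefree d := hsqf.squarefree_of_dvd (Nat.dvd_of_mem_divisors hd)
      rw [Finset.prod_mul_distrib, Finset.prod_const,
        Real.finsetProd_rpow _ _ (fun i _ => Nat.cast_nonneg i)]
      congr 2
      rw [← Nat.cast_prod, Nat.prod_primeFactors_of_squarefree hds]
    calc ∑ d ∈ (primorial z).divisors.filter (fun d : ℕ => D < d),
          c ^ d.primeFactors.card / (d : ℝ)
        ≤ ∑ d ∈ (primorial z).divisors.filter (fun d : ℕ => D < d),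
            D ^ (-σ) * ∏ p ∈ d.primeFactors, (c * (p : ℝ) ^ (σ - 1)) := by
          refine Finset.sum_le_sum fun d hd => ?_
          rw [Finset.mem_filter] at hd
          have hd0 : (0 : ℝ) < d := lt_trans hD0 hd.2
          rw [hterm d hd.1, Real.rpow_sub hd0, Real.rpow_one, Real.rpow_neg hD0.le]
          have h1 : 1 ≤ (D ^ σ)⁻¹ * (d : ℝ) ^ σ := by
            rw [← div_eq_inv_mul, le_div_iff₀ (by positivity), one_mul]
            exact Real.rpow_le_rpow hD0.le hd.2.le hσ0.le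
          have h2 : 0 ≤ c ^ d.primeFactors.card / (d : ℝ) := by positivity
          calc c ^ d.primeFactors.card / (d : ℝ)
              = 1 * (c ^ d.primeFactors.card / (d : ℝ)) := (one_mul _).symm
            _ ≤ ((D ^ σ)⁻¹ * (d : ℝ) ^ σ) * (c ^ d.primeFactors.card / (d : ℝ)) :=
                mul_le_mul_of_nonneg_right h1 h2
            _ = _ := by ring
      _ ≤ _ := by
          refine Finset.sum_le_sum_of_subset_of_nonneg (Finset.filter_subset _ _) ?_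
          intro d _ _
          have : 0 ≤ ∏ p ∈ d.primeFactors, (c * (p : ℝ) ^ (σ - 1)) :=
            Finset.prod_nonneg fun p _ => by positivity
          positivity
  have hzL : (z : ℝ) ≤ L ^ B := by
    rw [hz]
    unfold zB
    exact Nat.floor_le (by positivity)
  have hzσ : (z : ℝ) ^ σ ≤ L ^ (1 / 2 : ℝ) := by
    calc (z : ℝ) ^ σ ≤ (L ^ B) ^ σ := Real.rpow_le_rpow (Nat.cast_nonneg z) hzL hσ0.le
      _ = L ^ (1 / 2 : ℝ) := by
          rw [← Real.rpow_natCast, ← Real.rpow_mul hL0.le]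
          congr 1
          rw [hσ]
          field_simp
  have hexp : c * ((z : ℝ) ^ σ / σ) ≤ L / (16 * B) := by
    have h1 : c * ((z : ℝ) ^ σ / σ) ≤ L ^ (1 / 4 : ℝ) * (L ^ (1 / 2 : ℝ) / σ) := by
      apply mul_le_mul hc _ (by positivity) (by positivity)
      exact div_le_div_of_nonneg_right hzσ hσ0.le
    refine h1.trans ?_
    have h2 : L = L ^ (1 / 4 : ℝ) * L ^ (1 / 4 : ℝ) * L ^ (1 / 2 : ℝ) := by
      rw [← Real.rpow_add hL0, ← Real.rpow_add hL0]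
      norm_num
    have h3 : 32 * (B : ℝ) ^ 2 ≤ L ^ (1 / 4 : ℝ) := by
      have h4 : ((32 * (B : ℝ) ^ 2) ^ 4) ^ (1 / 4 : ℝ) ≤ L ^ (1 / 4 : ℝ) :=
        Real.rpow_le_rpow (by positivity) hLbig (by norm_num)
      rw [← Real.rpow_natCast, ← Real.rpow_mul (by positivity)] at h4
      norm_num at h4 ⊢
      exact h4
    have h5 : L / (16 * B) = L ^ (1 / 4 : ℝ) * L ^ (1 / 4 : ℝ) * L ^ (1 / 2 : ℝ) / (16 * B) := by
      rw [← h2]
    rw [h5, hσ, le_div_iff₀ (by positivity)]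
    have h6 : 0 ≤ L ^ (1 / 4 : ℝ) * L ^ (1 / 2 : ℝ) := by positivity
    calc L ^ (1 / 4 : ℝ) * (L ^ (1 / 2 : ℝ) / (1 / (2 * B))) * (16 * B)
        = (32 * (B : ℝ) ^ 2) * (L ^ (1 / 4 : ℝ) * L ^ (1 / 2 : ℝ)) := by
          field_simp
          ring
      _ ≤ L ^ (1 / 4 : ℝ) * (L ^ (1 / 4 : ℝ) * L ^ (1 / 2 : ℝ)) :=
          mul_le_mul_of_nonneg_right h3 h6
      _ = _ := by ring
  have hDσ : D ^ (-σ) = Real.exp (-(L / (8 * B))) := by
    rw [hD, ← Real.rpow_mul hX0.le, Real.rpow_def_of_pos hX0, ← hL]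
    congr 1
    rw [hσ]
    field_simp
    ring
  have hfin : (X : ℝ) ^ (-(1 / (16 * B : ℝ))) = Real.exp (-(L / (16 * B))) := by
    rw [Real.rpow_def_of_pos hX0, ← hL]
    congr 1
    ring
  rw [hfin]
  calc ∑ d ∈ (primorial z).divisors.filter (fun d : ℕ => D < d),
        c ^ d.primeFactors.card / (d : ℝ)
      ≤ D ^ (-σ) * ∏ p ∈ (primorial z).primeFactors, (1 + c * (p : ℝ) ^ (σ - 1)) := hsum
    _ ≤ Real.exp (-(L / (8 * B))) * Real.exp (L / (16 * B)) := by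
        rw [hDσ]
        apply mul_le_mul_of_nonneg_left _ (Real.exp_pos _).le
        exact (PM3_prod_le z c σ hc0 hσ0 hσ1).trans (Real.exp_le_exp.mpr hexp)
    _ = Real.exp (-(L / (16 * B))) := by
        rw [← Real.exp_add]
        congr 1
        field_simp
        ring

end Pool.Agent.Lib.SW
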