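import Pool.Agent.Lib.SW.PM.PM3

/-!
# PM-3b: the pairs for which the truncation matters

PROOF.  `σ = 1/(8B)`, `D = X^(1/4)`, `z = zB B X`.  For `∏_{p ∈ TT} p > D`:
`3^#TT ≤ D^(-σ) ∏_{p ∈ TT} (3 p^σ) ≤ D^(-σ) F(n₁) F(n₂) F(n₃) F(n₄)`, `F(n) = ∏_{p ≤ z, p ∣ n} 3 p^σ` (all factors `≥ 1`; each `p ∈ TT` divides at least one
of `n₁ = |a-b|`, `n₂ = a+b`, `n₃ = |a-2b|`, `n₄ = |2a-b|`), and a product of four nonnegative numbers is `≤ (1/4) ∑` of the fourth powers.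
For fixed `b` the map `a ↦ n_i` takes each value at most twice, the values are in `[1, 3X]`: `∑_{a,b} F(n_i)^4 ≤ 2 X ∑_{1 ≤ n ≤ 3X} F(n)^4`
`≤ 2X · 3X exp (∑_{p ≤ z} 81 p^(4σ)/p) ≤ 6 X² exp (81 z^(4σ)/(4σ))` (`sum_mult_le`, `sum_rpow_le`), `z^(4σ) ≤ (log X)^(1/2)`.
Total `≤ 6 X^(2 - σ/4) exp (162 B (log X)^(1/2)) ≤ X^(2 - 1/(64 B))`.
-/

set_option autoImplicit false

open Finset

namespace Pool.Agent.Lib.SW

theorem PM3b_amgm {a b c d : ℝ} :
    a * b * c * d ≤ (1 / 4) * (a ^ 4 + b ^ 4 + c ^ 4 + d ^ 4) := by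
  have h1 : a * b * c * d ≤ ((a * b) ^ 2 + (c * d) ^ 2) / 2 := by
    nlinarith [sq_nonneg (a * b - c * d)]
  have h2 : (a * b) ^ 2 ≤ (a ^ 4 + b ^ 4) / 2 := by nlinarith [sq_nonneg (a ^ 2 - b ^ 2)]
  have h3 : (c * d) ^ 2 ≤ (c ^ 4 + d ^ 4) / 2 := by nlinarith [sq_nonneg (c ^ 2 - d ^ 2)]
  linarith

/-- the multiplicative weight -/
noncomputable def PM3b_F (z : ℕ) (σ : ℝ) (n : ℕ) : ℝ :=
  ∏ p ∈ (Nat.primesLE z).filter (fun p => p ∣ n), (3 * (p : ℝ) ^ σ)

noncomputable def PM3b_G (z : ℕ) (σ : ℝ) (n : ℕ) : ℝ := if n = 0 then 0 else PM3b_F z σ n ^ 4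

/-- the distance of two natural numbers -/
def PM3b_d (x y : ℕ) : ℕ := (x - y) + (y - x)

theorem PM3b_G_nonneg (z : ℕ) (σ : ℝ) (n : ℕ) : 0 ≤ PM3b_G z σ n := by
  unfold PM3b_G
  split_ifs
  · exact le_rfl
  · positivity

theorem PM3b_inj_sum {S T : Finset ℕ} {f : ℕ → ℕ} {G : ℕ → ℝ} (hG : ∀ n, 0 ≤ G n)
    (hinj : Set.InjOn f S) (hmap : ∀ a ∈ S, f a ∈ T) : ∑ a ∈ S, G (f a) ≤ ∑ n ∈ T, G n := by
  rw [← Finset.sum_image (f := G) hinj]
  refine Finset.sum_le_sum_of_subset_of_nonneg ?_ fun n _ _ => hG n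
  intro n hn
  rw [Finset.mem_image] at hn
  obtain ⟨a, ha, rfl⟩ := hn
  exact hmap a ha

theorem PM3b_dist_sum {S : Finset ℕ} {u : ℕ → ℕ} {G : ℕ → ℝ} (hG : ∀ n, 0 ≤ G n)
    (hu : Function.Injective u) {y N : ℕ} (huN : ∀ a ∈ S, u a ≤ N) (hy : y ≤ N) :
    ∑ a ∈ S, G (PM3b_d (u a) y) ≤ 2 * ∑ n ∈ range (N + 1), G n := by
  rw [← Finset.sum_filter_add_sum_filter_not S (fun a => u a < y)]
  have h1 : ∑ a ∈ S.filter (fun a => u a < y), G (PM3b_d (u a) y) ≤
      ∑ n ∈ range (N + 1), G n := by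
    apply PM3b_inj_sum hG
    · intro a ha b hb hab
      have ha' : u a < y := (Finset.mem_filter.mp ha).2
      have hb' : u b < y := (Finset.mem_filter.mp hb).2
      apply hu
      simp only [PM3b_d] at hab
      omega
    · intro a ha
      have ha' : u a < y := (Finset.mem_filter.mp ha).2
      rw [Finset.mem_range, PM3b_d]
      omega
  have h2 : ∑ a ∈ S.filter (fun a => ¬ u a < y), G (PM3b_d (u a) y) ≤
      ∑ n ∈ range (N + 1), G n := by
    apply PM3b_inj_sum hG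
    · intro a ha b hb hab
      have ha' : ¬ u a < y := (Finset.mem_filter.mp ha).2
      have hb' : ¬ u b < y := (Finset.mem_filter.mp hb).2
      apply hu
      simp only [PM3b_d] at hab
      omega
    · intro a ha
      have ha' : ¬ u a < y := (Finset.mem_filter.mp ha).2
      have ha2 := huN a (Finset.mem_filter.mp ha).1
      rw [Finset.mem_range, PM3b_d]
      omega
  linarith

theorem PM3b_prime {z p : ℕ} (hp : p ∈ Nat.primesLE z) : p.Prime := by
  rw [Nat.mem_primesLE] at hp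
  exact hp.2

theorem PM3b_one_le {p : ℕ} (hp : p.Prime) {σ : ℝ} (hσ : 0 ≤ σ) : 1 ≤ 3 * (p : ℝ) ^ σ := by
  have h1 : (1 : ℝ) ≤ p := by exact_mod_cast hp.one_le
  have h2 : (1 : ℝ) ≤ (p : ℝ) ^ σ := Real.one_le_rpow h1 hσ
  linarith

theorem PM3b_F_nonneg (z : ℕ) (σ : ℝ) (n : ℕ) : 0 ≤ PM3b_F z σ n := by
  unfold PM3b_F
  exact Finset.prod_nonneg fun p _ => by positivity

/-- each prime of `TT` divides one of the four forms -/
theorem PM3b_dvd {z a b p : ℕ} (hp : p ∈ TT z a b) :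
    p ∣ PM3b_d a b ∨ p ∣ a + b ∨ p ∣ PM3b_d a (2 * b) ∨ p ∣ PM3b_d (2 * a) b := by
  have key : ∀ x y : ℕ, x % p = y % p → p ∣ PM3b_d x y := by
    intro x y h
    unfold PM3b_d
    rcases Nat.le_total x y with hxy | hxy
    · rw [Nat.sub_eq_zero_of_le hxy, zero_add]
      exact (Nat.modEq_iff_dvd' hxy).mp h
    · rw [Nat.sub_eq_zero_of_le hxy, add_zero]
      exact (Nat.modEq_iff_dvd' hxy).mp h.symm
  unfold TT at hp
  rw [Finset.mem_filter] at hp
  rcases hp.2 with h | h | h | h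
  · exact Or.inl (key _ _ h)
  · exact Or.inr (Or.inl (Nat.dvd_of_mod_eq_zero h))
  · exact Or.inr (Or.inr (Or.inl (key _ _ h)))
  · exact Or.inr (Or.inr (Or.inr (key _ _ h.symm)))

theorem PM3b_prod {z a b : ℕ} {σ : ℝ} (hσ : 0 ≤ σ) :
    ∏ p ∈ TT z a b, (3 * (p : ℝ) ^ σ) ≤ PM3b_F z σ (PM3b_d a b) * PM3b_F z σ (a + b) *
      PM3b_F z σ (PM3b_d a (2 * b)) * PM3b_F z σ (PM3b_d (2 * a) b) := by
  classical
  have h0 : TT z a b = (Nat.primesLE z).filter (fun p => p ∈ TT z a b) := by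
    ext p
    rw [Finset.mem_filter]
    constructor
    · intro h
      refine ⟨?_, h⟩
      unfold TT at h
      exact (Finset.mem_filter.mp h).1
    · exact fun h => h.2
  rw [h0, Finset.prod_filter]
  unfold PM3b_F
  rw [Finset.prod_filter, Finset.prod_filter, Finset.prod_filter, Finset.prod_filter,
    ← Finset.prod_mul_distrib, ← Finset.prod_mul_distrib, ← Finset.prod_mul_distrib]
  refine Finset.prod_le_prod ?_ ?_
  · intro p _
    split_ifs
    · positivity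
    · exact zero_le_one
  · intro p hp
    have hpp := PM3b_prime hp
    have h1 := PM3b_one_le hpp hσ
    set h : ℝ := 3 * (p : ℝ) ^ σ with hh
    have hone : ∀ P : Prop, [Decidable P] → (1 : ℝ) ≤ if P then h else 1 := by
      intro P _
      split_ifs
      · exact h1
      · exact le_rfl
    have hx1 := hone (p ∣ PM3b_d a b)
    have hx2 := hone (p ∣ a + b)
    have hx3 := hone (p ∣ PM3b_d a (2 * b))
    have hx4 := hone (p ∣ PM3b_d (2 * a) b)
    have h12 := one_le_mul_of_one_le_of_one_le hx1 hx2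
    have h123 := one_le_mul_of_one_le_of_one_le h12 hx3
    by_cases hT : p ∈ TT z a b
    · rw [if_pos hT]
      rcases PM3b_dvd hT with h5 | h5 | h5 | h5
      · rw [if_pos h5, mul_assoc, mul_assoc]
        refine le_mul_of_one_le_right (by linarith) ?_
        exact one_le_mul_of_one_le_of_one_le hx2 (one_le_mul_of_one_le_of_one_le hx3 hx4)
      · rw [if_pos h5, mul_assoc, mul_assoc]
        refine le_trans ?_ (le_mul_of_one_le_left ?_ hx1)
        · refine le_mul_of_one_le_right (by linarith) ?_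
          exact one_le_mul_of_one_le_of_one_le hx3 hx4
        · have := one_le_mul_of_one_le_of_one_le hx3 hx4
          positivity
      · rw [if_pos h5]
        refine le_trans ?_ (le_mul_of_one_le_right ?_ hx4)
        · exact le_mul_of_one_le_left (by linarith) h12
        · have : (0 : ℝ) ≤ h := by linarith
          exact mul_nonneg (by linarith) this
      · rw [if_pos h5]
        exact le_mul_of_one_le_left (by linarith) h123
    · rw [if_neg hT]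
      exact one_le_mul_of_one_le_of_one_le h123 hx4

theorem PM3b_term {z a b : ℕ} {σ D : ℝ} (hσ : 0 ≤ σ) (hD : 0 < D)
    (h1 : a ≠ b) (h2 : a ≠ 2 * b) (h3 : b ≠ 2 * a)
    (hT : D < ((∏ p ∈ TT z a b, p : ℕ) : ℝ)) :
    (3 : ℝ) ^ (TT z a b).card ≤ D ^ (-σ) * ((1 / 4) * (PM3b_G z σ (PM3b_d a b) +
      PM3b_G z σ (a + b) + PM3b_G z σ (PM3b_d a (2 * b)) + PM3b_G z σ (PM3b_d (2 * a) b))) := by
  have hb : a + b ≠ 0 := by omega
  have g1 : PM3b_G z σ (PM3b_d a b) = PM3b_F z σ (PM3b_d a b) ^ 4 := by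
    unfold PM3b_G
    rw [if_neg]
    unfold PM3b_d
    omega
  have g2 : PM3b_G z σ (a + b) = PM3b_F z σ (a + b) ^ 4 := by
    unfold PM3b_G
    rw [if_neg hb]
  have g3 : PM3b_G z σ (PM3b_d a (2 * b)) = PM3b_F z σ (PM3b_d a (2 * b)) ^ 4 := by
    unfold PM3b_G
    rw [if_neg]
    unfold PM3b_d
    omega
  have g4 : PM3b_G z σ (PM3b_d (2 * a) b) = PM3b_F z σ (PM3b_d (2 * a) b) ^ 4 := by
    unfold PM3b_G
    rw [if_neg]
    unfold PM3b_d
    omega
  rw [g1, g2, g3, g4]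
  have h4 : (3 : ℝ) ^ (TT z a b).card ≤ D ^ (-σ) * ∏ p ∈ TT z a b, (3 * (p : ℝ) ^ σ) := by
    rw [Finset.prod_mul_distrib, Finset.prod_const, Real.finset_prod_rpow _ _
      (fun p _ => Nat.cast_nonneg p)]
    have h5 : ((∏ p ∈ TT z a b, p : ℕ) : ℝ) = ∏ p ∈ TT z a b, (p : ℝ) := by push_cast; rfl
    rw [← h5]
    have h6 : (1 : ℝ) ≤ D ^ (-σ) * ((∏ p ∈ TT z a b, p : ℕ) : ℝ) ^ σ := by
      rw [Real.rpow_neg hD.le, inv_mul_eq_div, one_le_div (Real.rpow_pos_of_pos hD _)]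
      exact Real.rpow_le_rpow hD.le hT.le hσ
    calc (3 : ℝ) ^ (TT z a b).card = 3 ^ (TT z a b).card * 1 := (mul_one _).symm
      _ ≤ 3 ^ (TT z a b).card * (D ^ (-σ) * ((∏ p ∈ TT z a b, p : ℕ) : ℝ) ^ σ) :=
          mul_le_mul_of_nonneg_left h6 (by positivity)
      _ = _ := by ring
  refine h4.trans (mul_le_mul_of_nonneg_left ?_ (Real.rpow_nonneg hD.le _))
  exact (PM3b_prod hσ).trans PM3b_amgm

theorem PM3b_sumG (z N : ℕ) {σ : ℝ} (hσ : 0 < σ) (hσ1 : 4 * σ ≤ 1) :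
    ∑ n ∈ range (N + 1), PM3b_G z σ n ≤ N * Real.exp (81 * ((z : ℝ) ^ (4 * σ) / (4 * σ))) := by
  set g : ℕ → ℝ := fun p => 81 * (max (p : ℝ) 1) ^ (4 * σ) with hg
  have hg1 : ∀ p, 1 ≤ g p := by
    intro p
    have h2 : (1 : ℝ) ≤ (max (p : ℝ) 1) ^ (4 * σ) :=
      Real.one_le_rpow (le_max_right _ _) (by linarith)
    simp only [hg]
    linarith
  have hgp : ∀ p : ℕ, p.Prime → (3 * (p : ℝ) ^ σ) ^ 4 = g p := by
    intro p hp
    have h1 : (1 : ℝ) ≤ p := by exact_mod_cast hp.one_le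
    simp only [hg]
    rw [max_eq_left h1, mul_pow, mul_comm 4 σ, Real.rpow_mul (by linarith)]
    norm_num
  have h1 : ∑ n ∈ range (N + 1), PM3b_G z σ n ≤
      ∑ n ∈ Icc 1 N, ∏ p ∈ (Nat.primesLE z).filter (fun p => p ∣ n), g p := by
    have h2 : ∑ n ∈ range (N + 1), PM3b_G z σ n =
        ∑ n ∈ (range (N + 1)).filter (fun n => n ≠ 0), PM3b_F z σ n ^ 4 := by
      rw [Finset.sum_filter]
      refine Finset.sum_congr rfl fun n _ => ?_
      unfold PM3b_G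
      by_cases h : n = 0
      · rw [if_pos h, if_neg (fun h' => h' h)]
      · rw [if_neg h, if_pos h]
    rw [h2]
    have h3 : (range (N + 1)).filter (fun n => n ≠ 0) = Icc 1 N := by
      ext n
      rw [Finset.mem_filter, Finset.mem_range, Finset.mem_Icc]
      omega
    rw [h3]
    refine Finset.sum_le_sum fun n _ => ?_
    unfold PM3b_F
    rw [← Finset.prod_pow]
    refine le_of_eq (Finset.prod_congr rfl fun p hp => ?_)
    exact hgp p (PM3b_prime (Finset.mem_filter.mp hp).1)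
  refine h1.trans ((sum_mult_le z N g hg1).trans ?_)
  refine mul_le_mul_of_nonneg_left ?_ (Nat.cast_nonneg N)
  apply Real.exp_le_exp.mpr
  have h4 : ∑ p ∈ Nat.primesLE z, g p / p ≤ ∑ n ∈ Icc 1 z, 81 * (n : ℝ) ^ (4 * σ - 1) := by
    have h5 : ∑ p ∈ Nat.primesLE z, g p / p =
        ∑ p ∈ Nat.primesLE z, 81 * (p : ℝ) ^ (4 * σ - 1) := by
      refine Finset.sum_congr rfl fun p hp => ?_
      have hpp := PM3b_prime hp
      have hp1 : (1 : ℝ) ≤ p := by exact_mod_cast hpp.one_le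
      simp only [hg]
      rw [max_eq_left hp1, Real.rpow_sub_one (by linarith)]
      ring
    rw [h5]
    refine Finset.sum_le_sum_of_subset_of_nonneg ?_ fun n _ _ => by positivity
    intro p hp
    have hpp := PM3b_prime hp
    rw [Nat.mem_primesLE] at hp
    rw [Finset.mem_Icc]
    exact ⟨hpp.one_le, hp.1⟩
  refine h4.trans ?_
  rw [← Finset.mul_sum]
  exact mul_le_mul_of_nonneg_left (sum_rpow_le z (4 * σ) (by linarith) hσ1) (by norm_num)

open Classical in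
theorem bad_mass (B : ℕ) (hB : 1 ≤ B) : ∃ X₀ : ℕ, ∀ X : ℕ, X₀ ≤ X →
    ∑ a ∈ Icc 1 X, ∑ b ∈ Icc 1 X,
      (if a ≠ b ∧ a ≠ 2 * b ∧ b ≠ 2 * a ∧
          (X : ℝ) ^ (1 / 4 : ℝ) < ((∏ p ∈ TT (zB B X) a b, p : ℕ) : ℝ)
        then (3 : ℝ) ^ (TT (zB B X) a b).card else 0) ≤ (X : ℝ) ^ (2 - 1 / (64 * B : ℝ)) := by
  have hB' : (1 : ℝ) ≤ B := by exact_mod_cast hB
  set Q : ℝ := 64 * B * (162 * B + 2) with hQ
  refine ⟨⌈Real.exp (Q ^ 2)⌉₊, fun X hX => ?_⟩
  have hXe : Real.exp (Q ^ 2) ≤ X := (Nat.le_ceil _).trans (by exact_mod_cast hX)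
  have hX0 : (0 : ℝ) < X := lt_of_lt_of_le (Real.exp_pos _) hXe
  have hL : Q ^ 2 ≤ Real.log X := by
    rw [Real.le_log_iff_exp_le hX0]
    exact hXe
  have hQ1 : 1 ≤ Q := by rw [hQ]; nlinarith
  have hL1 : 1 ≤ Real.log X := by nlinarith
  set z : ℕ := zB B X with hz
  set σ : ℝ := 1 / (8 * B) with hσ
  have hσ0 : 0 < σ := by rw [hσ]; positivity
  have hσ4 : 4 * σ = 1 / (2 * B) := by rw [hσ]; field_simp; ring
  have hσ1 : 4 * σ ≤ 1 := by
    rw [hσ4, div_le_one (by positivity)]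
    linarith
  set D : ℝ := (X : ℝ) ^ (1 / 4 : ℝ) with hD
  have hD0 : 0 < D := Real.rpow_pos_of_pos hX0 _
  set E : ℝ := Real.exp (81 * ((z : ℝ) ^ (4 * σ) / (4 * σ))) with hE
  have hsum := PM3b_sumG z (3 * X) hσ0 hσ1
  rw [← hE] at hsum
  push_cast at hsum
  have hG := PM3b_G_nonneg z σ
  -- the sum
  have h1 : ∑ a ∈ Icc 1 X, ∑ b ∈ Icc 1 X,
      (if a ≠ b ∧ a ≠ 2 * b ∧ b ≠ 2 * a ∧ D < ((∏ p ∈ TT z a b, p : ℕ) : ℝ)
        then (3 : ℝ) ^ (TT z a b).card else 0) ≤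
      ∑ a ∈ Icc 1 X, ∑ b ∈ Icc 1 X, D ^ (-σ) * ((1 / 4) * (PM3b_G z σ (PM3b_d a b) +
        PM3b_G z σ (a + b) + PM3b_G z σ (PM3b_d a (2 * b)) +
        PM3b_G z σ (PM3b_d (2 * a) b))) := by
    refine Finset.sum_le_sum fun a _ => Finset.sum_le_sum fun b _ => ?_
    split_ifs with h
    · exact PM3b_term hσ0.le hD0 h.1 h.2.1 h.2.2.1 h.2.2.2
    · have := hG (PM3b_d a b)
      have := hG (a + b)
      have := hG (PM3b_d a (2 * b))
      have := hG (PM3b_d (2 * a) b)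
      have h5 : (0 : ℝ) ≤ D ^ (-σ) := Real.rpow_nonneg hD0.le _
      positivity
  refine h1.trans ?_
  rw [Finset.sum_comm]
  have hpart : ∀ b ∈ Icc 1 X, ∑ a ∈ Icc 1 X, D ^ (-σ) * ((1 / 4) * (PM3b_G z σ (PM3b_d a b) +
        PM3b_G z σ (a + b) + PM3b_G z σ (PM3b_d a (2 * b)) +
        PM3b_G z σ (PM3b_d (2 * a) b))) ≤ D ^ (-σ) * (2 * (3 * X * E)) := by
    intro b hb
    rw [Finset.mem_Icc] at hb
    have hS0 : 0 ≤ ∑ n ∈ range (3 * X + 1), PM3b_G z σ n := Finset.sum_nonneg fun n _ => hG n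
    have s1 : ∑ a ∈ Icc 1 X, PM3b_G z σ (PM3b_d a b) ≤
        2 * ∑ n ∈ range (3 * X + 1), PM3b_G z σ n :=
      PM3b_dist_sum (u := fun a => a) hG (fun _ _ h => h)
        (fun a ha => by have := (Finset.mem_Icc.mp ha).2; omega) (by omega)
    have s2 : ∑ a ∈ Icc 1 X, PM3b_G z σ (a + b) ≤ ∑ n ∈ range (3 * X + 1), PM3b_G z σ n :=
      PM3b_inj_sum (f := fun a => a + b) hG (fun _ _ _ _ h => by simp only at h; omega)
        (fun a ha => by
          have := (Finset.mem_Icc.mp ha).2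
          rw [Finset.mem_range]
          omega)
    have s3 : ∑ a ∈ Icc 1 X, PM3b_G z σ (PM3b_d a (2 * b)) ≤
        2 * ∑ n ∈ range (3 * X + 1), PM3b_G z σ n :=
      PM3b_dist_sum (u := fun a => a) hG (fun _ _ h => h)
        (fun a ha => by have := (Finset.mem_Icc.mp ha).2; omega) (by omega)
    have s4 : ∑ a ∈ Icc 1 X, PM3b_G z σ (PM3b_d (2 * a) b) ≤
        2 * ∑ n ∈ range (3 * X + 1), PM3b_G z σ n :=
      PM3b_dist_sum (u := fun a => 2 * a) hG (fun _ _ h => by simp only at h; omega)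
        (fun a ha => by have := (Finset.mem_Icc.mp ha).2; omega) (by omega)
    rw [← Finset.mul_sum, ← Finset.mul_sum, Finset.sum_add_distrib, Finset.sum_add_distrib,
      Finset.sum_add_distrib]
    refine mul_le_mul_of_nonneg_left ?_ (Real.rpow_nonneg hD0.le _)
    linarith
  refine (Finset.sum_le_sum hpart).trans ?_
  rw [Finset.sum_const, Nat.card_Icc, Nat.add_sub_cancel, nsmul_eq_mul]
  -- the exponential factor
  have hzL : (z : ℝ) ≤ (Real.log X) ^ B := by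
    rw [hz, zB]
    exact Nat.floor_le (by positivity)
  have hz4 : (z : ℝ) ^ (4 * σ) ≤ Real.sqrt (Real.log X) := by
    have h2 : (z : ℝ) ^ (4 * σ) ≤ ((Real.log X) ^ B) ^ (4 * σ) :=
      Real.rpow_le_rpow (Nat.cast_nonneg _) hzL (by linarith)
    refine h2.trans (le_of_eq ?_)
    rw [Real.sqrt_eq_rpow, ← Real.rpow_natCast, ← Real.rpow_mul (by linarith), hσ4]
    congr 1
    field_simp
  have hEle : E ≤ Real.exp (162 * B * Real.sqrt (Real.log X)) := by
    rw [hE]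
    apply Real.exp_le_exp.mpr
    rw [hσ4]
    have h3 : (z : ℝ) ^ (1 / (2 * B : ℝ)) ≤ Real.sqrt (Real.log X) := by rw [← hσ4]; exact hz4
    calc 81 * ((z : ℝ) ^ (1 / (2 * B : ℝ)) / (1 / (2 * B)))
        = 162 * B * (z : ℝ) ^ (1 / (2 * B : ℝ)) := by field_simp; ring
      _ ≤ _ := mul_le_mul_of_nonneg_left h3 (by positivity)
  have hDσ : D ^ (-σ) = Real.exp (-(Real.log X / (32 * B))) := by
    rw [hD, ← Real.rpow_mul hX0.le, Real.rpow_def_of_pos hX0, hσ]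
    congr 1
    field_simp
    ring
  have hR : (X : ℝ) ^ (2 - 1 / (64 * B : ℝ)) = X ^ 2 * Real.exp (-(Real.log X / (64 * B))) := by
    rw [Real.rpow_sub hX0, Real.rpow_two, div_eq_mul_inv, ← Real.rpow_neg hX0.le,
      Real.rpow_def_of_pos hX0]
    congr 2
    field_simp
  rw [hR]
  have h6 : (6 : ℝ) ≤ Real.exp 2 := by
    have h7 : Real.exp 2 = Real.exp 1 * Real.exp 1 := by rw [← Real.exp_add]; norm_num
    have h8 := Real.exp_one_gt_d9
    rw [h7]
    nlinarith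
  set s : ℝ := Real.sqrt (Real.log X) with hs
  have hs2 : s * s = Real.log X := Real.mul_self_sqrt (by linarith)
  have hsQ : Q ≤ s := by
    rw [hs]
    exact Real.le_sqrt_of_sq_le hL
  have h9 : Real.exp 2 * (Real.exp (-(Real.log X / (32 * B))) * Real.exp (162 * B * s)) ≤
      Real.exp (-(Real.log X / (64 * B))) := by
    rw [← Real.exp_add, ← Real.exp_add]
    apply Real.exp_le_exp.mpr
    have h10 : Real.log X / (32 * B) = 2 * (Real.log X / (64 * B)) := by field_simp; ring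
    rw [h10]
    have h11 : 2 + 162 * B * s ≤ Real.log X / (64 * B) := by
      rw [le_div_iff₀ (by positivity), ← hs2]
      have h12 : (2 + 162 * B * s) * (64 * B) ≤ s * Q := by
        rw [hQ]
        nlinarith [mul_le_mul_of_nonneg_left (hQ1.trans hsQ) (show (0 : ℝ) ≤ 128 * B by positivity)]
      exact h12.trans (mul_le_mul_of_nonneg_left hsQ (by linarith))
    linarith
  calc (X : ℝ) * (D ^ (-σ) * (2 * (3 * X * E))) = X ^ 2 * (6 * (D ^ (-σ) * E)) := by ring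
    _ ≤ X ^ 2 * (Real.exp 2 * (Real.exp (-(Real.log X / (32 * B))) *
        Real.exp (162 * B * s))) := by
        rw [hDσ]
        gcongr
    _ ≤ _ := mul_le_mul_of_nonneg_left h9 (by positivity)

end Pool.Agent.Lib.SW
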