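import Pool.Agent.Lib.SW.PM.PM1
import Pool.Agent.Lib.SW.PM.PM2
import Pool.Agent.Lib.SW.PM.PM3b

/-!
PM-4: the off-diagonal inequality

PROOF.  `D = X^(1/4)`.  `∑_{a,b ∈ A} GD ≥ #A²`: the term `d = 1` gives `#A²`, the others are `≥ 0` (`ker_psd` with `w = 1`).
`|GD a a| ≤ ∑_{d ≤ D} 2^ω(d) ≤ D · D` (`2^ω(d) ≤ d` for squarefree `d`, `abs_ker_le`), so the diagonal is at most `#A X^(1/2)`.
`A` consists of odd numbers (`z ≥ 2` for large `X`), so `a ≠ 2b`, `b ≠ 2a`; by `GG_eq_GD`, `GG_sub_GD_le` and `bad_mass` the sum over `a ≠ b` of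
`|GG - GD|` is at most `X^(2 - 1/(64B))`.  Hence `∑_{a ≠ b} GG ≥ #A² - #A X^(1/2) - X^(2-1/(64B)) ≥ #A²/2` as `#A ≥ X/(log X)^K`.
-/

set_option autoImplicit false

open Finset

namespace Pool.Agent.Lib.SW

theorem PM4_GD_sum (c : Bool) (z : ℕ) (D : ℝ) (hD : 1 ≤ D) (A : Finset ℕ) :
    (A.card : ℝ) ^ 2 ≤ ∑ a ∈ A, ∑ b ∈ A, GD c z D a b := by
  have h0 : ∑ a ∈ A, ∑ b ∈ A, GD c z D a b =
      ∑ d ∈ (primorial z).divisors.filter (fun d : ℕ => (d : ℝ) ≤ D),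
        ∑ a ∈ A, ∑ b ∈ A, ∏ p ∈ d.primeFactors, ker c p a b := by
    unfold GD
    rw [Finset.sum_comm]
    rw [Finset.sum_comm]
    calc ∑ a ∈ A, ∑ b ∈ A, ∑ d ∈ (primorial z).divisors.filter (fun d : ℕ => (d : ℝ) ≤ D),
          ∏ p ∈ d.primeFactors, ker c p a b
        = ∑ a ∈ A, ∑ d ∈ (primorial z).divisors.filter (fun d : ℕ => (d : ℝ) ≤ D), ∑ b ∈ A,
          ∏ p ∈ d.primeFactors, ker c p a b := Finset.sum_congr rfl fun a _ => Finset.sum_comm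
      _ = _ := Finset.sum_comm
  have h1 : 1 ∈ (primorial z).divisors.filter (fun d : ℕ => (d : ℝ) ≤ D) :=
    Finset.mem_filter.2 ⟨Nat.one_mem_divisors.2 (primorial_ne_zero z), by simpa using hD⟩
  rw [h0, ← Finset.add_sum_erase _ _ h1]
  have h2 : ∑ a ∈ A, ∑ b ∈ A, ∏ p ∈ (1 : ℕ).primeFactors, ker c p a b = (A.card : ℝ) ^ 2 := by
    simp [sq]
  rw [h2]
  have h3 : 0 ≤ ∑ d ∈ ((primorial z).divisors.filter (fun d : ℕ => (d : ℝ) ≤ D)).erase 1,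
        ∑ a ∈ A, ∑ b ∈ A, ∏ p ∈ d.primeFactors, ker c p a b := by
    refine Finset.sum_nonneg fun d _ => ?_
    have := ker_psd c d.primeFactors (fun p hp => Nat.prime_of_mem_primeFactors hp) A (fun _ => 1)
    simpa using this
  linarith

theorem PM4_diag (c : Bool) (z : ℕ) (D : ℝ) (hD : 0 ≤ D) (a : ℕ) : |GD c z D a a| ≤ D * D := by
  unfold GD
  refine (Finset.abs_sum_le_sum_abs _ _).trans ?_
  have h1 : ∀ d ∈ (primorial z).divisors.filter (fun d : ℕ => (d : ℝ) ≤ D),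
      |∏ p ∈ d.primeFactors, ker c p a a| ≤ D := by
    intro d hd
    obtain ⟨e1, e2⟩ := Finset.mem_filter.1 hd
    have e3 : Squarefree d := (squarefree_primorial z).squarefree_of_dvd (Nat.dvd_of_mem_divisors e1)
    rw [Finset.abs_prod]
    calc ∏ p ∈ d.primeFactors, |ker c p a a| ≤ ∏ p ∈ d.primeFactors, (p : ℝ) := by
          refine Finset.prod_le_prod (fun _ _ => abs_nonneg _) (fun p hp => ?_)
          have h2 : (2 : ℝ) ≤ p := by exact_mod_cast (Nat.prime_of_mem_primeFactors hp).two_le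
          exact (abs_ker_le c p a a).trans h2
      _ = (d : ℝ) := by
          rw [← Nat.cast_prod, Nat.prod_primeFactors_of_squarefree e3]
      _ ≤ D := e2
  have h2 : ((primorial z).divisors.filter (fun d : ℕ => (d : ℝ) ≤ D)).card ≤ ⌊D⌋₊ := by
    have h3 : (primorial z).divisors.filter (fun d : ℕ => (d : ℝ) ≤ D) ⊆ Icc 1 ⌊D⌋₊ := by
      intro d hd
      obtain ⟨e1, e2⟩ := Finset.mem_filter.1 hd
      exact Finset.mem_Icc.2 ⟨Nat.pos_of_mem_divisors e1, Nat.le_floor e2⟩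
    have h4 := Finset.card_le_card h3
    rw [Nat.card_Icc, Nat.add_sub_cancel] at h4
    exact h4
  have h3 := Finset.sum_le_card_nsmul _ _ _ h1
  refine h3.trans ?_
  rw [nsmul_eq_mul]
  refine mul_le_mul_of_nonneg_right ?_ hD
  exact (show (((primorial z).divisors.filter (fun d : ℕ => (d : ℝ) ≤ D)).card : ℝ) ≤ ⌊D⌋₊ by
    exact_mod_cast h2).trans (Nat.floor_le hD)

theorem PM4_ev (k : ℕ) (r : ℝ) (hr : 0 < r) :
    ∀ᶠ X : ℕ in Filter.atTop, 4 * (Real.log X) ^ k ≤ (X : ℝ) ^ r := by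
  have h1 := (isLittleO_log_rpow_rpow_atTop (k : ℝ) hr).def (by norm_num : (0 : ℝ) < 1 / 4)
  have h2 := (tendsto_natCast_atTop_atTop (R := ℝ)).eventually h1
  filter_upwards [h2, ev_log 0] with X hX hL
  rw [Real.norm_of_nonneg (Real.rpow_nonneg hL _),
    Real.norm_of_nonneg (Real.rpow_nonneg (Nat.cast_nonneg _) _), Real.rpow_natCast] at hX
  linarith

theorem off_diag (c : Bool) (B K : ℕ) (hB : 1 ≤ B) : ∃ X₀ : ℕ, ∀ X : ℕ, X₀ ≤ X →
    ∀ A : Finset ℕ, A ⊆ Icc 1 X → (∀ a ∈ A, Nat.Coprime a (primorial (zB B X))) →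
      X / (Real.log X) ^ K ≤ (A.card : ℝ) →
        (A.card : ℝ) ^ 2 / 2 ≤ ∑ a ∈ A, ∑ b ∈ A.erase a, GG c (zB B X) a b := by
  classical
  obtain ⟨X₁, h₁⟩ := bad_mass B hB
  have hB' : (1 : ℝ) ≤ B := by exact_mod_cast hB
  have hr : (0 : ℝ) < 1 / (64 * B) := by positivity
  obtain ⟨X₀, hX₀⟩ := Filter.eventually_atTop.1 ((PM4_ev K (1 / 2) (by norm_num)).and
    ((PM4_ev (2 * K) (1 / (64 * B)) hr).and ((ev_log 2).and
      (Filter.eventually_ge_atTop (max X₁ 3)))))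
  refine ⟨X₀, fun X hX A hA hcop hAc => ?_⟩
  obtain ⟨k1, k2, k3, k4⟩ := hX₀ X hX
  have hX₁ : X₁ ≤ X := (le_max_left _ _).trans k4
  have hX3 : 3 ≤ X := (le_max_right _ _).trans k4
  have hXr : (3 : ℝ) ≤ X := by exact_mod_cast hX3
  have hX0 : (0 : ℝ) < X := by linarith
  have hL0 : 0 < Real.log X := by linarith
  obtain ⟨D, hD⟩ : ∃ D : ℝ, D = (X : ℝ) ^ (1 / 4 : ℝ) := ⟨_, rfl⟩
  have hD1 : 1 ≤ D := by
    rw [hD]
    exact Real.one_le_rpow (by linarith) (by norm_num)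
  have hDD : D * D = (X : ℝ) ^ (1 / 2 : ℝ) := by
    rw [hD, ← Real.rpow_add hX0]
    norm_num
  have hz2 : 2 ≤ zB B X := by
    unfold zB
    refine Nat.le_floor ?_
    push_cast
    calc (2 : ℝ) ≤ Real.log X := k3
      _ = (Real.log X) ^ 1 := (pow_one _).symm
      _ ≤ (Real.log X) ^ B := pow_le_pow_right₀ (by linarith) hB
  have hodd : ∀ a ∈ A, ¬ 2 ∣ a := by
    intro a ha h2
    have h3 : 2 ∣ primorial (zB B X) := Nat.prime_two.dvd_primorial_iff.2 hz2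
    have h4 : 2 ∣ Nat.gcd a (primorial (zB B X)) := Nat.dvd_gcd h2 h3
    rw [hcop a ha] at h4
    omega
  -- the error
  have herr : ∑ a ∈ A, ∑ b ∈ A.erase a, |GG c (zB B X) a b - GD c (zB B X) D a b| ≤
      (X : ℝ) ^ (2 - 1 / (64 * B : ℝ)) := by
    refine le_trans ?_ (h₁ X hX₁)
    refine le_trans (Finset.sum_le_sum fun a ha => ?_)
      (Finset.sum_le_sum_of_subset_of_nonneg hA fun a _ _ => ?_)
    · refine le_trans (Finset.sum_le_sum fun b hb => ?_)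
        (Finset.sum_le_sum_of_subset_of_nonneg ((Finset.erase_subset _ _).trans hA) fun b _ _ => ?_)
      · obtain ⟨hba, hb'⟩ := Finset.mem_erase.1 hb
        have e1 : a ≠ 2 * b := fun e => hodd a ha ⟨b, e⟩
        have e2 : b ≠ 2 * a := fun e => hodd b hb' ⟨a, e⟩
        by_cases hT : (X : ℝ) ^ (1 / 4 : ℝ) < ((∏ p ∈ TT (zB B X) a b, p : ℕ) : ℝ)
        · rw [if_pos ⟨Ne.symm hba, e1, e2, hT⟩]
          exact GG_sub_GD_le c (zB B X) D a b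
        · rw [if_neg (fun h => hT h.2.2.2)]
          rw [GG_eq_GD c (zB B X) D a b (by rw [hD]; exact not_lt.1 hT), sub_self, abs_zero]
      · split_ifs
        · positivity
        · exact le_rfl
    · refine Finset.sum_nonneg fun b _ => ?_
      split_ifs
      · positivity
      · exact le_rfl
  -- the main term
  have hmain := PM4_GD_sum c (zB B X) D hD1 A
  have hsplit : ∑ a ∈ A, ∑ b ∈ A, GD c (zB B X) D a b =
      ∑ a ∈ A, GD c (zB B X) D a a + ∑ a ∈ A, ∑ b ∈ A.erase a, GD c (zB B X) D a b := by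
    rw [← Finset.sum_add_distrib]
    refine Finset.sum_congr rfl fun a ha => ?_
    rw [Finset.add_sum_erase _ _ ha]
  have hdiag : ∑ a ∈ A, GD c (zB B X) D a a ≤ (A.card : ℝ) * (X : ℝ) ^ (1 / 2 : ℝ) := by
    rw [← hDD, ← nsmul_eq_mul]
    refine Finset.sum_le_card_nsmul _ _ _ fun a _ => ?_
    exact (le_abs_self _).trans (PM4_diag c (zB B X) D (by linarith) a)
  have hdiff : ∑ a ∈ A, ∑ b ∈ A.erase a, GD c (zB B X) D a b ≤
      ∑ a ∈ A, ∑ b ∈ A.erase a, GG c (zB B X) a b +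
        ∑ a ∈ A, ∑ b ∈ A.erase a, |GG c (zB B X) a b - GD c (zB B X) D a b| := by
    rw [← Finset.sum_add_distrib]
    refine Finset.sum_le_sum fun a _ => ?_
    rw [← Finset.sum_add_distrib]
    refine Finset.sum_le_sum fun b _ => ?_
    have := neg_abs_le (GG c (zB B X) a b - GD c (zB B X) D a b)
    linarith
  -- sizes
  have hLK : 0 < (Real.log X) ^ K := pow_pos hL0 _
  obtain ⟨n, hn⟩ : ∃ n : ℝ, n = (A.card : ℝ) := ⟨_, rfl⟩
  rw [← hn] at hAc hmain hdiag ⊢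
  have hn1 : (X : ℝ) ^ (1 / 2 : ℝ) ≤ n / 4 := by
    have h1 : (X : ℝ) = (X : ℝ) ^ (1 / 2 : ℝ) * (X : ℝ) ^ (1 / 2 : ℝ) := by
      rw [← Real.rpow_add hX0]
      norm_num
    have h2 : 0 ≤ (X : ℝ) ^ (1 / 2 : ℝ) := Real.rpow_nonneg hX0.le _
    have h3 : (X : ℝ) ^ (1 / 2 : ℝ) ≤ X / (Real.log X) ^ K / 4 := by
      rw [le_div_iff₀ (by norm_num), le_div_iff₀ hLK]
      calc (X : ℝ) ^ (1 / 2 : ℝ) * 4 * (Real.log X) ^ K
          = (X : ℝ) ^ (1 / 2 : ℝ) * (4 * (Real.log X) ^ K) := by ring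
        _ ≤ (X : ℝ) ^ (1 / 2 : ℝ) * (X : ℝ) ^ (1 / 2 : ℝ) := mul_le_mul_of_nonneg_left k1 h2
        _ = X := h1.symm
    linarith
  have hn0 : 0 ≤ n := by
    rw [hn]
    exact Nat.cast_nonneg _
  have hn2 : (X : ℝ) ^ (2 - 1 / (64 * B : ℝ)) ≤ n ^ 2 / 4 := by
    have h1 : (X : ℝ) ^ (2 - 1 / (64 * B : ℝ)) * (X : ℝ) ^ (1 / (64 * B : ℝ)) = (X : ℝ) ^ 2 := by
      rw [← Real.rpow_add hX0, sub_add_cancel]
      norm_num
    have h2 : 0 ≤ (X : ℝ) ^ (2 - 1 / (64 * B : ℝ)) := Real.rpow_nonneg hX0.le _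
    have h3 : (X : ℝ) ≤ n * (Real.log X) ^ K := by
      rwa [div_le_iff₀ hLK] at hAc
    have h4 : (X : ℝ) ^ 2 ≤ n ^ 2 * (Real.log X) ^ (2 * K) := by
      calc (X : ℝ) ^ 2 ≤ (n * (Real.log X) ^ K) ^ 2 := pow_le_pow_left₀ hX0.le h3 2
        _ = n ^ 2 * (Real.log X) ^ (2 * K) := by
            rw [mul_pow, ← pow_mul, mul_comm K 2]
    have h5 : (X : ℝ) ^ (2 - 1 / (64 * B : ℝ)) * (4 * (Real.log X) ^ (2 * K)) ≤
        n ^ 2 * (Real.log X) ^ (2 * K) :=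
      calc (X : ℝ) ^ (2 - 1 / (64 * B : ℝ)) * (4 * (Real.log X) ^ (2 * K))
          ≤ (X : ℝ) ^ (2 - 1 / (64 * B : ℝ)) * (X : ℝ) ^ (1 / (64 * B : ℝ)) :=
            mul_le_mul_of_nonneg_left k2 h2
        _ = (X : ℝ) ^ 2 := h1
        _ ≤ _ := h4
    have h6 : 0 < (Real.log X) ^ (2 * K) := pow_pos hL0 _
    have h7 : ((X : ℝ) ^ (2 - 1 / (64 * B : ℝ)) * 4) * (Real.log X) ^ (2 * K) ≤
        n ^ 2 * (Real.log X) ^ (2 * K) := by
      linarith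
    have h8 := le_of_mul_le_mul_right h7 h6
    linarith
  have hn3 : n * (X : ℝ) ^ (1 / 2 : ℝ) ≤ n * (n / 4) := mul_le_mul_of_nonneg_left hn1 hn0
  nlinarith

end Pool.Agent.Lib.SW
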