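import Pool.Agent.Lib.SW.PM.PM5a
import Pool.Agent.Lib.SW.PM.PM3

/-!
# PM-5b: moments of the number of small prime factors of differences of primes

PROOF.  `z = zB B X`.  `c^(om z a b) = ∑_{d ∣ primorial z, a ≡ b mod d} (c-1)^ω(d) ≤ ∑ c^ω(d)`.  For `d ≤ X^(1/4)`: at most `C X/(φ(d) log X)` primes `b ≤ X`,
`b ≡ a mod d` (`brun_titchmarsh`, `(a, d) = 1`).  For `d > X^(1/4)`: at most `2X/d` integers `b ∈ [1, X]`, `b ≠ a`, `b ≡ a mod d`.  Sum:
`C (X/log X) ∏_{p ≤ z} (1 + c/(p-1)) + 2X ∑_{d > X^(1/4)} c^ω(d)/d`; the first product is `≤ exp (c ∑_{p ≤ z} 1/(p-1))` and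
`∑_{p ≤ z} 1/(p-1) ≤ log ((Vz z)⁻¹) + 1 ≤ log (C log z) + 1` (`1/(p-1) ≤ -log(1-1/p) + 1/(p(p-1))`, `Vz_inv_le` in TS5; `Vz z = ∏_{p ≤ z} (1 - 1/p)`: `LG3_V`),
so it is `≤ (e C log z)^c`; the second part is `≤ 2 X^(1 - 1/(16B))` (`rankin_strong`) `≤ X/log X`.
-/

set_option autoImplicit false

open Finset

namespace Pool.Agent.Lib.SW

/-- the product over divisors -/
theorem pm5_sum_divisors (z : ℕ) (g : ℕ → ℝ) :
    ∑ d ∈ (primorial z).divisors, ∏ p ∈ d.primeFactors, g p = ∏ p ∈ Nat.primesLE z, (1 + g p) := by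
  have hsq := squarefree_primorial z
  have h := (ArithmeticFunction.IsMultiplicative.prodPrimeFactors (f := g)).prodPrimeFactors_one_add_of_squarefree hsq
  rw [primeFactors_primorial] at h
  have h1 : ∏ p ∈ Nat.primesLE z, (1 + (ArithmeticFunction.prodPrimeFactors g) p) =
      ∏ p ∈ Nat.primesLE z, (1 + g p) := by
    refine prod_congr rfl fun p hp => ?_
    have hpp := Nat.prime_of_mem_primesLE hp
    rw [ArithmeticFunction.prodPrimeFactors_apply hpp.ne_zero, hpp.primeFactors, prod_singleton]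
  rw [← h1, h]
  refine sum_congr rfl fun d hd => ?_
  have hd0 : d ≠ 0 := (Nat.pos_of_mem_divisors hd).ne'
  rw [ArithmeticFunction.prodPrimeFactors_apply hd0]

theorem pm5_totient {d : ℕ} (hd : Squarefree d) :
    (d.totient : ℝ) = ∏ p ∈ d.primeFactors, ((p : ℝ) - 1) := by
  have h := Nat.totient_mul_prod_primeFactors d
  rw [Nat.prod_primeFactors_of_squarefree hd] at h
  have h0 : 0 < d := Nat.pos_of_ne_zero hd.ne_zero
  have h1 : d.totient = ∏ p ∈ d.primeFactors, (p - 1) := by
    have h2 : d.totient * d = (∏ p ∈ d.primeFactors, (p - 1)) * d := by rw [h, Nat.mul_comm]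
    exact Nat.eq_of_mul_eq_mul_right h0 h2
  rw [h1]
  push_cast
  refine prod_congr rfl fun p hp => ?_
  have := (Nat.prime_of_mem_primeFactors hp).one_lt.le
  rw [Nat.cast_sub this]
  norm_num

/-- one term dominates -/
theorem pm5_pow_le (z a b : ℕ) (c : ℝ) (hc : 1 ≤ c) :
    c ^ (om z a b) ≤ ∑ d ∈ (primorial z).divisors.filter (fun d => b ≡ a [MOD d]),
      c ^ d.primeFactors.card := by
  classical
  set S := (Nat.primesLE z).filter (fun p => a % p = b % p) with hS
  have hSp : ∀ p ∈ S, p.Prime := fun p hp => Nat.prime_of_mem_primesLE (mem_filter.mp hp).1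
  have hfac : (∏ p ∈ S, p).primeFactors = S := Nat.primeFactors_prod hSp
  have hdvd : (∏ p ∈ S, p) ∣ primorial z := by
    refine Finset.prod_primes_dvd _ (fun p hp => (hSp p hp).prime) fun p hp => ?_
    have : p ∈ (primorial z).primeFactors := by
      rw [primeFactors_primorial]
      exact (mem_filter.mp hp).1
    exact Nat.dvd_of_mem_primeFactors this
  have hmod : b ≡ a [MOD (∏ p ∈ S, p)] := by
    rw [Nat.modEq_iff_dvd, Int.natCast_dvd]
    refine Finset.prod_primes_dvd _ (fun p hp => (hSp p hp).prime) fun p hp => ?_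
    have h1 : b ≡ a [MOD p] := (mem_filter.mp hp).2.symm
    rw [Nat.modEq_iff_dvd, Int.natCast_dvd] at h1
    exact h1
  have hmem : (∏ p ∈ S, p) ∈ (primorial z).divisors.filter (fun d => b ≡ a [MOD d]) :=
    mem_filter.mpr ⟨Nat.mem_divisors.mpr ⟨hdvd, primorial_ne_zero z⟩, hmod⟩
  have h := Finset.single_le_sum (f := fun d : ℕ => c ^ d.primeFactors.card)
    (fun d _ => by positivity) hmem
  simp only [hfac] at h
  exact h

theorem pm5_count (X a d : ℕ) (ha : a ≤ X) (hd : 1 ≤ d) :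
    (((Icc 1 X).filter (fun b => b.Prime ∧ b ≠ a ∧ b ≡ a [MOD d])).card : ℝ) ≤ 2 * X / d := by
  classical
  have hsub : (Icc 1 X).filter (fun b => b.Prime ∧ b ≠ a ∧ b ≡ a [MOD d]) ⊆
      (Icc 1 (X / d)).image (fun k => a + k * d) ∪ (Icc 1 (X / d)).image (fun k => a - k * d) := by
    intro b hb
    obtain ⟨hb1, -, hb3, hb4⟩ := mem_filter.mp hb
    have hb5 := mem_Icc.mp hb1
    rw [mem_union]
    rcases Nat.lt_or_gt_of_ne hb3 with h | h
    · right
      have h1 : d ∣ a - b := (Nat.modEq_iff_dvd' h.le).mp hb4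
      obtain ⟨k, hk⟩ := h1
      rw [Nat.mul_comm] at hk
      refine mem_image.mpr ⟨k, mem_Icc.mpr ⟨?_, ?_⟩, by omega⟩
      · rcases Nat.eq_zero_or_pos k with h0 | h0
        · subst h0
          omega
        · exact h0
      · rw [Nat.le_div_iff_mul_le hd]
        omega
    · left
      have h1 : d ∣ b - a := (Nat.modEq_iff_dvd' h.le).mp hb4.symm
      obtain ⟨k, hk⟩ := h1
      rw [Nat.mul_comm] at hk
      refine mem_image.mpr ⟨k, mem_Icc.mpr ⟨?_, ?_⟩, by omega⟩
      · rcases Nat.eq_zero_or_pos k with h0 | h0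
        · subst h0
          omega
        · exact h0
      · rw [Nat.le_div_iff_mul_le hd]
        omega
  have h1 := (card_le_card hsub).trans ((card_union_le _ _).trans
    (add_le_add card_image_le card_image_le))
  rw [Nat.card_Icc, Nat.add_sub_cancel] at h1
  have h2 : (((Icc 1 X).filter (fun b => b.Prime ∧ b ≠ a ∧ b ≡ a [MOD d])).card : ℝ) ≤
      ((X / d : ℕ) : ℝ) + ((X / d : ℕ) : ℝ) := by exact_mod_cast h1
  have h3 : ((X / d : ℕ) : ℝ) ≤ (X : ℝ) / d := Nat.cast_div_le
  calc _ ≤ ((X / d : ℕ) : ℝ) + ((X / d : ℕ) : ℝ) := h2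
    _ ≤ (X : ℝ) / d + X / d := add_le_add h3 h3
    _ = 2 * X / d := by ring

theorem pm5_telescope (z : ℕ) : ∑ n ∈ Icc 2 z, 1 / ((n : ℝ) * (n - 1)) ≤ 1 := by
  have h : ∀ m : ℕ, ∑ n ∈ Icc 2 (m + 1), 1 / ((n : ℝ) * (n - 1)) = 1 - 1 / ((m : ℝ) + 1) := by
    intro m
    induction m with
    | zero => simp
    | succ m ih =>
      rw [Finset.sum_Icc_succ_top (by omega), ih]
      push_cast
      have h1 : (m : ℝ) + 1 ≠ 0 := by positivity
      have h2 : (m : ℝ) + 1 + 1 ≠ 0 := by positivity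
      have h3 : (m : ℝ) + 1 + 1 - 1 = (m : ℝ) + 1 := by ring
      rw [h3]
      field_simp
      ring
  rcases Nat.eq_zero_or_pos z with h0 | h0
  · subst h0
    simp
  · obtain ⟨m, rfl⟩ : ∃ m, z = m + 1 := ⟨z - 1, by omega⟩
    rw [h m]
    have : (0 : ℝ) ≤ 1 / ((m : ℝ) + 1) := by positivity
    linarith

theorem pm5_log (z : ℕ) :
    ∑ p ∈ Nat.primesLE z, 1 / ((p : ℝ) - 1) ≤ Real.log ((Vz z)⁻¹) + 1 := by
  have hV : Vz z = ∏ p ∈ Nat.primesLE z, (1 - 1 / (p : ℝ)) := by
    rw [TS5_V, Nat.primesLE_eq_filter_Icc_one]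
  have hpos : ∀ p ∈ Nat.primesLE z, (1 - 1 / (p : ℝ)) ≠ 0 := by
    intro p hp
    have h1 : (1 : ℝ) < p := by exact_mod_cast Nat.one_lt_of_mem_primesLE hp
    have : 1 / (p : ℝ) < 1 := by rw [div_lt_one (by linarith)]; exact h1
    linarith
  rw [Real.log_inv, hV, Real.log_prod hpos, ← Finset.sum_neg_distrib]
  have hterm : ∀ p ∈ Nat.primesLE z, 1 / ((p : ℝ) - 1) ≤
      -Real.log (1 - 1 / (p : ℝ)) + 1 / ((p : ℝ) * (p - 1)) := by
    intro p hp
    have h1 : (1 : ℝ) < p := by exact_mod_cast Nat.one_lt_of_mem_primesLE hp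
    have h2 : 1 / (p : ℝ) < 1 := by rw [div_lt_one (by linarith)]; exact h1
    have h3 := Real.log_le_sub_one_of_pos (show (0 : ℝ) < 1 - 1 / (p : ℝ) by linarith)
    have h4 : 1 / ((p : ℝ) - 1) = 1 / (p : ℝ) + 1 / ((p : ℝ) * (p - 1)) := by
      have h5 : (p : ℝ) - 1 ≠ 0 := by linarith
      have h6 : (p : ℝ) ≠ 0 := by linarith
      field_simp
      ring
    linarith
  refine (sum_le_sum hterm).trans ?_
  rw [sum_add_distrib]
  have hlast : ∑ p ∈ Nat.primesLE z, 1 / ((p : ℝ) * (p - 1)) ≤ 1 := by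
    refine le_trans (sum_le_sum_of_subset_of_nonneg ?_ ?_) (pm5_telescope z)
    · intro p hp
      rw [mem_Icc]
      exact ⟨Nat.two_le_of_mem_primesLE hp, Nat.le_of_mem_primesLE hp⟩
    · intro n hn _
      have h1 : (2 : ℝ) ≤ n := by exact_mod_cast (mem_Icc.mp hn).1
      have : (0 : ℝ) ≤ (n : ℝ) - 1 := by linarith
      positivity
  linarith

theorem pm5_prod (z : ℕ) (c : ℝ) (hc : 1 ≤ c) :
    ∑ d ∈ (primorial z).divisors, c ^ d.primeFactors.card / (d.totient : ℝ) ≤
      (Real.exp 1 * (Vz z)⁻¹) ^ c := by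
  have hVpos := TS5_Vz_pos z
  have h1 : ∑ d ∈ (primorial z).divisors, c ^ d.primeFactors.card / (d.totient : ℝ) =
      ∑ d ∈ (primorial z).divisors, ∏ p ∈ d.primeFactors, c * (1 / ((p : ℝ) - 1)) := by
    refine sum_congr rfl fun d hd => ?_
    have hsq : Squarefree d := (squarefree_primorial z).squarefree_of_dvd (Nat.dvd_of_mem_divisors hd)
    rw [pm5_totient hsq, prod_mul_distrib, prod_const, prod_div_distrib, prod_const_one]
    ring
  rw [h1, pm5_sum_divisors]
  have h2 : ∏ p ∈ Nat.primesLE z, (1 + c * (1 / ((p : ℝ) - 1))) ≤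
      Real.exp (∑ p ∈ Nat.primesLE z, c * (1 / ((p : ℝ) - 1))) := by
    rw [Real.exp_sum]
    refine prod_le_prod (fun p hp => ?_) (fun p hp => ?_)
    · have h1 : (1 : ℝ) < p := by exact_mod_cast Nat.one_lt_of_mem_primesLE hp
      have : (0 : ℝ) < (p : ℝ) - 1 := by linarith
      positivity
    · have := Real.add_one_le_exp (c * (1 / ((p : ℝ) - 1)))
      linarith
  refine h2.trans ?_
  rw [← mul_sum]
  have h3 := pm5_log z
  have h4 : Real.exp (c * ∑ p ∈ Nat.primesLE z, 1 / ((p : ℝ) - 1)) ≤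
      Real.exp (c * (Real.log ((Vz z)⁻¹) + 1)) := by
    apply Real.exp_le_exp.mpr
    exact mul_le_mul_of_nonneg_left h3 (by linarith)
  refine h4.trans (le_of_eq ?_)
  have hb : 0 < Real.exp 1 * (Vz z)⁻¹ := by positivity
  rw [Real.rpow_def_of_pos hb, Real.log_mul (Real.exp_pos 1).ne' (inv_pos.mpr hVpos).ne',
    Real.log_exp]
  congr 1
  ring

theorem prime_moment (B : ℕ) (hB : 1 ≤ B) : ∃ C : ℝ, 1 ≤ C ∧ ∃ X₀ : ℕ, ∀ X : ℕ, X₀ ≤ X → ∀ c : ℝ,
    1 ≤ c → c ≤ (Real.log X) ^ (1 / 4 : ℝ) → ∀ a : ℕ, 1 ≤ a → a ≤ X →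
      Nat.Coprime a (primorial (zB B X)) →
        ∑ b ∈ (Icc 1 X).filter (fun b => b.Prime ∧ b ≠ a), c ^ (om (zB B X) a b) ≤
          C * (X / Real.log X) * (C * Real.log (zB B X)) ^ c := by
  obtain ⟨C1, hC1, hBT⟩ := brun_titchmarsh
  obtain ⟨C2, hC2, hV⟩ := Vz_inv_le
  obtain ⟨X1, hR⟩ := rankin_strong B hB
  have hBr : (1 : ℝ) ≤ B := by exact_mod_cast hB
  refine ⟨max (C1 + 1) (max (Real.exp 1 * C2) 2), ?_, max X1 (max 8 ((64 * B) ^ (32 * B))),
    fun X hX c hc hcX a ha1 haX hcop => ?_⟩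
  · exact le_trans (by norm_num) ((le_max_right _ _).trans (le_max_right _ _))
  set C := max (C1 + 1) (max (Real.exp 1 * C2) 2) with hCdef
  have hCa : C1 + 1 ≤ C := le_max_left _ _
  have hCb : Real.exp 1 * C2 ≤ C := (le_max_left _ _).trans (le_max_right _ _)
  have hCc : 2 ≤ C := (le_max_right _ _).trans (le_max_right _ _)
  have hX1 : X1 ≤ X := (le_max_left _ _).trans hX
  have hX8 : 8 ≤ X := (le_max_left _ _).trans ((le_max_right _ _).trans hX)
  have hXB : (64 * B) ^ (32 * B) ≤ X := (le_max_right _ _).trans ((le_max_right _ _).trans hX)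
  have hXr : (8 : ℝ) ≤ X := by exact_mod_cast hX8
  have hX0 : (0 : ℝ) < X := by linarith
  have hL2 : 2 ≤ Real.log X := by
    have h1 : Real.exp 2 ≤ X := by
      have h2 : Real.exp 1 < 2.7182818286 := Real.exp_one_lt_d9
      have h3 : Real.exp 2 = Real.exp 1 * Real.exp 1 := by rw [← Real.exp_add]; norm_num
      have h4 : 0 < Real.exp 1 := Real.exp_pos 1
      nlinarith
    have := Real.log_le_log (Real.exp_pos 2) h1
    rwa [Real.log_exp] at this
  have hL0 : 0 < Real.log X := by linarith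
  set z := zB B X with hz
  have hz2 : 2 ≤ z := by
    rw [hz]
    unfold zB
    refine Nat.le_floor ?_
    push_cast
    calc (2 : ℝ) ≤ Real.log X := hL2
      _ = (Real.log X) ^ 1 := by ring
      _ ≤ (Real.log X) ^ B := pow_le_pow_right₀ (by linarith) hB
  have hzr : (2 : ℝ) ≤ z := by exact_mod_cast hz2
  have hlz : 1 / 2 ≤ Real.log z := by
    have h1 : Real.log 2 ≤ Real.log z := Real.log_le_log (by norm_num) hzr
    have h2 := Real.log_two_gt_d9
    linarith
  have hClz : 1 ≤ C * Real.log z := by nlinarith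
  have hc0 : 0 ≤ c := by linarith
  have hpow1 : 1 ≤ (C * Real.log z) ^ c := Real.one_le_rpow hClz hc0
  -- step 1
  have hstep1 : ∑ b ∈ (Icc 1 X).filter (fun b => b.Prime ∧ b ≠ a), c ^ (om z a b) ≤
      ∑ d ∈ (primorial z).divisors, c ^ d.primeFactors.card *
        (((Icc 1 X).filter (fun b => b.Prime ∧ b ≠ a ∧ b ≡ a [MOD d])).card : ℝ) := by
    calc ∑ b ∈ (Icc 1 X).filter (fun b => b.Prime ∧ b ≠ a), c ^ (om z a b)
        ≤ ∑ b ∈ (Icc 1 X).filter (fun b => b.Prime ∧ b ≠ a),
          ∑ d ∈ (primorial z).divisors.filter (fun d => b ≡ a [MOD d]),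
            c ^ d.primeFactors.card := sum_le_sum fun b _ => pm5_pow_le z a b c hc
      _ = ∑ b ∈ (Icc 1 X).filter (fun b => b.Prime ∧ b ≠ a),
          ∑ d ∈ (primorial z).divisors,
            if b ≡ a [MOD d] then c ^ d.primeFactors.card else 0 := by
          refine sum_congr rfl fun b _ => ?_
          rw [sum_filter]
      _ = ∑ d ∈ (primorial z).divisors, ∑ b ∈ (Icc 1 X).filter (fun b => b.Prime ∧ b ≠ a),
            if b ≡ a [MOD d] then c ^ d.primeFactors.card else 0 := sum_comm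
      _ = _ := by
          refine sum_congr rfl fun d _ => ?_
          rw [← sum_filter, sum_const, nsmul_eq_mul, mul_comm, filter_filter]
          congr 3
          refine filter_congr fun b _ => ?_
          rw [and_assoc]
  -- step 2
  have hd0 : ∀ d ∈ (primorial z).divisors, 1 ≤ d := fun d hd => Nat.pos_of_mem_divisors hd
  have hstep2 : ∑ d ∈ (primorial z).divisors.filter (fun d : ℕ => (X : ℝ) ^ (1 / 4 : ℝ) < d),
      c ^ d.primeFactors.card *
        (((Icc 1 X).filter (fun b => b.Prime ∧ b ≠ a ∧ b ≡ a [MOD d])).card : ℝ) ≤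
      X / Real.log X := by
    calc ∑ d ∈ (primorial z).divisors.filter (fun d : ℕ => (X : ℝ) ^ (1 / 4 : ℝ) < d),
          c ^ d.primeFactors.card *
            (((Icc 1 X).filter (fun b => b.Prime ∧ b ≠ a ∧ b ≡ a [MOD d])).card : ℝ)
        ≤ ∑ d ∈ (primorial z).divisors.filter (fun d : ℕ => (X : ℝ) ^ (1 / 4 : ℝ) < d),
          (2 * X) * (c ^ d.primeFactors.card / (d : ℝ)) := by
          refine sum_le_sum fun d hd => ?_
          have h1 := pm5_count X a d haX (hd0 d (mem_filter.mp hd).1)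
          calc c ^ d.primeFactors.card *
            (((Icc 1 X).filter (fun b => b.Prime ∧ b ≠ a ∧ b ≡ a [MOD d])).card : ℝ)
              ≤ c ^ d.primeFactors.card * (2 * X / d) := by gcongr
            _ = (2 * X) * (c ^ d.primeFactors.card / (d : ℝ)) := by ring
      _ = (2 * X) * ∑ d ∈ (primorial z).divisors.filter (fun d : ℕ => (X : ℝ) ^ (1 / 4 : ℝ) < d),
          c ^ d.primeFactors.card / (d : ℝ) := by rw [mul_sum]
      _ ≤ (2 * X) * (X : ℝ) ^ (-(1 / (16 * B : ℝ))) :=
          mul_le_mul_of_nonneg_left (hR X hX1 c hc hcX) (by positivity)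
      _ ≤ X / Real.log X := by
          rw [le_div_iff₀ hL0]
          have hlog := Real.log_le_rpow_div hX0.le (show (0 : ℝ) < 1 / (32 * B) by positivity)
          have h1 : Real.log X ≤ 32 * B * (X : ℝ) ^ (1 / (32 * B) : ℝ) := by
            refine hlog.trans (le_of_eq ?_)
            field_simp
          have h2 : (64 * B : ℝ) ≤ (X : ℝ) ^ (1 / (32 * B) : ℝ) := by
            have h3 : ((64 * B : ℝ)) ^ (32 * B : ℝ) ≤ X := by
              have h4 : (((64 * B) ^ (32 * B) : ℕ) : ℝ) ≤ X := by exact_mod_cast hXB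
              have h5 : (((64 * B) ^ (32 * B) : ℕ) : ℝ) = ((64 * B : ℝ)) ^ (32 * B : ℝ) := by
                push_cast
                rw [← Real.rpow_natCast]
                push_cast
                rfl
              rw [← h5]
              exact h4
            have h6 := Real.rpow_le_rpow (by positivity) h3
              (show (0 : ℝ) ≤ 1 / (32 * B) by positivity)
            rw [← Real.rpow_mul (by positivity)] at h6
            have h7 : (32 * B : ℝ) * (1 / (32 * B)) = 1 := by field_simp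
            rw [h7, Real.rpow_one] at h6
            exact h6
          have h8 : (X : ℝ) ^ (-(1 / (16 * B : ℝ))) * ((X : ℝ) ^ (1 / (32 * B) : ℝ) *
              (X : ℝ) ^ (1 / (32 * B) : ℝ)) = 1 := by
            rw [← Real.rpow_add hX0, ← Real.rpow_add hX0]
            have : -(1 / (16 * B : ℝ)) + (1 / (32 * B) + 1 / (32 * B) : ℝ) = 0 := by
              field_simp
              ring
            rw [this, Real.rpow_zero]
          have h9 : 0 < (X : ℝ) ^ (-(1 / (16 * B : ℝ))) := by positivity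
          calc 2 * (X : ℝ) * (X : ℝ) ^ (-(1 / (16 * B : ℝ))) * Real.log X
              ≤ 2 * (X : ℝ) * (X : ℝ) ^ (-(1 / (16 * B : ℝ))) *
                (32 * B * (X : ℝ) ^ (1 / (32 * B) : ℝ)) := by gcongr
            _ = X * ((X : ℝ) ^ (-(1 / (16 * B : ℝ))) * ((64 * B) *
                (X : ℝ) ^ (1 / (32 * B) : ℝ))) := by ring
            _ ≤ X * ((X : ℝ) ^ (-(1 / (16 * B : ℝ))) * ((X : ℝ) ^ (1 / (32 * B) : ℝ) *
                (X : ℝ) ^ (1 / (32 * B) : ℝ))) := by gcongr
            _ = X := by rw [h8, mul_one]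
  -- step 3
  have hstep3 : ∑ d ∈ (primorial z).divisors.filter (fun d : ℕ => ¬ (X : ℝ) ^ (1 / 4 : ℝ) < d),
      c ^ d.primeFactors.card *
        (((Icc 1 X).filter (fun b => b.Prime ∧ b ≠ a ∧ b ≡ a [MOD d])).card : ℝ) ≤
      C1 * (X / Real.log X) * (C * Real.log z) ^ c := by
    have h14 : (X : ℝ) ^ (1 / 4 : ℝ) ≤ (X : ℝ) ^ (1 / 2 : ℝ) :=
      Real.rpow_le_rpow_of_exponent_le (by linarith) (by norm_num)
    calc ∑ d ∈ (primorial z).divisors.filter (fun d : ℕ => ¬ (X : ℝ) ^ (1 / 4 : ℝ) < d),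
          c ^ d.primeFactors.card *
            (((Icc 1 X).filter (fun b => b.Prime ∧ b ≠ a ∧ b ≡ a [MOD d])).card : ℝ)
        ≤ ∑ d ∈ (primorial z).divisors.filter (fun d : ℕ => ¬ (X : ℝ) ^ (1 / 4 : ℝ) < d),
          (C1 * (X / Real.log X)) * (c ^ d.primeFactors.card / (d.totient : ℝ)) := by
          refine sum_le_sum fun d hd => ?_
          have hd' := mem_filter.mp hd
          have hdP := Nat.dvd_of_mem_divisors hd'.1
          have hda : Nat.Coprime a d := Nat.Coprime.coprime_dvd_right hdP hcop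
          have h1 := hBT X (by omega) d a (hd0 d hd'.1) ((not_lt.mp hd'.2).trans h14) hda
          have h2 : (((Icc 1 X).filter (fun b => b.Prime ∧ b ≠ a ∧ b ≡ a [MOD d])).card : ℝ) ≤
              (((Icc 1 X).filter (fun p => p.Prime ∧ p ≡ a [MOD d])).card : ℝ) := by
            have : ((Icc 1 X).filter (fun b => b.Prime ∧ b ≠ a ∧ b ≡ a [MOD d])).card ≤
              ((Icc 1 X).filter (fun p => p.Prime ∧ p ≡ a [MOD d])).card := by
              refine card_le_card fun b hb => ?_
              rw [mem_filter] at hb ⊢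
              exact ⟨hb.1, hb.2.1, hb.2.2.2⟩
            exact_mod_cast this
          calc c ^ d.primeFactors.card *
            (((Icc 1 X).filter (fun b => b.Prime ∧ b ≠ a ∧ b ≡ a [MOD d])).card : ℝ)
              ≤ c ^ d.primeFactors.card * (C1 * X / ((d.totient : ℝ) * Real.log X)) := by
                gcongr
                exact h2.trans h1
            _ = (C1 * (X / Real.log X)) * (c ^ d.primeFactors.card / (d.totient : ℝ)) := by
                rw [div_mul_eq_div_div]
                ring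
      _ = (C1 * (X / Real.log X)) *
          ∑ d ∈ (primorial z).divisors.filter (fun d : ℕ => ¬ (X : ℝ) ^ (1 / 4 : ℝ) < d),
            (c ^ d.primeFactors.card / (d.totient : ℝ)) := by rw [mul_sum]
      _ ≤ (C1 * (X / Real.log X)) *
          ∑ d ∈ (primorial z).divisors, (c ^ d.primeFactors.card / (d.totient : ℝ)) := by
          refine mul_le_mul_of_nonneg_left ?_ (by positivity)
          exact sum_le_sum_of_subset_of_nonneg (filter_subset _ _) fun _ _ _ => by positivity
      _ ≤ (C1 * (X / Real.log X)) * (C * Real.log z) ^ c := by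
          refine mul_le_mul_of_nonneg_left ?_ (by positivity)
          refine (pm5_prod z c hc).trans ?_
          have hVp := TS5_Vz_pos z
          refine Real.rpow_le_rpow (by positivity) ?_ hc0
          calc Real.exp 1 * (Vz z)⁻¹ ≤ Real.exp 1 * (C2 * Real.log z) := by
                have := hV z hz2
                gcongr
            _ = (Real.exp 1 * C2) * Real.log z := by ring
            _ ≤ C * Real.log z := by
                have : 0 ≤ Real.log z := by linarith
                gcongr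
  have hXL : 0 ≤ X / Real.log X := by positivity
  calc ∑ b ∈ (Icc 1 X).filter (fun b => b.Prime ∧ b ≠ a), c ^ (om z a b)
      ≤ _ := hstep1
    _ = _ := (sum_filter_add_sum_filter_not _ (fun d : ℕ => (X : ℝ) ^ (1 / 4 : ℝ) < d) _).symm
    _ ≤ X / Real.log X + C1 * (X / Real.log X) * (C * Real.log z) ^ c := add_le_add hstep2 hstep3
    _ ≤ X / Real.log X * (C * Real.log z) ^ c + C1 * (X / Real.log X) * (C * Real.log z) ^ c := by
        have := mul_le_mul_of_nonneg_left hpow1 hXL
        linarith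
    _ = (C1 + 1) * (X / Real.log X) * (C * Real.log z) ^ c := by ring
    _ ≤ C * (X / Real.log X) * (C * Real.log z) ^ c := by gcongr

end Pool.Agent.Lib.SW
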