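import Pool.Agent.Lib.SW.PM.PM4
import Pool.Agent.Lib.SW.PM.PM5b

/-!
# PM-6: many pairs without local obstruction

PROOFS.  `pairs_power`: let `N` be the number of good pairs, `V = ∑_{good} M^om ≥ #A²/2` (`off_diag`, `GG_le`; `M = MM c`).  For every `t ≥ 2`:
`V^t ≤ N^(t-1) ∑_{good} M^(t om)` (`pow_sum_div_card_le_sum_pow`) and
`∑_{a ≠ b} M^(t om) ≤ #A · R`, `R` a bound for each `a` (with `c = M^t` in `prime_moment`).  So `(#A²/2)^t ≤ N^(t-1) #A R`.
`exponent`: with `L2 = log log X`, `L3 = log L2`: choose `t` maximal with `M^t ≤ L2/L3²`; then `t ≥ (1-η) L3/log M`, and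
`log (#A^2/N) ≤ (1/(t-1)) (log (R/#A) + t log 2) ≤ (1/(t-1)) (K L2 + log (C/c₀) + M^t (L3 + log (C B)) + t log 2) ≤ (K log M + ε) L2/L3`.
(`log z ≤ B log X`... precisely `log (zB B X) ≤ B L2`.)
-/

set_option autoImplicit false

open Finset

namespace Pool.Agent.Lib.SW

open Classical in
/-- the good pairs -/
noncomputable def goodPairs (c : Bool) (z : ℕ) (A : Finset ℕ) : Finset (ℕ × ℕ) :=
  (A ×ˢ A).filter (fun q => q.1 ≠ q.2 ∧ ∀ p, p.Prime → p ≤ z → GoodP c p q.1 q.2)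

theorem PM6_pow_sum {ι : Type} (G : Finset ι) (f : ι → ℝ) (hf : ∀ q ∈ G, 0 ≤ f q) (t : ℕ)
    (ht : 1 ≤ t) : (∑ q ∈ G, f q) ^ t ≤ (G.card : ℝ) ^ (t - 1) * ∑ q ∈ G, f q ^ t := by
  obtain ⟨n, rfl⟩ : ∃ n, t = n + 1 := ⟨t - 1, by omega⟩
  rw [Nat.add_sub_cancel]
  rcases G.eq_empty_or_nonempty with h | h
  · subst h
    simp
  · have h1 := pow_sum_div_card_le_sum_pow hf n
    have h2 : (0 : ℝ) < (G.card : ℝ) ^ n := by
      have : (0 : ℝ) < G.card := by exact_mod_cast h.card_pos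
      positivity
    rw [div_le_iff₀ h2] at h1
    linarith [mul_comm ((G.card : ℝ) ^ n) (∑ q ∈ G, f q ^ (n + 1))]

theorem pairs_power (c : Bool) (z : ℕ) (A : Finset ℕ)
    (hA : ∀ a ∈ A, Nat.Coprime a (primorial z))
    (h1 : (A.card : ℝ) ^ 2 / 2 ≤ ∑ a ∈ A, ∑ b ∈ A.erase a, GG c z a b) (t : ℕ) (ht : 2 ≤ t) (R : ℝ)
    (hR : ∀ a ∈ A, ∑ b ∈ A.erase a, ((MM c) ^ t) ^ (om z a b) ≤ R) :
    ((A.card : ℝ) ^ 2 / 2) ^ t ≤ ((goodPairs c z A).card : ℝ) ^ (t - 1) * (A.card * R) := by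
  classical
  have hM : 0 ≤ MM c := by cases c <;> norm_num [MM]
  have hprod : ∀ F : ℕ → ℕ → ℝ, ∑ a ∈ A, ∑ b ∈ A.erase a, F a b =
      ∑ q ∈ (A ×ˢ A).filter (fun q => q.1 ≠ q.2), F q.1 q.2 := by
    intro F
    rw [Finset.sum_filter, Finset.sum_product]
    refine Finset.sum_congr rfl fun a ha => ?_
    rw [← Finset.filter_ne A a, Finset.sum_filter]
  have hsub : goodPairs c z A ⊆ (A ×ˢ A).filter (fun q => q.1 ≠ q.2) := by
    intro q hq
    unfold goodPairs at hq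
    rw [Finset.mem_filter] at hq ⊢
    exact ⟨hq.1, hq.2.1⟩
  have hV : ∑ a ∈ A, ∑ b ∈ A.erase a, GG c z a b =
      ∑ q ∈ goodPairs c z A, GG c z q.1 q.2 := by
    rw [hprod (fun a b => GG c z a b)]
    symm
    apply Finset.sum_subset hsub
    intro q hq hq'
    rw [Finset.mem_filter, Finset.mem_product] at hq
    apply (GG_le c z q.1 q.2 (hA _ hq.1.1) (hA _ hq.1.2)).2.2
    by_contra hcon
    push Not at hcon
    apply hq'
    unfold goodPairs
    rw [Finset.mem_filter, Finset.mem_product]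
    exact ⟨hq.1, hq.2, hcon⟩
  have hmem : ∀ q ∈ goodPairs c z A, q.1 ∈ A ∧ q.2 ∈ A := by
    intro q hq
    have := hsub hq
    rw [Finset.mem_filter, Finset.mem_product] at this
    exact this.1
  have hV2 : ∑ q ∈ goodPairs c z A, GG c z q.1 q.2 ≤
      ∑ q ∈ goodPairs c z A, (MM c) ^ (om z q.1 q.2) := by
    apply Finset.sum_le_sum
    intro q hq
    exact (GG_le c z q.1 q.2 (hA _ (hmem q hq).1) (hA _ (hmem q hq).2)).2.1
  have h2 : ((A.card : ℝ) ^ 2 / 2) ^ t ≤
      (∑ q ∈ goodPairs c z A, (MM c) ^ (om z q.1 q.2)) ^ t := by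
    apply pow_le_pow_left₀ (by positivity)
    exact (h1.trans hV.le).trans hV2
  refine h2.trans ((PM6_pow_sum _ _ (fun q _ => by positivity) t (by omega)).trans ?_)
  apply mul_le_mul_of_nonneg_left _ (by positivity)
  calc ∑ q ∈ goodPairs c z A, ((MM c) ^ (om z q.1 q.2)) ^ t
      ≤ ∑ q ∈ (A ×ˢ A).filter (fun q => q.1 ≠ q.2), ((MM c) ^ (om z q.1 q.2)) ^ t :=
        Finset.sum_le_sum_of_subset_of_nonneg hsub (fun q _ _ => by positivity)
    _ = ∑ a ∈ A, ∑ b ∈ A.erase a, ((MM c) ^ (om z a b)) ^ t :=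
        (hprod (fun a b => ((MM c) ^ (om z a b)) ^ t)).symm
    _ = ∑ a ∈ A, ∑ b ∈ A.erase a, ((MM c) ^ t) ^ (om z a b) := by
        refine Finset.sum_congr rfl fun a _ => Finset.sum_congr rfl fun b _ => ?_
        rw [← pow_mul, ← pow_mul, mul_comm]
    _ ≤ ∑ _a ∈ A, R := Finset.sum_le_sum hR
    _ = A.card * R := by rw [Finset.sum_const, nsmul_eq_mul]

theorem PM6_log_ev (η : ℝ) (hη : 0 < η) : ∀ᶠ y : ℝ in Filter.atTop, Real.log y ≤ η * y := by
  have h1 := Real.isLittleO_log_id_atTop.bound hη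
  filter_upwards [h1, Filter.eventually_ge_atTop 0] with y h2 h3
  rw [Real.norm_eq_abs, Real.norm_eq_abs, id, abs_of_nonneg h3] at h2
  exact (le_abs_self _).trans h2

theorem PM6_ev (m K δ D1 D2 : ℝ) (hm : 0 < m) (hK : 0 ≤ K) (hδ : 0 < δ) :
    ∀ᶠ y : ℝ in Filter.atTop, 1 ≤ y ∧ 3 * m ≤ y - 2 * Real.log y ∧
      K * (2 * Real.log y + 2 * m) ≤ δ * y ∧ y / m + D1 ≤ δ * Real.exp y ∧
      D2 + y ≤ δ * y ^ 2 ∧ 2 * Real.log y + 2 * m ≤ y / 2 ∧ y ≤ Real.exp y / 4 := by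
  have e1 := PM6_log_ev (1 / 8) (by norm_num)
  have e2 := PM6_log_ev (δ / (4 * (K + 1))) (by positivity)
  filter_upwards [e1, e2, Filter.eventually_ge_atTop 8, Filter.eventually_ge_atTop (8 * m),
    Filter.eventually_ge_atTop (4 * K * m / δ), Filter.eventually_ge_atTop ((2 / m + 2) / δ),
    Filter.eventually_ge_atTop D1, Filter.eventually_ge_atTop D2,
    Filter.eventually_ge_atTop (2 / δ)] with y a1 a2 a3 a4 a5 a6 a7 a8 a9
  have hy : 0 < y := by linarith
  have hq := Real.quadratic_le_exp_of_nonneg hy.le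
  rw [div_le_iff₀ hδ] at a5 a6 a9
  refine ⟨by linarith, by linarith, ?_, ?_, ?_, by linarith, ?_⟩
  · have h1 : K * Real.log y ≤ K * (δ / (4 * (K + 1)) * y) := mul_le_mul_of_nonneg_left a2 hK
    have h2 : K * (δ / (4 * (K + 1)) * y) ≤ δ * y / 4 := by
      have h3 : K * (δ / (4 * (K + 1)) * y) = (K / (K + 1)) * (δ * y / 4) := by
        have : K + 1 ≠ 0 := by positivity
        field_simp
      rw [h3]
      apply mul_le_of_le_one_left (by positivity)
      rw [div_le_one (by positivity)]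
      linarith
    nlinarith
  · have h1 : y / m = (1 / m) * y := by ring
    have h2 : (1 / m + 1) * y ≤ δ * y ^ 2 / 2 := by
      have h3 : (1 / m + 1) * y ≤ (y * δ / 2) * y := by
        apply mul_le_mul_of_nonneg_right _ hy.le
        have : 2 / m = 2 * (1 / m) := by ring
        linarith
      nlinarith
    have h4 : δ * (y ^ 2 / 2) ≤ δ * Real.exp y := mul_le_mul_of_nonneg_left (by linarith) hδ.le
    nlinarith
  · have h1 : 2 * y ≤ δ * y ^ 2 := by nlinarith
    linarith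
  · nlinarith

/-- the logarithmic inequality -/
theorem PM6_key (m K ε L2 y D1 D2 tt la lN : ℝ) (hm : 0 < m) (hK : 0 ≤ K) (hε : 0 < ε)
    (hL2 : L2 = Real.exp y) (hy1 : 1 ≤ y)
    (c2 : K * (2 * Real.log y + 2 * m) ≤ ε / (6 * m) * y)
    (c3 : y / m + D1 ≤ ε / (6 * m) * Real.exp y)
    (c4 : D2 + y ≤ ε / (6 * m) * y ^ 2)
    (c5 : 2 * Real.log y + 2 * m ≤ y / 2)
    (hy8 : 3 * m ≤ y - 2 * Real.log y)
    (ht1 : tt ≤ (y - 2 * Real.log y) / m) (ht2 : (y - 2 * Real.log y) / m - 1 < tt)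
    (hmain : 2 * (tt - 1) * la - K * L2 - tt * Real.log 2 - D1 - L2 / y ^ 2 * (D2 + y) ≤
      (tt - 1) * lN) :
    2 * la - (K * m + ε) * L2 / y ≤ lN := by
  have hL2p : 0 < L2 := by rw [hL2]; exact Real.exp_pos y
  have hy0 : 0 < y := by linarith
  have hlogy : 0 ≤ Real.log y := Real.log_nonneg hy1
  have ht3 : (y - 2 * Real.log y) - 2 * m ≤ (tt - 1) * m := by
    have h1 : ((y - 2 * Real.log y) / m - 1) * m ≤ tt * m := mul_le_mul_of_nonneg_right ht2.le hm.le
    have h2 : ((y - 2 * Real.log y) / m - 1) * m = (y - 2 * Real.log y) - m := by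
      field_simp
    nlinarith
  have htt : tt ≤ y / m := ht1.trans (div_le_div_of_nonneg_right (by linarith) hm.le)
  have ht0 : 0 < tt - 1 := by
    have : 0 < (tt - 1) * m := by linarith
    exact (mul_pos_iff_of_pos_right hm).1 this
  -- the error terms
  have hlog2 : Real.log 2 ≤ 1 := by
    have := Real.log_two_lt_d9
    linarith
  have hlog20 : 0 ≤ Real.log 2 := Real.log_nonneg (by norm_num)
  have htt0 : 0 ≤ tt := by linarith
  have e1 : tt * Real.log 2 ≤ y / m := by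
    calc tt * Real.log 2 ≤ tt * 1 := mul_le_mul_of_nonneg_left hlog2 htt0
      _ ≤ y / m := by linarith
  have e2 : tt * Real.log 2 + D1 ≤ ε / (6 * m) * L2 := by
    rw [hL2]
    linarith
  have e3 : L2 / y ^ 2 * (D2 + y) ≤ ε / (6 * m) * L2 := by
    calc L2 / y ^ 2 * (D2 + y) ≤ L2 / y ^ 2 * (ε / (6 * m) * y ^ 2) :=
          mul_le_mul_of_nonneg_left c4 (by positivity)
      _ = ε / (6 * m) * L2 := by
          field_simp
  -- the main terms
  have e4 : K * L2 ≤ (tt - 1) * (K * m * L2 / y) + ε / (6 * m) * L2 := by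
    have h1 : K * (y - (tt - 1) * m) ≤ ε / (6 * m) * y := by
      refine le_trans (mul_le_mul_of_nonneg_left ?_ hK) c2
      linarith
    have h2 : K * (y - (tt - 1) * m) * (L2 / y) ≤ ε / (6 * m) * y * (L2 / y) :=
      mul_le_mul_of_nonneg_right h1 (by positivity)
    have h3 : K * (y - (tt - 1) * m) * (L2 / y) = K * L2 - (tt - 1) * (K * m * L2 / y) := by
      field_simp
    have h4 : ε / (6 * m) * y * (L2 / y) = ε / (6 * m) * L2 := by
      field_simp
    linarith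
  have e5 : ε / (2 * m) * L2 ≤ (tt - 1) * (ε * L2 / y) := by
    have h1 : y / 2 ≤ (tt - 1) * m := by linarith
    have h2 : y / 2 * (ε * L2 / (y * m)) ≤ (tt - 1) * m * (ε * L2 / (y * m)) :=
      mul_le_mul_of_nonneg_right h1 (by positivity)
    have h3 : y / 2 * (ε * L2 / (y * m)) = ε / (2 * m) * L2 := by
      field_simp
    have h4 : (tt - 1) * m * (ε * L2 / (y * m)) = (tt - 1) * (ε * L2 / y) := by
      field_simp
    linarith
  have e6 : ε / (2 * m) * L2 = ε / (6 * m) * L2 + ε / (6 * m) * L2 + ε / (6 * m) * L2 := by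
    field_simp
    ring
  have e7 : (tt - 1) * (2 * la - (K * m + ε) * L2 / y) ≤ (tt - 1) * lN := by
    have h1 : (tt - 1) * (2 * la - (K * m + ε) * L2 / y) =
        2 * (tt - 1) * la - (tt - 1) * (K * m * L2 / y) - (tt - 1) * (ε * L2 / y) := by
      field_simp
      ring
    rw [h1]
    linarith
  exact le_of_mul_le_mul_left e7 ht0

/-- the real inequality behind the choice of `t` -/
theorem exponent (M : ℝ) (hM : 1 < M) (B : ℕ) (K ε c₀ C : ℝ) (hK : 0 ≤ K) (hε : 0 < ε)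
    (hc₀ : 0 < c₀) (hC : 1 ≤ C) : ∃ X₀ : ℕ, ∀ X : ℕ, X₀ ≤ X → ∃ t : ℕ, 2 ≤ t ∧
      M ^ t ≤ (Real.log X) ^ (1 / 4 : ℝ) ∧ ∀ N a : ℝ, 0 ≤ N → 0 < a →
        c₀ * X / (Real.log X) ^ (K + 1) ≤ a →
        (a ^ 2 / 2) ^ t ≤ N ^ (t - 1) *
          (a * (C * (X / Real.log X) * (C * Real.log (zB B X)) ^ (M ^ t))) →
        a ^ 2 * Real.exp (-(K * Real.log M + ε) * Real.log (Real.log X) /
          Real.log (Real.log (Real.log X))) ≤ N := by
  have hm : 0 < Real.log M := Real.log_pos hM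
  obtain ⟨m, hmdef⟩ : ∃ m : ℝ, m = Real.log M := ⟨_, rfl⟩
  rw [← hmdef] at hm ⊢
  have t1 : Filter.Tendsto (fun X : ℕ => Real.log (X : ℝ)) Filter.atTop Filter.atTop :=
    Real.tendsto_log_atTop.comp tendsto_natCast_atTop_atTop
  have t2 : Filter.Tendsto (fun X : ℕ => Real.log (Real.log (X : ℝ))) Filter.atTop Filter.atTop :=
    Real.tendsto_log_atTop.comp t1
  have t3 : Filter.Tendsto (fun X : ℕ => Real.log (Real.log (Real.log (X : ℝ))))
      Filter.atTop Filter.atTop := Real.tendsto_log_atTop.comp t2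
  obtain ⟨X₀, hX₀⟩ := Filter.eventually_atTop.1
    ((t3.eventually (PM6_ev m K (ε / (6 * m)) (Real.log C - Real.log c₀)
      (Real.log (C * (B + 1))) hm hK (by positivity))).and
      ((t2.eventually (Filter.eventually_ge_atTop 1)).and
        ((t1.eventually (Filter.eventually_ge_atTop 1)).and (Filter.eventually_ge_atTop 1))))
  refine ⟨X₀, fun X hX => ?_⟩
  obtain ⟨⟨hy1, hy8, c2, c3, c4, c5, c6⟩, hL2, hL, hX1⟩ := hX₀ X hX
  obtain ⟨L, hLdef⟩ : ∃ L : ℝ, L = Real.log X := ⟨_, rfl⟩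
  rw [← hLdef] at hy1 hy8 c2 c3 c4 c5 c6 hL2 hL ⊢
  obtain ⟨L2, hL2def⟩ : ∃ L2 : ℝ, L2 = Real.log L := ⟨_, rfl⟩
  rw [← hL2def] at hy1 hy8 c2 c3 c4 c5 c6 hL2 ⊢
  obtain ⟨y, hydef⟩ : ∃ y : ℝ, y = Real.log L2 := ⟨_, rfl⟩
  rw [← hydef] at hy1 hy8 c2 c3 c4 c5 c6 ⊢
  have hX0 : (0 : ℝ) < X := by exact_mod_cast (show 0 < X by omega)
  have hL0 : 0 < L := by linarith
  have hL20 : 0 < L2 := by linarith
  have hy0 : 0 < y := by linarith
  have hlogy : 0 ≤ Real.log y := Real.log_nonneg hy1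
  have hexpy : Real.exp y = L2 := by rw [hydef, Real.exp_log hL20]
  have hexpL2 : Real.exp L2 = L := by rw [hL2def, Real.exp_log hL0]
  have hM0 : 0 < M := by linarith
  obtain ⟨t, htdef⟩ : ∃ t : ℕ, t = ⌊(y - 2 * Real.log y) / m⌋₊ := ⟨_, rfl⟩
  have hq3 : 3 ≤ (y - 2 * Real.log y) / m := by
    rw [le_div_iff₀ hm]
    linarith
  have ht1 : (t : ℝ) ≤ (y - 2 * Real.log y) / m := by
    rw [htdef]
    exact Nat.floor_le (by linarith)
  have ht2 : (y - 2 * Real.log y) / m - 1 < t := by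
    rw [htdef]
    exact Nat.sub_one_lt_floor _
  have ht3 : 3 ≤ t := by
    rw [htdef]
    apply Nat.le_floor
    exact_mod_cast hq3
  have hMt : M ^ t ≤ L2 / y ^ 2 := by
    have h1 : M ^ t = Real.exp (t * m) := by
      rw [hmdef, Real.exp_nat_mul, Real.exp_log hM0]
    have h2 : (t : ℝ) * m ≤ y - 2 * Real.log y := by
      rw [le_div_iff₀ hm] at ht1
      exact ht1
    have h3 : Real.exp (y - 2 * Real.log y) = L2 / y ^ 2 := by
      rw [Real.exp_sub, hexpy]
      congr 1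
      rw [show 2 * Real.log y = ((2 : ℕ) : ℝ) * Real.log y by norm_num, Real.exp_nat_mul,
        Real.exp_log hy0]
    rw [h1, ← h3]
    exact Real.exp_le_exp.2 h2
  refine ⟨t, by omega, ?_, ?_⟩
  · have h1 : M ^ t ≤ L2 := by
      refine hMt.trans ?_
      apply div_le_self hL20.le
      nlinarith
    refine h1.trans ?_
    rw [Real.rpow_def_of_pos hL0, ← hL2def]
    calc L2 = Real.exp y := hexpy.symm
      _ ≤ Real.exp (L2 * (1 / 4)) := by
        apply Real.exp_le_exp.2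
        rw [hexpy] at c6
        linarith
  · intro N a hN ha hac h
    have hC0 : 0 < C := by linarith
    -- replace `log z` by `B L2`
    have hz : 0 ≤ Real.log (zB B X) := Real.log_natCast_nonneg _
    have hz2 : Real.log (zB B X) ≤ B * L2 := by
      rcases Nat.eq_zero_or_pos (zB B X) with h0 | h0
      · rw [h0]
        simp only [Nat.cast_zero, Real.log_zero]
        positivity
      · have h1 : ((zB B X : ℕ) : ℝ) ≤ L ^ B := by
          unfold zB
          rw [hLdef]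
          exact Nat.floor_le (by rw [← hLdef]; positivity)
        rw [hL2def, ← Real.log_pow]
        exact Real.log_le_log (by exact_mod_cast h0) h1
    obtain ⟨D, hDdef⟩ : ∃ D : ℝ, D = C * (B + 1) * L2 := ⟨_, rfl⟩
    have hB0 : (0 : ℝ) ≤ B := Nat.cast_nonneg _
    have hD1 : 1 ≤ D := by
      rw [hDdef]
      exact one_le_mul_of_one_le_of_one_le
        (one_le_mul_of_one_le_of_one_le hC (by linarith)) hL2
    have hD0 : 0 < D := by linarith
    have hzD : C * Real.log (zB B X) ≤ D := by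
      rw [hDdef]
      have h1 : C * Real.log (zB B X) ≤ C * (B * L2) := mul_le_mul_of_nonneg_left hz2 hC0.le
      have h2 : 0 ≤ C * L2 := by positivity
      have h3 : C * (B + 1) * L2 = C * (B * L2) + C * L2 := by ring
      linarith
    have hMt0 : 0 ≤ M ^ t := by positivity
    have hpow : (C * Real.log (zB B X)) ^ (M ^ t) ≤ D ^ (M ^ t) :=
      Real.rpow_le_rpow (by positivity) hzD hMt0
    have h' : (a ^ 2 / 2) ^ t ≤ N ^ (t - 1) * (a * (C * (X / L) * D ^ (M ^ t))) := by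
      refine h.trans ?_
      apply mul_le_mul_of_nonneg_left _ (by positivity)
      apply mul_le_mul_of_nonneg_left _ ha.le
      exact mul_le_mul_of_nonneg_left hpow (by positivity)
    have hlhs : 0 < (a ^ 2 / 2) ^ t := by positivity
    have hNpos : 0 < N := by
      rcases hN.eq_or_lt with h0 | h0
      · exfalso
        rw [← h0, zero_pow (by omega), zero_mul] at h'
        linarith
      · exact h0
    have hDp : 0 < D ^ (M ^ t) := Real.rpow_pos_of_pos hD0 _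
    have hlog := Real.log_le_log hlhs h'
    rw [Real.log_pow, Real.log_div (by positivity) (by norm_num), Real.log_pow,
      Real.log_mul (by positivity) (by positivity), Real.log_pow,
      Real.log_mul ha.ne' (by positivity), Real.log_mul (by positivity) hDp.ne',
      Real.log_mul hC0.ne' (by positivity), Real.log_div hX0.ne' hL0.ne', ← hLdef, ← hL2def,
      Real.log_rpow hD0, Nat.cast_sub (by omega : 1 ≤ t)] at hlog
    push_cast at hlog
    have hlogD : Real.log D = Real.log (C * (B + 1)) + y := by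
      rw [hDdef, Real.log_mul (by positivity) hL20.ne', hydef]
    have hlogD0 : 0 ≤ Real.log D := Real.log_nonneg hD1
    have hMD : M ^ t * Real.log D ≤ L2 / y ^ 2 * (Real.log (C * (B + 1)) + y) := by
      rw [← hlogD]
      exact mul_le_mul_of_nonneg_right hMt hlogD0
    have hla : Real.log c₀ + L - (K + 1) * L2 ≤ Real.log a := by
      have h1 := Real.log_le_log (by positivity) hac
      rw [Real.log_div (by positivity) (by positivity), Real.log_mul hc₀.ne' hX0.ne',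
        Real.log_rpow hL0, ← hLdef, ← hL2def] at h1
      exact h1
    have hkey := PM6_key m K ε L2 y (Real.log C - Real.log c₀) (Real.log (C * (B + 1))) t
      (Real.log a) (Real.log N) hm hK hε hexpy.symm hy1 c2 c3 c4 c5 hy8 ht1 ht2 (by linarith)
    have h9 : a ^ 2 * Real.exp (-(K * m + ε) * L2 / y) =
        Real.exp (2 * Real.log a - (K * m + ε) * L2 / y) := by
      rw [show -(K * m + ε) * L2 / y = -((K * m + ε) * L2 / y) by ring, Real.exp_neg,
        Real.exp_sub, show 2 * Real.log a = ((2 : ℕ) : ℝ) * Real.log a by norm_num,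
        Real.exp_nat_mul, Real.exp_log ha]
      exact (div_eq_mul_inv _ _).symm
    rw [h9]
    calc Real.exp (2 * Real.log a - (K * m + ε) * L2 / y) ≤ Real.exp (Real.log N) :=
          Real.exp_le_exp.2 hkey
      _ = N := Real.exp_log hNpos

theorem compat_count (c : Bool) (B : ℕ) (hB : 1 ≤ B) (K ε c₀ : ℝ) (hK : 0 ≤ K) (hε : 0 < ε)
    (hc₀ : 0 < c₀) : ∃ X₀ : ℕ, ∀ X : ℕ, X₀ ≤ X → ∀ A : Finset ℕ,
      (∀ a ∈ A, a.Prime ∧ zB B X < a ∧ a ≤ X) →
        c₀ * X / (Real.log X) ^ (K + 1) ≤ (A.card : ℝ) →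
          (A.card : ℝ) ^ 2 * Real.exp (-(K * Real.log (MM c) + ε) * Real.log (Real.log X) /
            Real.log (Real.log (Real.log X))) ≤ ((goodPairs c (zB B X) A).card : ℝ) := by
  classical
  have hM : 1 < MM c := by cases c <;> norm_num [MM]
  obtain ⟨C, hC, X₁, h₁⟩ := prime_moment B hB
  obtain ⟨X₂, h₂⟩ := exponent (MM c) hM B K ε c₀ C hK hε hc₀ hC
  obtain ⟨X₃, h₃⟩ := off_diag c B (⌈K⌉₊ + 2) hB
  have t1 : Filter.Tendsto (fun X : ℕ => Real.log (X : ℝ)) Filter.atTop Filter.atTop :=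
    Real.tendsto_log_atTop.comp tendsto_natCast_atTop_atTop
  obtain ⟨X₄, h₄⟩ := Filter.eventually_atTop.1
    ((t1.eventually (Filter.eventually_ge_atTop (max 1 (1 / c₀)))).and
      (Filter.eventually_ge_atTop 1))
  refine ⟨max (max X₁ X₂) (max X₃ X₄), fun X hX A hA hcard => ?_⟩
  have hX1 : X₁ ≤ X := le_trans (le_max_left _ _) ((le_max_left _ _).trans hX)
  have hX2 : X₂ ≤ X := le_trans (le_max_right _ _) ((le_max_left _ _).trans hX)
  have hX3 : X₃ ≤ X := le_trans (le_max_left _ _) ((le_max_right _ _).trans hX)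
  have hX4 : X₄ ≤ X := le_trans (le_max_right _ _) ((le_max_right _ _).trans hX)
  obtain ⟨hLmax, hX5⟩ := h₄ X hX4
  obtain ⟨L, hLdef⟩ : ∃ L : ℝ, L = Real.log X := ⟨_, rfl⟩
  have hL1 : 1 ≤ L := by rw [hLdef]; exact (le_max_left _ _).trans hLmax
  have hLc : 1 / c₀ ≤ L := by rw [hLdef]; exact (le_max_right _ _).trans hLmax
  have hL0 : 0 < L := by linarith
  have hX0 : (0 : ℝ) < X := by exact_mod_cast (show 0 < X by omega)
  have hAsub : A ⊆ Icc 1 X := by
    intro a ha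
    obtain ⟨h1, _, h3⟩ := hA a ha
    rw [Finset.mem_Icc]
    exact ⟨h1.one_le, h3⟩
  have hcop : ∀ a ∈ A, Nat.Coprime a (primorial (zB B X)) := by
    intro a ha
    obtain ⟨h1, h2, _⟩ := hA a ha
    rw [Nat.Prime.coprime_iff_not_dvd h1, h1.dvd_primorial_iff]
    omega
  have hoff := h₃ X hX3 A hAsub hcop (by
    refine le_trans ?_ hcard
    rw [← hLdef]
    have h1 : L ^ (K + 1) * L ≤ c₀ * L * L ^ (⌈K⌉₊ + 2) := by
      have h2 : L ^ (K + 1) ≤ L ^ (⌈K⌉₊ + 1) := by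
        rw [← Real.rpow_natCast]
        apply Real.rpow_le_rpow_of_exponent_le hL1
        push_cast
        linarith [Nat.le_ceil K]
      have h3 : 1 ≤ c₀ * L := by
        rw [div_le_iff₀ hc₀] at hLc
        linarith
      have h4 : L ^ (K + 1) * L ≤ L ^ (⌈K⌉₊ + 1) * L := mul_le_mul_of_nonneg_right h2 hL0.le
      have h5 : L ^ (⌈K⌉₊ + 1) * L = L ^ (⌈K⌉₊ + 2) := by ring
      have h6 : (0 : ℝ) ≤ L ^ (⌈K⌉₊ + 2) := by positivity
      calc L ^ (K + 1) * L ≤ L ^ (⌈K⌉₊ + 2) := by rw [← h5]; exact h4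
        _ = 1 * L ^ (⌈K⌉₊ + 2) := (one_mul _).symm
        _ ≤ c₀ * L * L ^ (⌈K⌉₊ + 2) := mul_le_mul_of_nonneg_right h3 h6
    have hp : 0 < L ^ (K + 1) := Real.rpow_pos_of_pos hL0 _
    rw [div_le_div_iff₀ (by positivity) hp]
    have h7 : L ^ (K + 1) ≤ c₀ * L ^ (⌈K⌉₊ + 2) := by
      apply le_of_mul_le_mul_right _ hL0
      calc L ^ (K + 1) * L ≤ _ := h1
        _ = _ := by ring
    calc (X : ℝ) * L ^ (K + 1) ≤ X * (c₀ * L ^ (⌈K⌉₊ + 2)) :=
          mul_le_mul_of_nonneg_left h7 hX0.le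
      _ = _ := by ring)
  have hcard0 : (0 : ℝ) < A.card := by
    refine lt_of_lt_of_le ?_ hcard
    have hp : 0 < L ^ (K + 1) := Real.rpow_pos_of_pos hL0 _
    rw [← hLdef]
    positivity
  obtain ⟨t, ht, hMt, hfin⟩ := h₂ X hX2
  apply hfin _ _ (Nat.cast_nonneg _) hcard0 hcard
  apply pairs_power c (zB B X) A hcop hoff t ht
  intro a ha
  obtain ⟨h1, h2, h3⟩ := hA a ha
  have hmom := h₁ X hX1 ((MM c) ^ t) (one_le_pow₀ hM.le) hMt a h1.one_le h3 (hcop a ha)
  refine le_trans ?_ hmom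
  apply Finset.sum_le_sum_of_subset_of_nonneg
  · intro b hb
    rw [Finset.mem_erase] at hb
    obtain ⟨g1, _, g3⟩ := hA b hb.2
    rw [Finset.mem_filter, Finset.mem_Icc]
    exact ⟨⟨g1.one_le, g3⟩, g1, hb.1⟩
  · intro b _ _
    have : 0 ≤ MM c := by linarith
    positivity

end Pool.Agent.Lib.SW
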