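import Pool.Agent.Lib.SW.PM.PM8

/-!
# PM-9: many midpoints

PROOFS.  `K' = ⌈K⌉₊ + 6`, `upper_all K' 1` for `S = A` (`#A ≥ X/(log X)^K'`): exceptional set `E`, `#E ≤ X/(log X)^K'`; `T = X/(log X)^(K'+2)` as in `two_sets` (TS10).
`mid_count`: a pair of `midPairs A` is a pair of distinct odd primes (if `a = 2` then `b` is even).  Pairs with `b ≤ T`: `≤ #A T`; with `a + b ∈ E`: `≤ #A #E`.
For the others with `a + b = 2p`: at most `2 e^γ L3 #A/log T` pairs for each `p` (as `TS10_fibre`), `log T ≥ (log X)/2`.  So the number of `p` is at least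
`(#midPairs - 2 #A X/(log X)^K') log X/(4 e^γ L3 #A) ≥ #A exp (-(K log 2 + ε) L2/L3)`.
`third_count`: the same for `thirdPairs A`, with `2b` in place of `2p`, `r = 2b - a`: pairs with `r ≤ T`: `≤ #A T`; with `2b ∈ E`: `≤ #A #E`.
-/

set_option autoImplicit false

open Finset Pool.Agent.Lib.GT

namespace Pool.Agent.Lib.SW

/-- counting argument: pairs `q` with `q.1 ∈ A` and `2 ψ q - q.1` prime -/
theorem PM9_core (A E D : Finset ℕ) (P : Finset (ℕ × ℕ)) (ψ : ℕ × ℕ → ℕ) (T U : ℝ) (hT : 1 < T)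
    (hU : 0 ≤ U)
    (h1 : ∀ q ∈ P, q.1 ∈ A ∧ q.1 < 2 * ψ q ∧ (2 * ψ q - q.1).Prime ∧ ψ q ∈ D)
    (h2 : ∀ q ∈ P, ∀ q' ∈ P, q.1 = q'.1 → ψ q = ψ q' → q = q')
    (h3 : ∀ n ∈ D, 2 * n ∉ E → rS A (2 * n) ≤ U) :
    ((P.card : ℝ) - A.card * T - A.card * E.card) * Real.log T ≤ D.card * U := by
  classical
  have hlT : 0 < Real.log T := Real.log_pos hT
  obtain ⟨P', hP'⟩ : ∃ P', P' = P.filter (fun q => T < ((2 * ψ q - q.1 : ℕ) : ℝ) ∧ 2 * ψ q ∉ E) :=
    ⟨_, rfl⟩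
  have hsub : P ⊆ P' ∪ (P.filter (fun q => ((2 * ψ q - q.1 : ℕ) : ℝ) ≤ T) ∪
      P.filter (fun q => 2 * ψ q ∈ E)) := by
    intro q hq
    rw [mem_union, mem_union, hP', mem_filter, mem_filter, mem_filter]
    by_cases h4 : ((2 * ψ q - q.1 : ℕ) : ℝ) ≤ T
    · exact Or.inr (Or.inl ⟨hq, h4⟩)
    · by_cases h5 : 2 * ψ q ∈ E
      · exact Or.inr (Or.inr ⟨hq, h5⟩)
      · exact Or.inl ⟨hq, not_le.1 h4, h5⟩
  have hc1 : ((P.filter (fun q => ((2 * ψ q - q.1 : ℕ) : ℝ) ≤ T)).card : ℝ) ≤ A.card * T := by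
    have h4 : (P.filter (fun q => ((2 * ψ q - q.1 : ℕ) : ℝ) ≤ T)).card ≤
        (A ×ˢ Icc 1 ⌊T⌋₊).card := by
      refine card_le_card_of_injOn (fun q => (q.1, 2 * ψ q - q.1)) ?_ ?_
      · intro q hq
        obtain ⟨hq1, hq2⟩ := mem_filter.1 (mem_coe.1 hq)
        obtain ⟨k1, k2, k3, k4⟩ := h1 q hq1
        exact mem_coe.2 (mem_product.2 ⟨k1, mem_Icc.2 ⟨k3.one_le, Nat.le_floor hq2⟩⟩)
      · intro q hq q' hq' h
        obtain ⟨hq1, -⟩ := mem_filter.1 (mem_coe.1 hq)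
        obtain ⟨hq1', -⟩ := mem_filter.1 (mem_coe.1 hq')
        have h8 := congrArg Prod.fst h
        have h9 := congrArg Prod.snd h
        dsimp only at h8 h9
        have k2 := (h1 q hq1).2.1
        have k2' := (h1 q' hq1').2.1
        exact h2 q hq1 q' hq1' h8 (by omega)
    rw [card_product, Nat.card_Icc, Nat.add_sub_cancel] at h4
    calc ((P.filter (fun q => ((2 * ψ q - q.1 : ℕ) : ℝ) ≤ T)).card : ℝ) ≤
          ((A.card * ⌊T⌋₊ : ℕ) : ℝ) := by exact_mod_cast h4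
      _ = A.card * (⌊T⌋₊ : ℝ) := by push_cast; rfl
      _ ≤ A.card * T := mul_le_mul_of_nonneg_left (Nat.floor_le (by linarith)) (Nat.cast_nonneg _)
  have hc2 : ((P.filter (fun q => 2 * ψ q ∈ E)).card : ℝ) ≤ A.card * E.card := by
    have h4 : (P.filter (fun q => 2 * ψ q ∈ E)).card ≤ (A ×ˢ E).card := by
      refine card_le_card_of_injOn (fun q => (q.1, 2 * ψ q)) ?_ ?_
      · intro q hq
        obtain ⟨hq1, hq2⟩ := mem_filter.1 (mem_coe.1 hq)
        exact mem_coe.2 (mem_product.2 ⟨(h1 q hq1).1, hq2⟩)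
      · intro q hq q' hq' h
        obtain ⟨hq1, -⟩ := mem_filter.1 (mem_coe.1 hq)
        obtain ⟨hq1', -⟩ := mem_filter.1 (mem_coe.1 hq')
        have h8 := congrArg Prod.fst h
        have h9 := congrArg Prod.snd h
        dsimp only at h8 h9
        exact h2 q hq1 q' hq1' h8 (by omega)
    rw [card_product] at h4
    exact_mod_cast h4
  have hc3 : (P.card : ℝ) ≤ P'.card +
      (((P.filter (fun q => ((2 * ψ q - q.1 : ℕ) : ℝ) ≤ T)).card : ℝ) +
        ((P.filter (fun q => 2 * ψ q ∈ E)).card : ℝ)) := by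
    have h4 := card_le_card hsub
    have h5 := h4.trans (card_union_le _ _)
    have h6 := card_union_le (P.filter (fun q => ((2 * ψ q - q.1 : ℕ) : ℝ) ≤ T))
      (P.filter (fun q => 2 * ψ q ∈ E))
    have h7 := h5.trans (Nat.add_le_add_left h6 _)
    exact_mod_cast h7
  have hfib : ∀ n ∈ D, ((P'.filter (fun q => ψ q = n)).card : ℝ) ≤ U / Real.log T := by
    intro n hn
    rw [le_div_iff₀ hlT]
    obtain ⟨F, hF⟩ : ∃ F, F = P'.filter (fun q => ψ q = n) := ⟨_, rfl⟩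
    rw [← hF]
    have hmem : ∀ q ∈ F, q ∈ P ∧ T < ((2 * n - q.1 : ℕ) : ℝ) ∧ 2 * n ∉ E ∧ ψ q = n := by
      intro q hq
      rw [hF, mem_filter, hP', mem_filter] at hq
      obtain ⟨⟨k1, k2, k3⟩, k4⟩ := hq
      rw [k4] at k2 k3
      exact ⟨k1, k2, k3, k4⟩
    rcases F.eq_empty_or_nonempty with hFe | ⟨q0, hq0⟩
    · rw [hFe, card_empty, Nat.cast_zero, zero_mul]
      exact hU
    · refine le_trans ?_ (h3 n hn (hmem q0 hq0).2.2.1)
      have h4 : (F.card : ℝ) * Real.log T ≤ ∑ q ∈ F, lam (2 * n - q.1) := by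
        rw [← nsmul_eq_mul]
        refine card_nsmul_le_sum _ _ _ ?_
        intro q hq
        obtain ⟨k1, k2, k3, k4⟩ := hmem q hq
        obtain ⟨l1, l2, l3, l4⟩ := h1 q k1
        rw [k4] at l3
        unfold lam
        rw [if_pos l3]
        exact Real.log_le_log (by linarith) k2.le
      refine h4.trans ?_
      have hinj : Set.InjOn (fun q : ℕ × ℕ => q.1) F := by
        intro q hq q' hq' h
        have k1 := hmem q (mem_coe.1 hq)
        have k1' := hmem q' (mem_coe.1 hq')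
        exact h2 q k1.1 q' k1'.1 h (by rw [k1.2.2.2, k1'.2.2.2])
      have h5 : ∑ q ∈ F, lam (2 * n - q.1) = ∑ a ∈ F.image (fun q => q.1), lam (2 * n - a) := by
        rw [sum_image hinj]
      rw [h5]
      unfold rS
      refine sum_le_sum_of_subset_of_nonneg ?_ ?_
      · intro a ha
        obtain ⟨q, hq, rfl⟩ := mem_image.1 ha
        obtain ⟨k1, k2, k3, k4⟩ := hmem q hq
        obtain ⟨l1, l2, l3, l4⟩ := h1 q k1
        rw [k4] at l2
        exact mem_filter.2 ⟨l1, l2⟩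
      · intro a _ _
        unfold lam
        split_ifs
        · exact Real.log_natCast_nonneg _
        · exact le_rfl
  have hcount : (P'.card : ℝ) ≤ D.card * (U / Real.log T) := by
    have h4 := card_eq_sum_card_fiberwise (s := P') (t := D) (f := ψ) (fun q hq => by
      rw [hP'] at hq
      exact (h1 q (mem_filter.1 (mem_coe.1 hq)).1).2.2.2)
    have h5 : (P'.card : ℝ) = ∑ n ∈ D, ((P'.filter (fun q => ψ q = n)).card : ℝ) := by
      exact_mod_cast h4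
    rw [h5, ← nsmul_eq_mul]
    exact sum_le_card_nsmul _ _ _ hfib
  have h6 : (P.card : ℝ) - A.card * T - A.card * E.card ≤ D.card * (U / Real.log T) := by
    linarith
  calc _ ≤ D.card * (U / Real.log T) * Real.log T := mul_le_mul_of_nonneg_right h6 hlT.le
    _ = D.card * U := by field_simp

/-- the real inequality -/
theorem PM9_real {L y L3 G κ ε c₀ K a D Pc e T X : ℝ} {k : ℕ} (hL1 : 1 ≤ L) (hy : L = Real.exp y)
    (hy0 : 0 ≤ y) (hL3 : 0 < L3) (hκ : κ + ε / 2 ≤ L3)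
    (hlog : 8 * G * L3 ^ 2 ≤ ε / 2 * y) (hX : 0 < X) (hc₀ : 0 < c₀)
    (hk : K + 3 ≤ (k : ℝ)) (hLc : 4 ≤ c₀ * L) (ha0 : 0 < a)
    (ha : c₀ * X / L ^ (K + 1) ≤ a) (hT : T = X / L ^ (k + 1)) (heT : e ≤ T)
    (hP : a ^ 2 / L * Real.exp (-(κ + ε / 2) * y / L3) ≤ Pc) (hD : 0 ≤ D)
    (hcore : (Pc - a * T - a * e) * (L / 2) ≤ D * (2 * G * L3 * a)) :
    a * Real.exp (-(κ + ε) * y / L3) ≤ D := by
  have hL0 : 0 < L := by linarith
  obtain ⟨w, hw⟩ : ∃ w, w = Real.exp (-(κ + ε / 2) * y / L3) := ⟨_, rfl⟩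
  rw [← hw] at hP
  have hw0 : 0 < w := by rw [hw]; exact Real.exp_pos _
  have hwL : 1 / L ≤ w := by
    rw [hw, hy, one_div, ← Real.exp_neg]
    refine Real.exp_le_exp.2 ?_
    rw [le_div_iff₀ hL3]
    nlinarith
  -- `4 T ≤ a w / L`
  have h1 : 4 * T ≤ a * w / L := by
    have h2 : c₀ * X / L ^ (K + 1) * (1 / L) / L ≤ a * w / L :=
      div_le_div_of_nonneg_right (mul_le_mul ha hwL (by positivity) ha0.le) hL0.le
    refine le_trans ?_ h2
    have h3 : c₀ * X / L ^ (K + 1) * (1 / L) / L = c₀ * X / L ^ (K + 3) := by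
      have h4 : L ^ (K + 3) = L ^ (K + 1) * L ^ (2 : ℝ) := by
        rw [← Real.rpow_add hL0]
        congr 1
        ring
      rw [h4, Real.rpow_two]
      field_simp
    rw [h3, hT]
    have h5 : L ^ (K + 3) * L ≤ L ^ (k + 1) := by
      have h6 : L ^ (K + 3) ≤ L ^ ((k : ℕ) : ℝ) := Real.rpow_le_rpow_of_exponent_le hL1 hk
      rw [Real.rpow_natCast] at h6
      rw [pow_succ]
      exact mul_le_mul_of_nonneg_right h6 hL0.le
    have h7 : 0 < L ^ (K + 3) := Real.rpow_pos_of_pos hL0 _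
    rw [le_div_iff₀ h7, mul_div_assoc', div_mul_eq_mul_div, div_le_iff₀ (by positivity)]
    calc 4 * X * L ^ (K + 3) ≤ (c₀ * L) * X * L ^ (K + 3) := by
          refine mul_le_mul_of_nonneg_right ?_ h7.le
          exact mul_le_mul_of_nonneg_right hLc hX.le
      _ = c₀ * X * (L ^ (K + 3) * L) := by ring
      _ ≤ c₀ * X * L ^ (k + 1) := mul_le_mul_of_nonneg_left h5 (by positivity)
  have h2 : a ^ 2 / L * w / 2 ≤ Pc - a * T - a * e := by
    have h3 : a * (4 * T) ≤ a * (a * w / L) := mul_le_mul_of_nonneg_left h1 ha0.le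
    have h4 : a * e ≤ a * T := mul_le_mul_of_nonneg_left heT ha0.le
    have h5 : a * (a * w / L) = a ^ 2 / L * w := by ring
    rw [h5] at h3
    linarith
  have h3 : a ^ 2 / L * w / 2 * (L / 2) ≤ D * (2 * G * L3 * a) :=
    (mul_le_mul_of_nonneg_right h2 (by positivity)).trans hcore
  have h4 : a * w ≤ 8 * G * L3 * D := by
    have h5 : a ^ 2 / L * w / 2 * (L / 2) = a * w / 4 * a := by
      field_simp
      norm_num
    have h6 : D * (2 * G * L3 * a) = (2 * G * L3 * D) * a := by ring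
    rw [h5, h6] at h3
    have h7 := le_of_mul_le_mul_right h3 ha0
    linarith
  have h5 : Real.exp (-(κ + ε) * y / L3) = w * Real.exp (-(ε / 2 * y / L3)) := by
    rw [hw, ← Real.exp_add]
    congr 1
    field_simp
    ring
  have h6 : 8 * G * L3 ≤ Real.exp (ε / 2 * y / L3) := by
    have h7 : 8 * G * L3 ≤ ε / 2 * y / L3 := by
      rw [le_div_iff₀ hL3]
      linarith
    have := Real.add_one_le_exp (ε / 2 * y / L3)
    linarith
  rw [h5, ← mul_assoc, Real.exp_neg, ← div_eq_mul_inv, div_le_iff₀ (Real.exp_pos _)]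
  calc a * w ≤ 8 * G * L3 * D := h4
    _ ≤ Real.exp (ε / 2 * y / L3) * D := mul_le_mul_of_nonneg_right h6 hD
    _ = D * Real.exp (ε / 2 * y / L3) := by ring

theorem PM9_loglog (c : ℝ) (hc : 0 < c) : ∀ᶠ X : ℕ in Filter.atTop,
    (Real.log (Real.log (Real.log X))) ^ 2 ≤ c * Real.log (Real.log X) := by
  have h1 := (Real.isLittleO_pow_log_id_atTop (n := 2)).bound hc
  filter_upwards [LG3_loglog.eventually h1, LG3_loglog_ev 0] with X hX hX0
  rw [Real.norm_eq_abs, Real.norm_eq_abs] at hX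
  have h3 := (le_abs_self _).trans hX
  rw [id, abs_of_nonneg hX0] at h3
  exact h3

/-- the common argument -/
theorem PM9_main (K ε c₀ κ : ℝ) (hK : 0 ≤ K) (hε : 0 < ε) (hc₀ : 0 < c₀) : ∃ X₀ : ℕ, ∀ X : ℕ,
    X₀ ≤ X → ∀ (A D : Finset ℕ) (P : Finset (ℕ × ℕ)) (ψ : ℕ × ℕ → ℕ),
      (∀ a ∈ A, a.Prime ∧ a ≤ X) → (∀ n ∈ D, 1 ≤ n ∧ n ≤ X) →
      (∀ q ∈ P, q.1 ∈ A ∧ q.1 < 2 * ψ q ∧ (2 * ψ q - q.1).Prime ∧ ψ q ∈ D) →
      (∀ q ∈ P, ∀ q' ∈ P, q.1 = q'.1 → ψ q = ψ q' → q = q') →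
      c₀ * X / (Real.log X) ^ (K + 1) ≤ (A.card : ℝ) →
        (A.card : ℝ) ^ 2 / Real.log X *
          Real.exp (-(κ + ε / 2) * Real.log (Real.log X) /
            Real.log (Real.log (Real.log X))) ≤ (P.card : ℝ) →
        (A.card : ℝ) *
          Real.exp (-(κ + ε) * Real.log (Real.log X) /
            Real.log (Real.log (Real.log X))) ≤ (D.card : ℝ) := by
  obtain ⟨k, hk⟩ : ∃ k : ℕ, k = ⌈K⌉₊ + 3 := ⟨_, rfl⟩
  have hkK : K + 3 ≤ (k : ℝ) := by
    rw [hk]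
    push_cast
    have := Nat.le_ceil K
    linarith
  obtain ⟨j, hj⟩ : ∃ j : ℕ, k = j + 1 := ⟨⌈K⌉₊ + 2, by omega⟩
  obtain ⟨X₁, hX₁⟩ := upper_all (k + 1) 1 one_pos
  obtain ⟨X₂, hX₂⟩ := eventually_range j 1 one_pos
  obtain ⟨G, hG⟩ : ∃ G : ℝ, G = Real.exp Real.eulerMascheroniConstant := ⟨_, rfl⟩
  have hG0 : 0 < G := by rw [hG]; exact Real.exp_pos _
  obtain ⟨X₃, hX₃⟩ := Filter.eventually_atTop.1
    (((LG3_log_ev (max 1 (4 / c₀))).and (LG3_log3_ev (max 1 (κ + ε / 2)))).and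
      ((LG3_loglog_ev 0).and (PM9_loglog (ε / 2 / (8 * G)) (by positivity))))
  refine ⟨max (max X₁ X₂) (max X₃ 1), fun X hX A D P ψ hA hDX h1 h2 hAc hPc => ?_⟩
  have hXa : X₁ ≤ X := ((le_max_left _ _).trans (le_max_left _ _)).trans hX
  have hXb : X₂ ≤ X := ((le_max_right _ _).trans (le_max_left _ _)).trans hX
  have hXc : X₃ ≤ X := ((le_max_left _ _).trans (le_max_right _ _)).trans hX
  have hXd : 1 ≤ X := ((le_max_right _ _).trans (le_max_right _ _)).trans hX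
  obtain ⟨⟨hL, hT3⟩, hy0, hlog⟩ := hX₃ X hXc
  obtain ⟨_, _, hT1, hTlog⟩ := hX₂ X hXb
  have hX0 : (0 : ℝ) < X := by exact_mod_cast hXd
  have hL1 : 1 ≤ Real.log X := (le_max_left _ _).trans hL
  have hLc : 4 ≤ c₀ * Real.log X := by
    have h3 : 4 / c₀ ≤ Real.log X := (le_max_right _ _).trans hL
    rw [div_le_iff₀ hc₀] at h3
    linarith
  have hL30 : 0 < Real.log (Real.log (Real.log X)) := by
    have := (le_max_left _ _).trans hT3
    linarith
  have hκ : κ + ε / 2 ≤ Real.log (Real.log (Real.log X)) := (le_max_right _ _).trans hT3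
  have hLexp : Real.log X = Real.exp (Real.log (Real.log X)) :=
    (Real.exp_log (by linarith)).symm
  have hjk : j + 2 = k + 1 := by omega
  rw [hjk] at hT1 hTlog
  obtain ⟨T, hT⟩ : ∃ T : ℝ, T = X / (Real.log X) ^ (k + 1) := ⟨_, rfl⟩
  rw [← hT] at hT1 hTlog
  have hA0 : 0 < (A.card : ℝ) := by
    refine lt_of_lt_of_le ?_ hAc
    have : 0 < Real.log X := by linarith
    positivity
  have hAT : X / (Real.log X) ^ (k + 1) ≤ (A.card : ℝ) := by
    refine le_trans ?_ hAc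
    have hL0 : 0 < Real.log X := by linarith
    have h5 : (Real.log X) ^ (K + 1) * Real.log X ≤ (Real.log X) ^ (k + 1) := by
      have h6 : (Real.log X) ^ (K + 1) ≤ (Real.log X) ^ ((k : ℕ) : ℝ) :=
        Real.rpow_le_rpow_of_exponent_le hL1 (by linarith)
      rw [Real.rpow_natCast] at h6
      rw [pow_succ]
      exact mul_le_mul_of_nonneg_right h6 hL0.le
    have h7 : 0 < (Real.log X) ^ (K + 1) := Real.rpow_pos_of_pos hL0 _
    rw [div_le_div_iff₀ (by positivity) h7]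
    calc (X : ℝ) * (Real.log X) ^ (K + 1) ≤ X * (Real.log X) ^ (K + 1) * (c₀ * Real.log X) :=
          le_mul_of_one_le_right (by positivity) (by linarith)
      _ = c₀ * X * ((Real.log X) ^ (K + 1) * Real.log X) := by ring
      _ ≤ c₀ * X * (Real.log X) ^ (k + 1) := mul_le_mul_of_nonneg_left h5 (by positivity)
  have hAsub : A ⊆ Icc 1 X := fun a ha => mem_Icc.2 ⟨(hA a ha).1.one_le, (hA a ha).2⟩
  have hEc := hX₁ X hXa A hAsub hAT
  obtain ⟨E, hE⟩ : ∃ E, E = (Icc 1 (2 * X)).filter (fun N =>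
    (1 + 1) * Real.exp Real.eulerMascheroniConstant * Real.log (Real.log (Real.log X)) *
      A.card < rS A N) := ⟨_, rfl⟩
  rw [← hE, ← hT] at hEc
  have hU0 : 0 ≤ 2 * G * Real.log (Real.log (Real.log X)) * (A.card : ℝ) :=
    mul_nonneg (mul_nonneg (mul_nonneg two_pos.le hG0.le) hL30.le) hA0.le
  have hcore := PM9_core A E D P ψ T (2 * G * Real.log (Real.log (Real.log X)) * A.card) hT1
    hU0 h1 h2 (fun n hn hnE => by
      by_contra hcon
      apply hnE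
      rw [hE, mem_filter, mem_Icc, ← hG]
      have h3 := hDX n hn
      refine ⟨⟨by omega, by omega⟩, ?_⟩
      have h4 := not_le.1 hcon
      linarith)
  have hD0 : (0 : ℝ) ≤ D.card := Nat.cast_nonneg _
  rcases le_or_gt ((P.card : ℝ) - A.card * T - A.card * E.card) 0 with hneg | hpos
  · -- impossible case handled by the same inequality
    refine PM9_real (k := k) (e := (E.card : ℝ)) (T := T) (X := X) (G := G) (c₀ := c₀) (K := K)
      (Pc := (P.card : ℝ)) hL1 hLexp hy0 hL30 hκ ?_ hX0 hc₀ hkK hLc hA0 hAc hT hEc hPc hD0 ?_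
    · have h3 := mul_le_mul_of_nonneg_left hlog (by positivity : 0 ≤ 8 * G)
      calc 8 * G * (Real.log (Real.log (Real.log X))) ^ 2 ≤
            8 * G * (ε / 2 / (8 * G) * Real.log (Real.log X)) := h3
        _ = ε / 2 * Real.log (Real.log X) := by field_simp
    · have h3 : ((P.card : ℝ) - A.card * T - A.card * E.card) * (Real.log X / 2) ≤ 0 :=
        mul_nonpos_of_nonpos_of_nonneg hneg (by linarith)
      exact h3.trans (mul_nonneg hD0 hU0)
  · refine PM9_real (k := k) (e := (E.card : ℝ)) (T := T) (X := X) (G := G) (c₀ := c₀) (K := K)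
      (Pc := (P.card : ℝ)) hL1 hLexp hy0 hL30 hκ ?_ hX0 hc₀ hkK hLc hA0 hAc hT hEc hPc hD0 ?_
    · have h3 := mul_le_mul_of_nonneg_left hlog (by positivity : 0 ≤ 8 * G)
      calc 8 * G * (Real.log (Real.log (Real.log X))) ^ 2 ≤
            8 * G * (ε / 2 / (8 * G) * Real.log (Real.log X)) := h3
        _ = ε / 2 * Real.log (Real.log X) := by field_simp
    · refine le_trans (mul_le_mul_of_nonneg_left ?_ hpos.le) hcore
      linarith

open Classical in
theorem mid_count (K ε c₀ : ℝ) (hK : 0 ≤ K) (hε : 0 < ε) (hc₀ : 0 < c₀) : ∃ X₀ : ℕ, ∀ X : ℕ,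
    X₀ ≤ X → ∀ A : Finset ℕ, (∀ a ∈ A, a.Prime ∧ a ≤ X) →
      c₀ * X / (Real.log X) ^ (K + 1) ≤ (A.card : ℝ) →
        (A.card : ℝ) *
          Real.exp (-(K * Real.log 2 + ε) * Real.log (Real.log X) /
            Real.log (Real.log (Real.log X))) ≤
          (((Icc 1 X).filter (fun p => p.Prime ∧ ∃ a ∈ A, ∃ b ∈ A, a ≠ b ∧ a + b = 2 * p)).card : ℝ) := by
  obtain ⟨X₁, hX₁⟩ := PM9_main K ε c₀ (K * Real.log 2) hK hε hc₀
  obtain ⟨X₂, hX₂⟩ := pairs_mid K (ε / 2) c₀ hK (by positivity) hc₀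
  refine ⟨max X₁ X₂, fun X hX A hA hAc => ?_⟩
  refine hX₁ X ((le_max_left _ _).trans hX) A _ (midPairs A) (fun q => (q.1 + q.2) / 2) hA ?_ ?_ ?_
    hAc (hX₂ X ((le_max_right _ _).trans hX) A hA hAc)
  · intro n hn
    exact mem_Icc.1 (mem_filter.1 hn).1
  · intro q hq
    obtain ⟨h1, h2, p, hp, h3⟩ := mem_filter.1 hq
    obtain ⟨h4, h5⟩ := mem_product.1 h1
    have h6 : (q.1 + q.2) / 2 = p := by omega
    have h7 := hA q.1 h4
    have h8 := hA q.2 h5
    have h9 := h8.1.pos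
    have h10 : 2 * p - q.1 = q.2 := by omega
    rw [h6, h10]
    refine ⟨h4, by omega, h8.1, mem_filter.2 ⟨mem_Icc.2 ⟨hp.one_le, by omega⟩, hp, q.1, h4, q.2, h5,
      h2, h3⟩⟩
  · intro q hq q' hq' h1 h2
    obtain ⟨-, -, p, hp, h3⟩ := mem_filter.1 hq
    obtain ⟨-, -, p', hp', h3'⟩ := mem_filter.1 hq'
    exact Prod.ext h1 (by omega)

open Classical in
theorem third_count (K ε c₀ : ℝ) (hK : 0 ≤ K) (hε : 0 < ε) (hc₀ : 0 < c₀) : ∃ X₀ : ℕ, ∀ X : ℕ,
    X₀ ≤ X → ∀ A : Finset ℕ, (∀ a ∈ A, a.Prime ∧ a ≤ X) →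
      c₀ * X / (Real.log X) ^ (K + 1) ≤ (A.card : ℝ) →
        (A.card : ℝ) *
          Real.exp (-(K * Real.log 3 + ε) * Real.log (Real.log X) /
            Real.log (Real.log (Real.log X))) ≤
          ((A.filter (fun b => ∃ a ∈ A, ∃ r : ℕ, r.Prime ∧ a ≠ r ∧ a + r = 2 * b)).card : ℝ) := by
  obtain ⟨X₁, hX₁⟩ := PM9_main K ε c₀ (K * Real.log 3) hK hε hc₀
  obtain ⟨X₂, hX₂⟩ := pairs_third K (ε / 2) c₀ hK (by positivity) hc₀
  refine ⟨max X₁ X₂, fun X hX A hA hAc => ?_⟩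
  refine hX₁ X ((le_max_left _ _).trans hX) A _ (thirdPairs A) (fun q => q.2) hA ?_ ?_ ?_
    hAc (hX₂ X ((le_max_right _ _).trans hX) A hA hAc)
  · intro n hn
    have h1 := hA n (mem_filter.1 hn).1
    exact ⟨h1.1.one_le, h1.2⟩
  · intro q hq
    obtain ⟨h1, h2, r, hr, h3⟩ := mem_filter.1 hq
    obtain ⟨h4, h5⟩ := mem_product.1 h1
    have h9 := hr.pos
    have h10 : 2 * q.2 - q.1 = r := by omega
    rw [h10]
    exact ⟨h4, by omega, hr, mem_filter.2 ⟨h5, q.1, h4, r, hr, by omega, h3⟩⟩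
  · intro q hq q' hq' h1 h2
    exact Prod.ext h1 h2

end Pool.Agent.Lib.SW
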